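import Pool.Agent.K7.H74.BK.Scl
import Pool.Agent.Y883.T6.Fin6

set_option autoImplicit false

/-! Linear equations in three primes: all scales, coefficients of arbitrary sign, and the number of the
exceptional triples. -/

namespace Pool.Agent.K7.H74.BK

open Finset
open Pool.Agent.Y883.T3 (ev_log_rpow)
open Pool.Agent.Y883.T5 (Admissible Adm no_common)
open Pool.Agent.Y883.T6 (adm_rot SmallSolution triple_cnt pair_gcd)

/-- a prime solution with small terms -/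
def SolY (Y : ℝ) (a b c d : ℤ) : Prop :=
  ∃ p q r : ℕ, p.Prime ∧ q.Prime ∧ r.Prime ∧ a * p + b * q + c * r = d ∧
    ((max p (max q r) : ℕ) : ℝ) ≤ 3 * |(d : ℝ)| + Y

lemma SolY.rot {Y : ℝ} {a b c d : ℤ} (h : SolY Y b c a d) : SolY Y a b c d := by
  obtain ⟨p, q, r, h1, h2, h3, h4, h5⟩ := h
  refine ⟨r, p, q, h3, h1, h2, by linarith, ?_⟩
  have e1 : max r (max p q) = max p (max q r) := by
    rw [max_comm r, max_assoc]
  rw [e1]
  exact h5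

/-- all equations with positive coefficients on the left are solvable -/
def HS (Y : ℝ) (u v w : ℕ) : Prop := ∀ d : ℤ, Adm u v w d →
  ∃ x y z : ℕ, x.Prime ∧ y.Prime ∧ z.Prime ∧ (u : ℤ) * x + v * y = d + w * z ∧
    ((max x (max y z) : ℕ) : ℝ) ≤ 3 * |(d : ℝ)| + Y

lemma sol_core {Y : ℝ} {a b c d : ℤ} (h : Admissible a b c d) (H : HS Y a.natAbs b.natAbs c.natAbs)
    (hs : (0 < a ∧ 0 < b ∧ c < 0) ∨ (a < 0 ∧ b < 0 ∧ 0 < c)) : SolY Y a b c d := by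
  have heven : (2 : ℤ) ∣ a + b + c - d := h.even.two_dvd
  rcases hs with ⟨ha, hb, hc⟩ | ⟨ha, hb, hc⟩
  · have ea : ((a.natAbs : ℕ) : ℤ) = a := Int.natAbs_of_nonneg ha.le
    have eb : ((b.natAbs : ℕ) : ℤ) = b := Int.natAbs_of_nonneg hb.le
    have ec : ((c.natAbs : ℕ) : ℤ) = -c := Int.ofNat_natAbs_of_nonpos hc.le
    have hadm : Adm (a.natAbs : ℤ) (b.natAbs : ℤ) (c.natAbs : ℤ) d := by
      rw [ea, eb, ec]
      refine ⟨fun p hp h1 => no_common h.gcd_abc p hp ⟨h1.1, h1.2.1, (dvd_neg).1 h1.2.2⟩,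
        fun p hp h1 => no_common h.gcd_dab p hp h1,
        fun p hp h1 => no_common h.gcd_dac p hp ⟨h1.1, h1.2.1, (dvd_neg).1 h1.2.2⟩,
        fun p hp h1 => no_common h.gcd_dbc p hp ⟨h1.1, h1.2.1, (dvd_neg).1 h1.2.2⟩, ?_⟩
      rw [sub_neg_eq_add]
      exact heven
    obtain ⟨x, y, z, h1, h2, h3, h4, h5⟩ := H d hadm
    rw [ea, eb, ec] at h4
    exact ⟨x, y, z, h1, h2, h3, by linarith, h5⟩
  · have ea : ((a.natAbs : ℕ) : ℤ) = -a := Int.ofNat_natAbs_of_nonpos ha.le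
    have eb : ((b.natAbs : ℕ) : ℤ) = -b := Int.ofNat_natAbs_of_nonpos hb.le
    have ec : ((c.natAbs : ℕ) : ℤ) = c := Int.natAbs_of_nonneg hc.le
    have hadm : Adm (a.natAbs : ℤ) (b.natAbs : ℤ) (c.natAbs : ℤ) (-d) := by
      rw [ea, eb, ec]
      refine ⟨fun p hp h1 => no_common h.gcd_abc p hp ⟨(dvd_neg).1 h1.1, (dvd_neg).1 h1.2.1, h1.2.2⟩,
        fun p hp h1 => no_common h.gcd_dab p hp ⟨(dvd_neg).1 h1.1, (dvd_neg).1 h1.2.1, (dvd_neg).1 h1.2.2⟩,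
        fun p hp h1 => no_common h.gcd_dac p hp ⟨(dvd_neg).1 h1.1, (dvd_neg).1 h1.2.1, h1.2.2⟩,
        fun p hp h1 => no_common h.gcd_dbc p hp ⟨(dvd_neg).1 h1.1, (dvd_neg).1 h1.2.1, h1.2.2⟩, ?_⟩
      have e : -a + -b - c - -d = -(a + b + c - d) := by ring
      rw [e]
      exact (dvd_neg).2 heven
    obtain ⟨x, y, z, h1, h2, h3, h4, h5⟩ := H (-d) hadm
    rw [ea, eb, ec] at h4
    refine ⟨x, y, z, h1, h2, h3, by linarith, ?_⟩
    push_cast at h5 ⊢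
    rwa [abs_neg] at h5

lemma sol_all {Y : ℝ} {a b c d : ℤ} (h : Admissible a b c d) (H1 : HS Y a.natAbs b.natAbs c.natAbs)
    (H2 : HS Y b.natAbs c.natAbs a.natAbs) (H3 : HS Y c.natAbs a.natAbs b.natAbs) : SolY Y a b c d := by
  have h0 := h.not_pos
  have h0' := h.not_neg
  rcases lt_or_gt_of_ne h.a_ne with ha | ha <;> rcases lt_or_gt_of_ne h.b_ne with hb | hb <;>
    rcases lt_or_gt_of_ne h.c_ne with hc | hc
  · exact absurd ⟨ha, hb, hc⟩ h0'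
  · exact sol_core h H1 (Or.inr ⟨ha, hb, hc⟩)
  · exact (sol_core (adm_rot (adm_rot h)) H3 (Or.inr ⟨hc, ha, hb⟩)).rot.rot
  · exact (sol_core (adm_rot h) H2 (Or.inl ⟨hb, hc, ha⟩)).rot
  · exact (sol_core (adm_rot h) H2 (Or.inr ⟨hb, hc, ha⟩)).rot
  · exact (sol_core (adm_rot (adm_rot h)) H3 (Or.inl ⟨hc, ha, hb⟩)).rot.rot
  · exact sol_core h H1 (Or.inl ⟨ha, hb, hc⟩)
  · exact absurd ⟨ha, hb, hc⟩ h0

/-- the sum over the scales -/
lemma sum_scales {L M : ℝ} {A j0 J : ℕ} (hL : 0 < L) (hM : 0 ≤ M) (hj : 1 ≤ j0)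
    (hLj : ∀ j, j0 ≤ j → L ≤ Real.log ((2 ^ j : ℕ) : ℝ)) :
    ∑ j ∈ Icc j0 J, M / Real.log ((2 ^ j : ℕ) : ℝ) ^ (A + 2) ≤ 8 * (M / L ^ A) := by
  have h1 : ∀ j ∈ Icc j0 J, M / Real.log ((2 ^ j : ℕ) : ℝ) ^ (A + 2) ≤ 4 * (M / L ^ A) * ((j : ℝ) ^ 2)⁻¹ := by
    intro j hj'
    rw [mem_Icc] at hj'
    have hj0 : (0 : ℝ) < j := by exact_mod_cast (by omega : 0 < j)
    have e1 : (j : ℝ) / 2 ≤ Real.log ((2 ^ j : ℕ) : ℝ) := by
      push_cast
      rw [Real.log_pow]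
      have := Real.log_two_gt_d9
      nlinarith
    have e2 := hLj j hj'.1
    have e3 : 0 < Real.log ((2 ^ j : ℕ) : ℝ) := by linarith
    have e4 : L ^ A * ((j : ℝ) / 2) ^ 2 ≤ Real.log ((2 ^ j : ℕ) : ℝ) ^ (A + 2) := by
      rw [pow_add]
      gcongr
    calc M / Real.log ((2 ^ j : ℕ) : ℝ) ^ (A + 2) ≤ M / (L ^ A * ((j : ℝ) / 2) ^ 2) :=
          div_le_div_of_nonneg_left hM (by positivity) e4
      _ = 4 * (M / L ^ A) * ((j : ℝ) ^ 2)⁻¹ := by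
          field_simp
          norm_num
  refine (sum_le_sum h1).trans ?_
  rw [← mul_sum]
  have h2 : ∑ j ∈ Icc j0 J, ((j : ℝ) ^ 2)⁻¹ ≤ 2 := by
    have e1 : Icc j0 J = Ioo (j0 - 1) (J + 1) := by
      ext j
      rw [mem_Icc, mem_Ioo]
      omega
    rw [e1]
    refine (sum_Ioo_inv_sq_le _ _).trans ?_
    rw [div_le_iff₀ (by positivity)]
    have : (0 : ℝ) ≤ ((j0 - 1 : ℕ) : ℝ) := Nat.cast_nonneg _
    linarith
  have h3 : 0 ≤ 4 * (M / L ^ A) := by positivity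
  calc 4 * (M / L ^ A) * ∑ j ∈ Icc j0 J, ((j : ℝ) ^ 2)⁻¹ ≤ 4 * (M / L ^ A) * 2 := mul_le_mul_of_nonneg_left h2 h3
    _ = _ := by ring

open Classical in
/-- a union over all the scales -/
lemma union_scales {α : Type*} (S : Finset α) (Q : ℕ → α → Prop) (j0 : ℕ) :
    ∃ J : ℕ, (S.filter (fun t => ∃ j, j0 ≤ j ∧ Q j t)).card ≤ ∑ j ∈ Icc j0 J, (S.filter (fun t => Q j t)).card := by
  have h : ∀ t : α, ∃ j : ℕ, (∃ j, j0 ≤ j ∧ Q j t) → j0 ≤ j ∧ Q j t := by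
    intro t
    by_cases h' : ∃ j, j0 ≤ j ∧ Q j t
    · obtain ⟨j, hj⟩ := h'
      exact ⟨j, fun _ => hj⟩
    · exact ⟨0, fun h'' => absurd h'' h'⟩
  choose φ hφ using h
  refine ⟨S.sup φ, ?_⟩
  have hsub : S.filter (fun t => ∃ j, j0 ≤ j ∧ Q j t) ⊆ (Icc j0 (S.sup φ)).biUnion (fun j => S.filter (fun t => Q j t)) := by
    intro t ht
    rw [mem_filter] at ht
    rw [mem_biUnion]
    refine ⟨φ t, ?_, ?_⟩
    · rw [mem_Icc]
      exact ⟨(hφ t ht.2).1, le_sup ht.1⟩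
    · rw [mem_filter]
      exact ⟨ht.1, (hφ t ht.2).2⟩
  exact (card_le_card hsub).trans card_biUnion_le

open Classical in
theorem dens_one (ε : ℝ) (hε : 0 < ε) (A : ℕ) : ∃ X₀ : ℕ, ∀ X : ℕ, X₀ ≤ X →
      (((Icc 1 X ×ˢ Icc 1 X ×ˢ Icc 1 X).filter (fun t : ℕ × ℕ × ℕ => ¬ ∀ a b c d : ℤ, Admissible a b c d →
        a.natAbs = t.1 → b.natAbs = t.2.1 → c.natAbs = t.2.2 → SmallSolution (1 + ε) a b c d)).card : ℝ) ≤
        (X : ℝ) ^ 3 / Real.log X ^ A := by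
  obtain ⟨σ, hσ⟩ : ∃ σ : ℝ, σ = ε / (2 * (4 + ε)) := ⟨_, rfl⟩
  have hσ0 : 0 < σ := by rw [hσ]; positivity
  obtain ⟨T, hT⟩ : ∃ T, T = A + 2 := ⟨_, rfl⟩
  obtain ⟨B, N₀, hN₀⟩ := one_scale T ((A + 1) + 2) σ hσ0
  obtain ⟨k, hk⟩ := exists_nat_ge ((A + 1 : ℕ) * (2 + ε))
  obtain ⟨N₁, h1⟩ := ev_log_rpow (A + 1) 2 1 (by norm_num)
  obtain ⟨N₂, h2⟩ := ev_log_rpow k 4 (ε / 2) (by positivity)
  obtain ⟨N₃, h3⟩ := exists_nat_ge (Real.exp 100)
  refine ⟨N₀ + N₁ + N₂ + N₃ + 3, fun X hX => ?_⟩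
  have hX1n : 1 ≤ X := by omega
  have hX0 : (0 : ℝ) < X := by exact_mod_cast hX1n
  have hX1 : (1 : ℝ) ≤ X := by exact_mod_cast hX1n
  have hX3 : (3 : ℝ) ≤ X := by exact_mod_cast (by omega : 3 ≤ X)
  obtain ⟨L, hL⟩ : ∃ L, L = Real.log X := ⟨_, rfl⟩
  have hL100 : 100 ≤ L := by
    rw [hL, Real.le_log_iff_exp_le hX0]
    exact h3.trans (by exact_mod_cast (by omega : N₃ ≤ X))
  have hL0 : 0 < L := by linarith
  have hL1 : 1 ≤ L := by linarith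
  have hL2 : 2 * L ^ (A + 1) ≤ X := by
    have := h1 X (by omega)
    rwa [Real.rpow_one, ← hL] at this
  have hL3 : 4 * L ^ k ≤ (X : ℝ) ^ (ε / 2) := by
    have := h2 X (by omega)
    rwa [← hL] at this
  rw [← hL]
  have hLp : 0 < L ^ (A + 1) := by positivity
  -- the scales
  obtain ⟨R, hR⟩ : ∃ R : ℝ, R = (X : ℝ) ^ (2 + ε / 2) := ⟨_, rfl⟩
  have hRX : (X : ℝ) ^ 2 ≤ R := by
    rw [hR, ← Real.rpow_natCast]
    apply Real.rpow_le_rpow_of_exponent_le hX1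
    push_cast
    linarith
  have hR1 : (9 : ℝ) ≤ R := by nlinarith
  obtain ⟨j0, hj0⟩ : ∃ j0, j0 = Nat.clog 2 ⌈R⌉₊ := ⟨_, rfl⟩
  have hj0R : ∀ j, j0 ≤ j → R ≤ ((2 ^ j : ℕ) : ℝ) := by
    intro j hj
    calc R ≤ (⌈R⌉₊ : ℝ) := Nat.le_ceil _
      _ ≤ ((2 ^ j0 : ℕ) : ℝ) := by
          rw [hj0]
          exact_mod_cast Nat.le_pow_clog (by norm_num) _
      _ ≤ _ := by exact_mod_cast Nat.pow_le_pow_right (by norm_num) hj
  have hjX : ∀ j, j0 ≤ j → (X : ℝ) ≤ ((2 ^ j : ℕ) : ℝ) := by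
    intro j hj
    have := hj0R j hj
    nlinarith
  have hjL : ∀ j, j0 ≤ j → L ≤ Real.log ((2 ^ j : ℕ) : ℝ) := by
    intro j hj
    rw [hL]
    exact Real.log_le_log hX0 (hjX j hj)
  have hjN : ∀ j, j0 ≤ j → N₀ ≤ 2 ^ j := by
    intro j hj
    have e1 : X ≤ 2 ^ j := by exact_mod_cast hjX j hj
    omega
  have hjσ : ∀ j, j0 ≤ j → (X : ℝ) ^ 2 ≤ ((2 ^ j : ℕ) : ℝ) ^ (1 - 2 * σ) := by
    intro j hj
    have e0 : 1 - 2 * σ = 4 / (4 + ε) := by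
      rw [hσ]
      field_simp
      ring
    have e1 : (X : ℝ) ^ 2 = R ^ (1 - 2 * σ) := by
      rw [hR, ← Real.rpow_mul hX0.le, e0, ← Real.rpow_natCast]
      congr 1
      push_cast
      field_simp
      ring
    rw [e1]
    apply Real.rpow_le_rpow (by linarith) (hj0R j hj)
    rw [e0]
    positivity
  have hj01 : 1 ≤ j0 := by
    by_contra hcon
    have e1 : j0 = 0 := by omega
    have e2 := hj0R 0 (by omega)
    norm_num at e2
    linarith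
  -- the exceptional sets
  obtain ⟨C, hC⟩ : ∃ C, C = Icc 1 X ×ˢ Icc 1 X ×ˢ Icc 1 X := ⟨_, rfl⟩
  obtain ⟨Bad, hBad⟩ : ∃ Bad : ℕ × ℕ × ℕ → Prop, Bad = fun t => ∃ j, j0 ≤ j ∧ Bad3 T B (2 ^ j) t.1 t.2.1 t.2.2 := ⟨_, rfl⟩
  have hBadc : ((C.filter Bad).card : ℝ) ≤ 72 * ((X : ℝ) ^ 3 / L ^ (A + 1)) := by
    obtain ⟨J, hJ⟩ := union_scales C (fun j t => Bad3 T B (2 ^ j) t.1 t.2.1 t.2.2) j0
    have e1 : ((C.filter Bad).card : ℝ) ≤ ∑ j ∈ Icc j0 J, ((C.filter (fun t => Bad3 T B (2 ^ j) t.1 t.2.1 t.2.2)).card : ℝ) := by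
      rw [hBad]
      exact_mod_cast hJ
    refine e1.trans ?_
    have e2 : ∀ j ∈ Icc j0 J, ((C.filter (fun t => Bad3 T B (2 ^ j) t.1 t.2.1 t.2.2)).card : ℝ) ≤
        9 * (X : ℝ) ^ 3 / Real.log ((2 ^ j : ℕ) : ℝ) ^ ((A + 1) + 2) := by
      intro j hj
      rw [mem_Icc] at hj
      have g1 := (hN₀ (2 ^ j) (hjN j hj.1) X hX1n (hjσ j hj.1)).1
      rw [← hC] at g1
      rw [mul_div_assoc]
      exact g1
    refine (sum_le_sum e2).trans ((sum_scales hL0 (by positivity) hj01 hjL).trans (le_of_eq ?_))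
    ring
  obtain ⟨P, hP⟩ : ∃ P : ℕ → ℕ → Prop, P = fun (u v : ℕ) => (u : ℝ) * L ^ (A + 1) < X ∨ L ^ T < (Nat.gcd u v : ℕ) :=
    ⟨_, rfl⟩
  obtain ⟨Z, hZ⟩ : ∃ Z : ℝ, Z = (X : ℝ) ^ 2 / L ^ (A + 1) := ⟨_, rfl⟩
  have hpairs : (((Icc 1 X ×ˢ Icc 1 X).filter (fun s : ℕ × ℕ => P s.1 s.2)).card : ℝ) ≤ 2 * Z := by
    obtain ⟨P1, hP1⟩ : ∃ P1, P1 = (Icc 1 X ×ˢ Icc 1 X).filter (fun s : ℕ × ℕ => (s.1 : ℝ) * L ^ (A + 1) < X) := ⟨_, rfl⟩
    obtain ⟨P2, hP2⟩ : ∃ P2, P2 = (Icc 1 X ×ˢ Icc 1 X).filter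
      (fun s : ℕ × ℕ => L ^ T < (Nat.gcd s.1 s.2 : ℕ)) := ⟨_, rfl⟩
    have hsub : (Icc 1 X ×ˢ Icc 1 X).filter (fun s : ℕ × ℕ => P s.1 s.2) ⊆ P1 ∪ P2 := by
      intro s hs
      rw [mem_filter, hP] at hs
      rw [mem_union, hP1, hP2, mem_filter, mem_filter]
      obtain ⟨g0, g | g⟩ := hs
      · exact Or.inl ⟨g0, g⟩
      · exact Or.inr ⟨g0, g⟩
    have hc : ((Icc 1 X ×ˢ Icc 1 X).filter (fun s : ℕ × ℕ => P s.1 s.2)).card ≤ P1.card + P2.card :=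
      (card_le_card hsub).trans (card_union_le _ _)
    have hcr : (((Icc 1 X ×ˢ Icc 1 X).filter (fun s : ℕ × ℕ => P s.1 s.2)).card : ℝ) ≤
        P1.card + P2.card := by exact_mod_cast hc
    have b1 : (P1.card : ℝ) ≤ Z := by
      have hsub1 : P1 ⊆ Icc 1 ⌊(X : ℝ) / L ^ (A + 1)⌋₊ ×ˢ Icc 1 X := by
        intro s hs
        rw [hP1, mem_filter, mem_product, mem_Icc, mem_Icc] at hs
        rw [mem_product, mem_Icc, mem_Icc]
        refine ⟨⟨hs.1.1.1, Nat.le_floor ?_⟩, hs.1.2⟩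
        rw [le_div_iff₀ hLp]
        exact hs.2.le
      have e1 := card_le_card hsub1
      rw [card_product, Nat.card_Icc, Nat.card_Icc, Nat.add_sub_cancel, Nat.add_sub_cancel] at e1
      have e2 : (P1.card : ℝ) ≤ (⌊(X : ℝ) / L ^ (A + 1)⌋₊ : ℕ) * X := by exact_mod_cast e1
      refine e2.trans ?_
      calc ((⌊(X : ℝ) / L ^ (A + 1)⌋₊ : ℕ) : ℝ) * X ≤ ((X : ℝ) / L ^ (A + 1)) * X :=
            mul_le_mul_of_nonneg_right (Nat.floor_le (by positivity)) hX0.le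
        _ = Z := by rw [hZ]; ring
    have b2 : (P2.card : ℝ) ≤ Z := by
      have e1 := pair_gcd X (L ^ T) (by positivity)
      rw [← hP2] at e1
      refine e1.trans ?_
      rw [hT, hZ]
      calc 2 * ((X : ℝ) ^ 2 / L ^ (A + 2)) ≤ L * ((X : ℝ) ^ 2 / L ^ (A + 2)) :=
            mul_le_mul_of_nonneg_right (by linarith) (by positivity)
        _ = (X : ℝ) ^ 2 / L ^ (A + 1) := by
            rw [pow_succ L (A + 1)]
            field_simp
    linarith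
  -- a triple without exceptional pairs
  have hgood : ∀ u v w : ℕ, u ∈ Icc 1 X → v ∈ Icc 1 X → w ∈ Icc 1 X → ¬ P u v → ¬ P v w → ¬ P w u →
      ¬ Bad (u, v, w) → ∀ a b c d : ℤ, Admissible a b c d →
      a.natAbs = u → b.natAbs = v → c.natAbs = w → SmallSolution (1 + ε) a b c d := by
    intro u v w hu hv hw huv hvw hwu hbad a b c d hadm ea eb ec
    rw [hP] at huv hvw hwu
    push Not at huv hvw hwu
    obtain ⟨u1, u2⟩ := huv
    obtain ⟨v1, v2⟩ := hvw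
    obtain ⟨w1, w2⟩ := hwu
    rw [hBad] at hbad
    push Not at hbad
    obtain ⟨Y, hY⟩ : ∃ Y : ℝ, Y = ((max 3 (max |a| (max |b| |c|)) : ℤ) : ℝ) ^ (1 + ε) := ⟨_, rfl⟩
    -- the size of the bound
    have hYlow : 4 * R * L ^ (A + 1) / X ≤ Y := by
      have g1 : (X : ℝ) / L ^ (A + 1) ≤ ((max 3 (max |a| (max |b| |c|)) : ℤ) : ℝ) := by
        rw [div_le_iff₀ hLp]
        refine u1.trans ?_
        apply mul_le_mul_of_nonneg_right _ hLp.le
        have g2 : (u : ℤ) ≤ max 3 (max |a| (max |b| |c|)) := by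
          rw [← ea, Int.natCast_natAbs]
          exact (le_max_left _ _).trans (le_max_right _ _)
        exact_mod_cast g2
      have g2 : ((X : ℝ) / L ^ (A + 1)) ^ (1 + ε) ≤ Y := by
        rw [hY]
        exact Real.rpow_le_rpow (by positivity) g1 (by linarith)
      refine le_trans ?_ g2
      rw [Real.div_rpow hX0.le hLp.le, div_le_div_iff₀ hX0 (by positivity)]
      have g3 : L ^ (A + 1) * (L ^ (A + 1)) ^ (1 + ε) ≤ L ^ k := by
        calc L ^ (A + 1) * (L ^ (A + 1)) ^ (1 + ε) = L ^ ((A + 1 : ℕ) * (2 + ε)) := by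
              rw [← Real.rpow_natCast L (A + 1), ← Real.rpow_mul hL0.le, ← Real.rpow_add hL0]
              congr 1
              ring
          _ ≤ L ^ (k : ℝ) := Real.rpow_le_rpow_of_exponent_le hL1 hk
          _ = L ^ k := Real.rpow_natCast _ _
      calc 4 * R * L ^ (A + 1) * (L ^ (A + 1)) ^ (1 + ε) = R * (4 * (L ^ (A + 1) * (L ^ (A + 1)) ^ (1 + ε))) := by ring
        _ ≤ R * (4 * L ^ k) := by
            apply mul_le_mul_of_nonneg_left _ (by linarith)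
            linarith
        _ ≤ R * (X : ℝ) ^ (ε / 2) := mul_le_mul_of_nonneg_left hL3 (by linarith)
        _ = (X : ℝ) ^ (1 + ε) * X := by
            rw [hR, ← Real.rpow_add hX0]
            nth_rewrite 3 [← Real.rpow_one (X : ℝ)]
            rw [← Real.rpow_add hX0]
            congr 1
            ring
    -- the solution of one equation
    have hone : ∀ a1 a2 a3 : ℕ, a1 ∈ Icc 1 X → a2 ∈ Icc 1 X → a3 ∈ Icc 1 X →
        (X : ℝ) ≤ a1 * L ^ (A + 1) → (X : ℝ) ≤ a2 * L ^ (A + 1) → (X : ℝ) ≤ a3 * L ^ (A + 1) →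
        ((Nat.gcd a1 a2 : ℕ) : ℝ) ≤ L ^ T → ((Nat.gcd a2 a3 : ℕ) : ℝ) ≤ L ^ T → ((Nat.gcd a3 a1 : ℕ) : ℝ) ≤ L ^ T →
        (∀ j, j0 ≤ j → ¬ Bad1 T B (2 ^ j) a1 a2 a3) → HS Y a1 a2 a3 := by
      intro a1 a2 a3 m1 m2 m3 l1 l2 l3 g1 g2 g3 hb d' hd'
      obtain ⟨j, hj⟩ : ∃ j, j = max j0 (Nat.clog 2 (3 * d'.natAbs)) := ⟨_, rfl⟩
      have hjj : j0 ≤ j := by rw [hj]; exact le_max_left _ _
      have hLT : L ^ T ≤ Real.log ((2 ^ j : ℕ) : ℝ) ^ T := pow_le_pow_left₀ hL0.le (hjL j hjj) _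
      have h3d : 3 * d'.natAbs ≤ 2 ^ j := by
        calc 3 * d'.natAbs ≤ 2 ^ (Nat.clog 2 (3 * d'.natAbs)) := Nat.le_pow_clog (by norm_num) _
          _ ≤ 2 ^ j := Nat.pow_le_pow_right (by norm_num) (by rw [hj]; exact le_max_right _ _)
      obtain ⟨x, y, z, px, py, pz, heq, hx, hy, hz⟩ := (hN₀ (2 ^ j) (hjN j hjj) X hX1n (hjσ j hjj)).2 a1 m1 a2 m2 a3 m3
        (g1.trans hLT) (g2.trans hLT) (g3.trans hLT) (hb j hjj) d' (by
          rw [Int.abs_eq_natAbs]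
          exact_mod_cast h3d) hd'
      refine ⟨x, y, z, px, py, pz, heq, ?_⟩
      -- the size of the solution
      have hN : ((2 ^ j : ℕ) : ℝ) ≤ 4 * R ∨ ((2 ^ j : ℕ) : ℝ) ≤ 6 * |(d' : ℝ)| := by
        rcases le_total (Nat.clog 2 (3 * d'.natAbs)) j0 with hc | hc
        · left
          have e1 : j = j0 := by rw [hj]; exact max_eq_left hc
          have e2 : 1 < ⌈R⌉₊ := by
            have : (1 : ℝ) < ⌈R⌉₊ := lt_of_lt_of_le (by linarith) (Nat.le_ceil R)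
            exact_mod_cast this
          have e3 := Nat.pow_pred_clog_lt_self (b := 2) (by norm_num) e2
          have e4 : 2 ^ j0 = 2 * 2 ^ (Nat.clog 2 ⌈R⌉₊).pred := by
            rw [← pow_succ', hj0]
            congr 1
            rw [← hj0]
            simp only [Nat.pred_eq_sub_one]
            omega
          have e5 : 2 ^ j ≤ 2 * ⌈R⌉₊ := by rw [e1, e4]; omega
          have e6 : ((2 ^ j : ℕ) : ℝ) ≤ 2 * (⌈R⌉₊ : ℝ) := by exact_mod_cast e5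
          have e7 : (⌈R⌉₊ : ℝ) < R + 1 := Nat.ceil_lt_add_one (by linarith)
          linarith
        · right
          have e1 : j = Nat.clog 2 (3 * d'.natAbs) := by rw [hj]; exact max_eq_right hc
          have e2 : 1 < 3 * d'.natAbs := by
            by_contra hcon
            have e3 : Nat.clog 2 (3 * d'.natAbs) = 0 := Nat.clog_of_right_le_one (not_lt.1 hcon) _
            omega
          have e3 := Nat.pow_pred_clog_lt_self (b := 2) (by norm_num) e2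
          have e4 : 2 ^ j = 2 * 2 ^ (Nat.clog 2 (3 * d'.natAbs)).pred := by
            rw [← pow_succ', e1]
            congr 1
            rw [← e1]
            simp only [Nat.pred_eq_sub_one]
            omega
          have e5 : 2 ^ j ≤ 2 * (3 * d'.natAbs) := by rw [e4]; omega
          have e6 : ((2 ^ j : ℕ) : ℝ) ≤ 2 * (3 * (d'.natAbs : ℝ)) := by exact_mod_cast e5
          have e7 : ((d'.natAbs : ℕ) : ℝ) = |(d' : ℝ)| := by
            rw [Nat.cast_natAbs, Int.cast_abs]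
          rw [e7] at e6
          linarith
      have hY0 : 0 ≤ Y := by
        refine le_trans ?_ hYlow
        positivity
      have hpart : ∀ (a s : ℕ), a ∈ Icc 1 X → (X : ℝ) ≤ a * L ^ (A + 1) → s ≤ 2 ^ j / a → (s : ℝ) ≤ 3 * |(d' : ℝ)| + Y := by
        intro a s ha hla hs
        rw [mem_Icc] at ha
        have ha0 : (0 : ℝ) < a := by exact_mod_cast ha.1
        have e1 : (s : ℝ) ≤ ((2 ^ j : ℕ) : ℝ) / a := by
          refine le_trans (by exact_mod_cast hs : (s : ℝ) ≤ ((2 ^ j / a : ℕ) : ℝ)) Nat.cast_div_le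
        refine e1.trans ?_
        have hd0 : 0 ≤ |(d' : ℝ)| := abs_nonneg _
        rcases hN with hN | hN
        · have e2 : ((2 ^ j : ℕ) : ℝ) / a ≤ 4 * R * L ^ (A + 1) / X := by
            rw [div_le_div_iff₀ ha0 hX0]
            calc ((2 ^ j : ℕ) : ℝ) * X ≤ (4 * R) * (a * L ^ (A + 1)) :=
                  mul_le_mul hN hla hX0.le (by linarith)
              _ = _ := by ring
          linarith
        · have e2 : (2 : ℝ) ≤ a := by
            have : 2 * L ^ (A + 1) ≤ a * L ^ (A + 1) := hL2.trans hla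
            exact le_of_mul_le_mul_right this hLp
          have e3 : ((2 ^ j : ℕ) : ℝ) / a ≤ 3 * |(d' : ℝ)| := by
            rw [div_le_iff₀ ha0]
            nlinarith
          linarith
      rw [Nat.cast_max, Nat.cast_max]
      exact max_le (hpart a1 x m1 l1 hx) (max_le (hpart a2 y m2 l2 hy) (hpart a3 z m3 l3 hz))
    have hb : ∀ j, j0 ≤ j → ¬ Bad1 T B (2 ^ j) u v w ∧ ¬ Bad1 T B (2 ^ j) v w u ∧ ¬ Bad1 T B (2 ^ j) w u v := by
      intro j hj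
      have := hbad j hj
      unfold Bad3 at this
      push Not at this
      exact this
    have H1 : HS Y a.natAbs b.natAbs c.natAbs := by
      rw [ea, eb, ec]
      exact hone u v w hu hv hw u1 v1 w1 u2 v2 w2 (fun j hj => (hb j hj).1)
    have H2 : HS Y b.natAbs c.natAbs a.natAbs := by
      rw [ea, eb, ec]
      exact hone v w u hv hw hu v1 w1 u1 v2 w2 u2 (fun j hj => (hb j hj).2.1)
    have H3 : HS Y c.natAbs a.natAbs b.natAbs := by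
      rw [ea, eb, ec]
      exact hone w u v hw hu hv w1 u1 v1 w2 u2 v2 (fun j hj => (hb j hj).2.2)
    have hfin := sol_all hadm H1 H2 H3
    unfold SmallSolution
    rw [← hY]
    exact hfin
  -- the number of the exceptional triples
  obtain ⟨c₁, hc₁⟩ : ∃ c₁ : Finset (ℕ × ℕ × ℕ), c₁ = C.filter (fun t => P t.1 t.2.1) := ⟨_, rfl⟩
  obtain ⟨c₂, hc₂⟩ : ∃ c₂ : Finset (ℕ × ℕ × ℕ), c₂ = C.filter (fun t => P t.2.1 t.2.2) := ⟨_, rfl⟩
  obtain ⟨c₃, hc₃⟩ : ∃ c₃ : Finset (ℕ × ℕ × ℕ), c₃ = C.filter (fun t => P t.2.2 t.1) := ⟨_, rfl⟩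
  obtain ⟨c₄, hc₄⟩ : ∃ c₄ : Finset (ℕ × ℕ × ℕ), c₄ = C.filter Bad := ⟨_, rfl⟩
  have hsub : (C.filter (fun t : ℕ × ℕ × ℕ => ¬ ∀ a b c d : ℤ, Admissible a b c d →
        a.natAbs = t.1 → b.natAbs = t.2.1 → c.natAbs = t.2.2 → SmallSolution (1 + ε) a b c d)) ⊆ c₁ ∪ (c₂ ∪ (c₃ ∪ c₄)) := by
    rintro ⟨u, v, w⟩ ht
    rw [mem_filter] at ht
    obtain ⟨ht1, ht2⟩ := ht
    rw [mem_union, mem_union, mem_union, hc₁, hc₂, hc₃, hc₄, mem_filter, mem_filter, mem_filter, mem_filter]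
    by_contra hcon
    push Not at hcon
    apply ht2
    have ht1' := ht1
    rw [hC, mem_product, mem_product] at ht1'
    exact hgood u v w ht1'.1 ht1'.2.1 ht1'.2.2 (hcon.1 ht1) (hcon.2.1 ht1) (hcon.2.2.1 ht1) (hcon.2.2.2 ht1)
  have hc : (C.filter (fun t : ℕ × ℕ × ℕ => ¬ ∀ a b c d : ℤ, Admissible a b c d →
        a.natAbs = t.1 → b.natAbs = t.2.1 → c.natAbs = t.2.2 → SmallSolution (1 + ε) a b c d)).card ≤
      c₁.card + (c₂.card + (c₃.card + c₄.card)) :=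
    (card_le_card hsub).trans ((card_union_le _ _).trans (Nat.add_le_add_left
      ((card_union_le _ _).trans (Nat.add_le_add_left (card_union_le _ _) _)) _))
  have hcr : ((C.filter (fun t : ℕ × ℕ × ℕ => ¬ ∀ a b c d : ℤ, Admissible a b c d →
        a.natAbs = t.1 → b.natAbs = t.2.1 → c.natAbs = t.2.2 → SmallSolution (1 + ε) a b c d)).card : ℝ) ≤
      c₁.card + (c₂.card + (c₃.card + c₄.card)) := by exact_mod_cast hc
  have hmem : ∀ t : ℕ × ℕ × ℕ, t ∈ Icc 1 X ×ˢ Icc 1 X ×ˢ Icc 1 X → t.1 ∈ Icc 1 X ∧ t.2.1 ∈ Icc 1 X ∧ t.2.2 ∈ Icc 1 X := by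
    intro t ht
    rw [mem_product, mem_product] at ht
    exact ht
  have t1 := triple_cnt X P (fun t => ((t.1, t.2.1), t.2.2)) (by
      rintro ⟨u, v, w⟩ ⟨u', v', w'⟩ h
      simp only [Prod.mk.injEq] at h
      obtain ⟨⟨h1, h2⟩, h3⟩ := h
      rw [h1, h2, h3]) (by
      intro t ht
      obtain ⟨g1, g2, g3⟩ := hmem t ht
      rw [mem_product, mem_product]
      exact ⟨⟨g1, g2⟩, g3⟩)
  have t2 := triple_cnt X P (fun t => ((t.2.1, t.2.2), t.1)) (by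
      rintro ⟨u, v, w⟩ ⟨u', v', w'⟩ h
      simp only [Prod.mk.injEq] at h
      obtain ⟨⟨h1, h2⟩, h3⟩ := h
      rw [h1, h2, h3]) (by
      intro t ht
      obtain ⟨g1, g2, g3⟩ := hmem t ht
      rw [mem_product, mem_product]
      exact ⟨⟨g2, g3⟩, g1⟩)
  have t3 := triple_cnt X P (fun t => ((t.2.2, t.1), t.2.1)) (by
      rintro ⟨u, v, w⟩ ⟨u', v', w'⟩ h
      simp only [Prod.mk.injEq] at h
      obtain ⟨⟨h1, h2⟩, h3⟩ := h
      rw [h1, h2, h3]) (by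
      intro t ht
      obtain ⟨g1, g2, g3⟩ := hmem t ht
      rw [mem_product, mem_product]
      exact ⟨⟨g3, g1⟩, g2⟩)
  simp only at t1 t2 t3
  rw [← hC, ← hc₁] at t1
  rw [← hC, ← hc₂] at t2
  rw [← hC, ← hc₃] at t3
  have hn : ∀ c : Finset (ℕ × ℕ × ℕ), c.card ≤ ((Icc 1 X ×ˢ Icc 1 X).filter (fun s : ℕ × ℕ => P s.1 s.2)).card * X →
      (c.card : ℝ) ≤ 2 * Z * X := by
    intro c hc
    have e1 : (c.card : ℝ) ≤ (((Icc 1 X ×ˢ Icc 1 X).filter (fun s : ℕ × ℕ => P s.1 s.2)).card : ℝ) * X := by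
      exact_mod_cast hc
    exact e1.trans (mul_le_mul_of_nonneg_right hpairs hX0.le)
  have n1 := hn c₁ t1
  have n2 := hn c₂ t2
  have n3 := hn c₃ t3
  rw [← hc₄] at hBadc
  rw [← hC]
  refine hcr.trans ?_
  have e0 : (X : ℝ) ^ 3 / L ^ (A + 1) = Z * X := by rw [hZ]; ring
  rw [e0] at hBadc
  have e1 : (X : ℝ) ^ 3 / L ^ A = L * (Z * X) := by
    rw [hZ, pow_succ L A]
    field_simp
  have e2 : 0 ≤ Z * X := by
    rw [hZ]
    positivity
  rw [e1]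
  have e3 : 100 * (Z * X) ≤ L * (Z * X) := mul_le_mul_of_nonneg_right hL100 e2
  linarith

end Pool.Agent.K7.H74.BK
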