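import Pool.Agent.K7.H74.BK.Four
import Pool.Agent.W93.LV2

set_option autoImplicit false

/-! The mean square of the number of the solutions of a linear equation in two unknowns, on average over
one coefficient. -/

namespace Pool.Agent.K7.H74.BK

open Finset
open Pool.Agent.Y883.T6

/-- the sum over the solutions of `c₁ x + c₂ y = n` -/
noncomputable def gs (c1 c2 : ℤ) (P1 P2 : ℕ) (u v : ℕ → ℝ) (n : ℤ) : ℝ :=
  ∑ s ∈ Icc 1 P1 ×ˢ Icc 1 P2, if c1 * (s.1 : ℕ) + c2 * (s.2 : ℕ) = n then u s.1 * v s.2 else 0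

/-- the mean square -/
noncomputable def E2 (c1 c2 : ℤ) (P1 P2 : ℕ) (u v : ℕ → ℝ) : ℝ :=
  ∑ s ∈ Icc 1 P1 ×ˢ Icc 1 P2, ∑ s' ∈ Icc 1 P1 ×ˢ Icc 1 P2,
    if c1 * (s.1 : ℕ) + c2 * (s.2 : ℕ) = c1 * (s'.1 : ℕ) + c2 * (s'.2 : ℕ) then (u s.1 * v s.2) * (u s'.1 * v s'.2) else 0

lemma sq_ident {ι : Type*} (S : Finset ι) (φ : ι → ℤ) (w : ι → ℝ) (I : Finset ℤ) (hI : ∀ s ∈ S, φ s ∈ I) :
    ∑ n ∈ I, (∑ s ∈ S, if φ s = n then w s else 0) ^ 2 =
      ∑ s ∈ S, ∑ s' ∈ S, if φ s = φ s' then w s * w s' else 0 := by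
  have e1 : ∀ n ∈ I, (∑ s ∈ S, if φ s = n then w s else 0) ^ 2 =
      ∑ s ∈ S, ∑ s' ∈ S, if φ s = n then (if φ s' = n then w s * w s' else 0) else 0 := by
    intro n _
    rw [sq, sum_mul_sum]
    apply sum_congr rfl
    intro s _
    apply sum_congr rfl
    intro s' _
    split_ifs <;> simp
  rw [sum_congr rfl e1, sum_comm]
  apply sum_congr rfl
  intro s hs
  rw [sum_comm]
  apply sum_congr rfl
  intro s' _
  rw [sum_ite_eq, if_pos (hI s hs)]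
  by_cases h : φ s = φ s'
  · rw [if_pos h, if_pos h.symm]
  · rw [if_neg h, if_neg (fun h' => h h'.symm)]

lemma gs_sq (c1 c2 : ℤ) (P1 P2 : ℕ) (u v : ℕ → ℝ) (I : Finset ℤ)
    (hI : ∀ s ∈ Icc 1 P1 ×ˢ Icc 1 P2, c1 * (s.1 : ℕ) + c2 * (s.2 : ℕ) ∈ I) :
    ∑ n ∈ I, gs c1 c2 P1 P2 u v n ^ 2 = E2 c1 c2 P1 P2 u v :=
  sq_ident _ (fun s : ℕ × ℕ => c1 * (s.1 : ℕ) + c2 * (s.2 : ℕ)) (fun s => u s.1 * v s.2) I hI

/-- the sum over the second unknown -/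
noncomputable def W2 (c1 c2 : ℤ) (P2 : ℕ) (v : ℕ → ℝ) (k : ℤ) : ℝ :=
  ∑ y ∈ Icc 1 P2, ∑ y' ∈ Icc 1 P2, if c1 * k = c2 * ((y' : ℤ) - y) then v y * v y' else 0

lemma W2_le {c1 c2 : ℤ} (hc2 : c2 ≠ 0) {P2 : ℕ} {v : ℕ → ℝ} {V : ℝ} (hV : 0 ≤ V) (hv : ∀ n ∈ Icc 1 P2, |v n| ≤ V)
    (k : ℤ) : |W2 c1 c2 P2 v k| ≤ if c2 ∣ c1 * k then V ^ 2 * P2 else 0 := by
  split_ifs with hd
  · unfold W2
    have h1 : ∀ y ∈ Icc 1 P2, |∑ y' ∈ Icc 1 P2, if c1 * k = c2 * ((y' : ℤ) - y) then v y * v y' else 0| ≤ V ^ 2 := by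
      intro y hy
      rw [← sum_filter]
      refine (abs_sum_le_sum_abs _ _).trans ?_
      have h2 : ((Icc 1 P2).filter (fun y' : ℕ => c1 * k = c2 * ((y' : ℤ) - y))).card ≤ 1 := by
        rw [card_le_one]
        intro z hz z' hz'
        rw [mem_filter] at hz hz'
        have e : c2 * ((z : ℤ) - y) = c2 * ((z' : ℤ) - y) := by rw [← hz.2, ← hz'.2]
        have := mul_left_cancel₀ hc2 e
        omega
      have h2r : (((Icc 1 P2).filter (fun y' : ℕ => c1 * k = c2 * ((y' : ℤ) - y))).card : ℝ) ≤ 1 := by exact_mod_cast h2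
      calc _ ≤ ∑ _y' ∈ (Icc 1 P2).filter (fun y' : ℕ => c1 * k = c2 * ((y' : ℤ) - y)), V ^ 2 := by
            apply sum_le_sum
            intro y' hy'
            rw [mem_filter] at hy'
            rw [abs_mul, sq]
            exact mul_le_mul (hv y hy) (hv y' hy'.1) (abs_nonneg _) hV
        _ = (((Icc 1 P2).filter (fun y' : ℕ => c1 * k = c2 * ((y' : ℤ) - y))).card : ℝ) * V ^ 2 := by
            rw [sum_const, nsmul_eq_mul]
        _ ≤ 1 * V ^ 2 := mul_le_mul_of_nonneg_right h2r (by positivity)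
        _ = V ^ 2 := one_mul _
    refine (abs_sum_le_sum_abs _ _).trans ((sum_le_sum h1).trans ?_)
    rw [sum_const, Nat.card_Icc, nsmul_eq_mul, Nat.add_sub_cancel, mul_comm]
  · have : W2 c1 c2 P2 v k = 0 := by
      unfold W2
      apply sum_eq_zero
      intro y _
      apply sum_eq_zero
      intro y' _
      rw [if_neg]
      intro h
      exact hd ⟨_, h⟩
    rw [this, abs_zero]

lemma E2_eq (c1 c2 : ℤ) (P1 P2 : ℕ) (u v : ℕ → ℝ) :
    E2 c1 c2 P1 P2 u v = ∑ k ∈ Icc (-(P1 : ℤ)) P1, cor u P1 k * W2 c1 c2 P2 v k := by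
  have e1 : ∀ k ∈ Icc (-(P1 : ℤ)) P1, cor u P1 k * W2 c1 c2 P2 v k =
      ∑ x ∈ Icc 1 P1, ∑ x' ∈ Icc 1 P1, if (x : ℤ) - x' = k then u x * u x' * W2 c1 c2 P2 v k else 0 := by
    intro k _
    unfold cor
    rw [sum_mul]
    apply sum_congr rfl
    intro x _
    rw [sum_mul]
    apply sum_congr rfl
    intro x' _
    split_ifs <;> simp
  rw [sum_congr rfl e1, sum_comm]
  unfold E2
  rw [sum_product]
  apply sum_congr rfl
  intro x hx
  conv_rhs => rw [sum_comm]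
  have e2 : ∀ y ∈ Icc 1 P2, ∑ s' ∈ Icc 1 P1 ×ˢ Icc 1 P2,
      (if c1 * ((x, y).1 : ℕ) + c2 * ((x, y).2 : ℕ) = c1 * (s'.1 : ℕ) + c2 * (s'.2 : ℕ) then
        (u (x, y).1 * v (x, y).2) * (u s'.1 * v s'.2) else 0) =
      ∑ x' ∈ Icc 1 P1, ∑ y' ∈ Icc 1 P2, (if c1 * (x : ℕ) + c2 * (y : ℕ) = c1 * (x' : ℕ) + c2 * (y' : ℕ) then
        (u x * v y) * (u x' * v y') else 0) := by
    intro y _
    rw [sum_product]
  rw [sum_congr rfl e2, sum_comm]
  apply sum_congr rfl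
  intro x' hx'
  rw [mem_Icc] at hx hx'
  rw [sum_ite_eq, if_pos (by rw [mem_Icc]; omega)]
  unfold W2
  rw [mul_sum]
  apply sum_congr rfl
  intro y _
  rw [mul_sum]
  apply sum_congr rfl
  intro y' _
  have e3 : (c1 * (x : ℕ) + c2 * (y : ℕ) = c1 * (x' : ℕ) + c2 * (y' : ℕ)) ↔
      (c1 * ((x : ℤ) - x') = c2 * ((y' : ℤ) - y)) := by
    constructor <;> intro h <;> linarith
  simp only [e3]
  split_ifs
  · ring
  · ring

lemma E2_le {c1 c2 : ℤ} (hc2 : c2 ≠ 0) {P1 P2 : ℕ} {u v : ℕ → ℝ} {V : ℝ} (hV : 0 ≤ V)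
    (hv : ∀ n ∈ Icc 1 P2, |v n| ≤ V) :
    E2 c1 c2 P1 P2 u v ≤ V ^ 2 * P2 * ∑ k ∈ Icc (-(P1 : ℤ)) P1, if c2 ∣ c1 * k then |cor u P1 k| else 0 := by
  rw [E2_eq, mul_sum]
  apply sum_le_sum
  intro k _
  refine (le_abs_self _).trans ?_
  rw [abs_mul]
  have h := W2_le (c1 := c1) hc2 hV hv k
  split_ifs at h ⊢ with hd
  · rw [mul_comm]
    exact mul_le_mul_of_nonneg_right h (abs_nonneg _)
  · have : |W2 c1 c2 P2 v k| = 0 := le_antisymm h (abs_nonneg _)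
    rw [this, mul_zero, mul_zero]

/-- the number of the coefficients `b` with `b ∣ a k` -/
lemma count_b {a G m : ℕ} (ha : 1 ≤ a) (hm : 1 ≤ m) (B : Finset ℕ) (hB : ∀ b ∈ B, 1 ≤ b ∧ Nat.gcd a b ≤ G) :
    (B.filter (fun b => b ∣ a * m)).card ≤ G * m.divisors.card := by
  have h1 : (B.filter (fun b => b ∣ a * m)).card ≤ (Icc 1 G ×ˢ m.divisors).card := by
    apply card_le_card_of_injOn (fun b => (Nat.gcd a b, b / Nat.gcd a b))
    · intro b hb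
      rw [mem_coe, mem_filter] at hb
      obtain ⟨h1, h2⟩ := hb
      obtain ⟨h3, h4⟩ := hB b h1
      have hg : 0 < Nat.gcd a b := Nat.gcd_pos_of_pos_left _ ha
      rw [mem_coe, mem_product, mem_Icc, Nat.mem_divisors]
      refine ⟨⟨hg, h4⟩, ?_, by omega⟩
      have h5 : b / Nat.gcd a b ∣ (a / Nat.gcd a b) * m := by
        have h6 : b / Nat.gcd a b ∣ (a * m) / Nat.gcd a b := Nat.div_dvd_div (Nat.gcd_dvd_right _ _) h2
        rwa [mul_comm a m, Nat.mul_div_assoc _ (Nat.gcd_dvd_left _ _), mul_comm] at h6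
      exact (Nat.coprime_div_gcd_div_gcd hg).symm.dvd_of_dvd_mul_left h5
    · intro b hb b' hb' h
      simp only [Prod.mk.injEq] at h
      obtain ⟨h1, h2⟩ := h
      have e1 := Nat.div_mul_cancel (Nat.gcd_dvd_right a b)
      have e2 := Nat.div_mul_cancel (Nat.gcd_dvd_right a b')
      rw [← e1, ← e2, h2, h1]
  rwa [card_product, Nat.card_Icc, Nat.add_sub_cancel] at h1

lemma sum_b {a G X : ℕ} (ha : 1 ≤ a) (B : Finset ℕ) (hB : ∀ b ∈ B, 1 ≤ b ∧ Nat.gcd a b ≤ G) (hX : B.card ≤ X)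
    (F : ℤ → ℝ) (hF : ∀ k, 0 ≤ F k) (P : ℕ) :
    ∑ b ∈ B, ∑ k ∈ Icc (-(P : ℤ)) P, (if (b : ℤ) ∣ a * k then F k else 0) ≤
      X * F 0 + G * ∑ k ∈ (Icc (-(P : ℤ)) P).filter (fun k => k ≠ 0), (k.natAbs.divisors.card : ℝ) * F k := by
  rw [sum_comm]
  have h0 : (0 : ℤ) ∈ Icc (-(P : ℤ)) P := by rw [mem_Icc]; omega
  have h1 : ∀ k : ℤ, ∑ b ∈ B, (if (b : ℤ) ∣ a * k then F k else 0) =
      ((B.filter (fun b : ℕ => (b : ℤ) ∣ a * k)).card : ℝ) * F k := by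
    intro k
    rw [← sum_filter, sum_const, nsmul_eq_mul]
  simp only [h1]
  rw [← sum_filter_add_sum_filter_not (Icc (-(P : ℤ)) P) (fun k => k ≠ 0), add_comm]
  apply add_le_add
  · have h2 : (Icc (-(P : ℤ)) P).filter (fun k => ¬ k ≠ 0) = {0} := by
      ext k
      rw [mem_filter, mem_singleton, not_not]
      constructor
      · exact fun h => h.2
      · rintro rfl
        exact ⟨h0, rfl⟩
    rw [h2, sum_singleton]
    apply mul_le_mul_of_nonneg_right _ (hF 0)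
    exact_mod_cast (card_filter_le _ _).trans hX
  · rw [mul_sum]
    apply sum_le_sum
    intro k hk
    rw [mem_filter] at hk
    rw [← mul_assoc]
    apply mul_le_mul_of_nonneg_right _ (hF k)
    have h3 : (B.filter (fun b : ℕ => (b : ℤ) ∣ a * k)).card = (B.filter (fun b => b ∣ a * k.natAbs)).card := by
      congr 1
      apply filter_congr
      intro b _
      rw [Int.natCast_dvd, Int.natAbs_mul, Int.natAbs_natCast]
    rw [h3]
    exact_mod_cast count_b ha (Int.natAbs_pos.2 hk.2) B hB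

lemma cor_zero (u : ℕ → ℝ) (P : ℕ) : cor u P 0 = ∑ n ∈ Icc 1 P, u n ^ 2 := by
  unfold cor
  apply sum_congr rfl
  intro x hx
  rw [sum_eq_single x]
  · rw [sub_self, if_pos rfl, sq]
  · intro x' _ hne
    rw [if_neg]
    intro h
    apply hne
    omega
  · intro h
    exact absurd hx h

lemma tau_int (P : ℕ) :
    ∑ k ∈ (Icc (-(P : ℤ)) P).filter (fun k => k ≠ 0), (k.natAbs.divisors.card : ℝ) ^ 2 ≤
      2 * (P * (1 + Real.log P) ^ 3) := by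
  have h1 := Pool.Agent.W93.LV.tau_sq P
  have h2 : (Icc (-(P : ℤ)) P).filter (fun k => k ≠ 0) ⊆
      (Icc 1 P).image (fun n : ℕ => (n : ℤ)) ∪ (Icc 1 P).image (fun n : ℕ => -(n : ℤ)) := by
    intro k hk
    rw [mem_filter, mem_Icc] at hk
    rw [mem_union, mem_image, mem_image]
    rcases lt_or_gt_of_ne hk.2 with h | h
    · right
      refine ⟨k.natAbs, ?_, ?_⟩
      · rw [mem_Icc]; omega
      · omega
    · left
      refine ⟨k.natAbs, ?_, ?_⟩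
      · rw [mem_Icc]; omega
      · omega
  have h3 : ∑ k ∈ (Icc 1 P).image (fun n : ℕ => (n : ℤ)), (k.natAbs.divisors.card : ℝ) ^ 2 =
      ∑ n ∈ Icc 1 P, (n.divisors.card : ℝ) ^ 2 := by
    rw [sum_image]
    · apply sum_congr rfl
      intro n _
      rw [Int.natAbs_natCast]
    · intro x _ y _ h
      simpa using h
  have h4 : ∑ k ∈ (Icc 1 P).image (fun n : ℕ => -(n : ℤ)), (k.natAbs.divisors.card : ℝ) ^ 2 =
      ∑ n ∈ Icc 1 P, (n.divisors.card : ℝ) ^ 2 := by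
    rw [sum_image]
    · apply sum_congr rfl
      intro n _
      rw [Int.natAbs_neg, Int.natAbs_natCast]
    · intro x _ y _ h
      simpa using h
  calc _ ≤ ∑ k ∈ (Icc 1 P).image (fun n : ℕ => (n : ℤ)) ∪ (Icc 1 P).image (fun n : ℕ => -(n : ℤ)),
        (k.natAbs.divisors.card : ℝ) ^ 2 := sum_le_sum_of_subset_of_nonneg h2 (fun _ _ _ => by positivity)
    _ ≤ ∑ k ∈ (Icc 1 P).image (fun n : ℕ => (n : ℤ)), (k.natAbs.divisors.card : ℝ) ^ 2 +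
        ∑ k ∈ (Icc 1 P).image (fun n : ℕ => -(n : ℤ)), (k.natAbs.divisors.card : ℝ) ^ 2 := by
        rw [← sum_union_inter]
        exact le_add_of_nonneg_right (sum_nonneg fun _ _ => by positivity)
    _ = ∑ n ∈ Icc 1 P, (n.divisors.card : ℝ) ^ 2 + ∑ n ∈ Icc 1 P, (n.divisors.card : ℝ) ^ 2 := by rw [h3, h4]
    _ ≤ _ := by linarith

/-- **The mean value over one coefficient.** -/
theorem sum_E2 {a G X N : ℕ} (ha : 1 ≤ a) (B : Finset ℕ) (hB : ∀ b ∈ B, 1 ≤ b ∧ Nat.gcd a b ≤ G) (hX : B.card ≤ X)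
    (c1 : ℤ) (hc1 : c1.natAbs = a) (c2 : ℕ → ℤ) (hc2 : ∀ b ∈ B, (c2 b).natAbs = b) (P1 : ℕ) (P2 : ℕ → ℕ)
    (hP2 : ∀ b ∈ B, b * P2 b ≤ N) (u v : ℕ → ℝ) {V S : ℝ} (hV : 0 ≤ V) (hv : ∀ b ∈ B, ∀ n ∈ Icc 1 (P2 b), |v n| ≤ V)
    (hS : ∀ α, Fh u P1 α ≤ S) (hu : ∑ n ∈ Icc 1 P1, u n ^ 2 ≤ V ^ 2 * P1) :
    ∑ b ∈ B, (b : ℝ) * E2 c1 (c2 b) P1 (P2 b) u v ≤
      V ^ 2 * N * (X * (V ^ 2 * P1) + G * (√(2 * (P1 * (1 + Real.log P1) ^ 3)) * √(S ^ 2 * (V ^ 2 * P1)))) := by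
  obtain ⟨K, hK⟩ : ∃ K, K = (Icc (-(P1 : ℤ)) P1).filter (fun k => k ≠ 0) := ⟨_, rfl⟩
  have h1 : ∀ b ∈ B, (b : ℝ) * E2 c1 (c2 b) P1 (P2 b) u v ≤
      V ^ 2 * N * ∑ k ∈ Icc (-(P1 : ℤ)) P1, (if (b : ℤ) ∣ a * k then |cor u P1 k| else 0) := by
    intro b hb
    obtain ⟨hb1, _⟩ := hB b hb
    have hc : c2 b ≠ 0 := by
      intro h
      have := hc2 b hb
      rw [h, Int.natAbs_zero] at this
      omega
    have e1 := E2_le (c1 := c1) hc (P1 := P1) (u := u) hV (hv b hb)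
    have e2 : ∀ k : ℤ, (c2 b ∣ c1 * k) ↔ ((b : ℤ) ∣ a * k) := by
      intro k
      rw [← Int.natAbs_dvd_natAbs, ← Int.natAbs_dvd_natAbs, Int.natAbs_mul, Int.natAbs_mul, hc2 b hb, hc1,
        Int.natAbs_natCast, Int.natAbs_natCast]
    simp only [e2] at e1
    obtain ⟨T, hT⟩ : ∃ T, T = ∑ k ∈ Icc (-(P1 : ℤ)) P1, (if (b : ℤ) ∣ a * k then |cor u P1 k| else 0) := ⟨_, rfl⟩
    rw [← hT] at e1 ⊢
    have hT0 : 0 ≤ T := by
      rw [hT]
      apply sum_nonneg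
      intro k _
      split_ifs
      · exact abs_nonneg _
      · exact le_rfl
    have hb0 : (0 : ℝ) ≤ b := Nat.cast_nonneg _
    have hbP : (b : ℝ) * P2 b ≤ N := by exact_mod_cast hP2 b hb
    calc (b : ℝ) * E2 c1 (c2 b) P1 (P2 b) u v ≤ b * (V ^ 2 * P2 b * T) := mul_le_mul_of_nonneg_left e1 hb0
      _ = V ^ 2 * (b * P2 b) * T := by ring
      _ ≤ V ^ 2 * N * T := by gcongr
  refine (sum_le_sum h1).trans ?_
  rw [← mul_sum]
  apply mul_le_mul_of_nonneg_left _ (by positivity)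
  refine (sum_b ha B hB hX (fun k => |cor u P1 k|) (fun k => abs_nonneg _) P1).trans ?_
  rw [← hK]
  apply add_le_add
  · apply mul_le_mul_of_nonneg_left _ (Nat.cast_nonneg _)
    rw [cor_zero, abs_of_nonneg (sum_nonneg fun _ _ => by positivity)]
    exact hu
  · apply mul_le_mul_of_nonneg_left _ (Nat.cast_nonneg _)
    have h2 : ∑ k ∈ K, (k.natAbs.divisors.card : ℝ) * |cor u P1 k| ≤
        √(∑ k ∈ K, (k.natAbs.divisors.card : ℝ) ^ 2) * √(∑ k ∈ K, |cor u P1 k| ^ 2) :=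
      Real.sum_mul_le_sqrt_mul_sqrt _ _ _
    refine h2.trans ?_
    apply mul_le_mul
    · apply Real.sqrt_le_sqrt
      rw [hK]
      exact tau_int P1
    · apply Real.sqrt_le_sqrt
      have h3 := fourth u P1 S hS
      have h4 : ∑ k ∈ K, |cor u P1 k| ^ 2 ≤ ∑ k ∈ Icc (-(P1 : ℤ)) P1, cor u P1 k ^ 2 := by
        have e1 : ∑ k ∈ K, |cor u P1 k| ^ 2 = ∑ k ∈ K, cor u P1 k ^ 2 := by
          apply sum_congr rfl
          intro k _
          rw [sq_abs]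
        rw [e1, hK]
        exact sum_le_sum_of_subset_of_nonneg (filter_subset _ _) (fun _ _ _ => by positivity)
      exact h4.trans (h3.trans (mul_le_mul_of_nonneg_left hu (by positivity)))
    · positivity
    · positivity

end Pool.Agent.K7.H74.BK
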