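import Pool.Agent.K7.H74.BK.Scale

set_option autoImplicit false

/-! Linear equations in three primes with fixed coefficients: the mean square of the error over the
right-hand side. -/

namespace Pool.Agent.K7.H74.BK

open Finset
open Pool.Agent.Y883.T6

lemma S3_gs1 (c1 c2 c3 d : ℤ) (P1 P2 P3 : ℕ) (g1 g2 g3 : ℕ → ℝ) :
    S3 c1 c2 c3 d P1 P2 P3 g1 g2 g3 = ∑ x ∈ Icc 1 P1, g1 x * gs c2 c3 P2 P3 g2 g3 (d - c1 * (x : ℕ)) := by
  unfold S3 gs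
  apply sum_congr rfl
  intro x _
  rw [sum_product, mul_sum]
  apply sum_congr rfl
  intro y _
  rw [mul_sum]
  apply sum_congr rfl
  intro z _
  have e1 : (c2 * (y : ℕ) + c3 * (z : ℕ) = d - c1 * (x : ℕ)) ↔ (c1 * (x : ℕ) + c2 * (y : ℕ) + c3 * (z : ℕ) = d) := by
    constructor <;> intro h <;> linarith
  simp only [e1]
  split_ifs <;> ring

/-- the mean square of a convolution -/
theorem conv_l2 (c1 : ℤ) (P1 : ℕ) (f : ℕ → ℝ) {S : ℝ} (hS : ∀ α, Fh f P1 α ≤ S) (K : Finset ℤ) (h : ℤ → ℝ)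
    (hK : ∀ n, n ∉ K → h n = 0) (D : Finset ℤ) :
    ∑ d ∈ D, (∑ x ∈ Icc 1 P1, f x * h (d - c1 * (x : ℕ))) ^ 2 ≤ S ^ 2 * ∑ n ∈ K, h n ^ 2 := by
  classical
  have hS0 : 0 ≤ S := (norm_nonneg _).trans (hS 0)
  obtain ⟨R, hR⟩ : ∃ R : ℕ, R = (∑ k ∈ K, k.natAbs) + (∑ d ∈ D, d.natAbs) + c1.natAbs * P1 := ⟨_, rfl⟩
  have hKR : ∀ k ∈ K, |k| ≤ (R : ℤ) := by
    intro k hk
    have e1 : k.natAbs ≤ ∑ k ∈ K, k.natAbs := single_le_sum (f := fun k : ℤ => k.natAbs) (fun _ _ => Nat.zero_le _) hk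
    rw [Int.abs_eq_natAbs]
    have : k.natAbs ≤ R := by rw [hR]; omega
    exact_mod_cast this
  have hDR : ∀ d ∈ D, |d| ≤ (R : ℤ) := by
    intro d hd
    have e1 : d.natAbs ≤ ∑ d ∈ D, d.natAbs := single_le_sum (f := fun d : ℤ => d.natAbs) (fun _ _ => Nat.zero_le _) hd
    rw [Int.abs_eq_natAbs]
    have : d.natAbs ≤ R := by rw [hR]; omega
    exact_mod_cast this
  have hxR : ∀ x ∈ Icc 1 P1, |c1 * (x : ℕ)| ≤ (R : ℤ) := by
    intro x hx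
    rw [mem_Icc] at hx
    rw [Int.abs_eq_natAbs, Int.natAbs_mul, Int.natAbs_natCast]
    have e1 : c1.natAbs * x ≤ c1.natAbs * P1 := Nat.mul_le_mul_left _ hx.2
    have : c1.natAbs * x ≤ R := by rw [hR]; omega
    exact_mod_cast this
  obtain ⟨I, hI⟩ : ∃ I : Finset ℤ, I = Icc (-(2 * R : ℤ)) (2 * R) := ⟨_, rfl⟩
  obtain ⟨M, hM⟩ : ∃ M : ℕ, M = 4 * R + 1 := ⟨_, rfl⟩
  have : NeZero M := ⟨by omega⟩
  have hM0 : (0 : ℝ) < M := by exact_mod_cast (by omega : 0 < M)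
  obtain ⟨C, hC⟩ : ∃ C : ℤ → ℝ, C = fun d => ∑ x ∈ Icc 1 P1, f x * h (d - c1 * (x : ℕ)) := ⟨_, rfl⟩
  have h1 := pars M I (by
    intro k hk k' hk'
    rw [hI, mem_Icc] at hk hk'
    rw [abs_lt]
    constructor <;> push_cast [hM] <;> omega) C
  have h2 := pars M K (by
    intro k hk k' hk'
    have e1 := abs_le.1 (hKR k hk)
    have e2 := abs_le.1 (hKR k' hk')
    rw [abs_lt]
    constructor <;> push_cast [hM] <;> omega) h
  have h3 : ∀ t : ZMod M, ∑ k ∈ I, ((C k : ℝ) : ℂ) * ZMod.stdAddChar (t * (k : ZMod M)) =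
      GG M f P1 c1 t * ∑ k ∈ K, ((h k : ℝ) : ℂ) * ZMod.stdAddChar (t * (k : ZMod M)) := by
    intro t
    have e1 : ∀ k ∈ I, ((C k : ℝ) : ℂ) * ZMod.stdAddChar (t * (k : ZMod M)) =
        ∑ x ∈ Icc 1 P1, ((f x : ℝ) : ℂ) * ZMod.stdAddChar (t * ((((x : ℕ) : ℤ) * c1 : ℤ) : ZMod M)) *
          (((h (k - c1 * (x : ℕ)) : ℝ) : ℂ) * ZMod.stdAddChar (t * ((k - c1 * (x : ℕ) : ℤ) : ZMod M))) := by
      intro k _
      rw [hC]
      simp only
      rw [Complex.ofReal_sum, sum_mul]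
      apply sum_congr rfl
      intro x _
      have e2 : t * (k : ZMod M) = t * ((((x : ℕ) : ℤ) * c1 : ℤ) : ZMod M) + t * ((k - c1 * (x : ℕ) : ℤ) : ZMod M) := by
        push_cast
        ring
      rw [e2, AddChar.map_add_eq_mul]
      push_cast
      ring
    rw [sum_congr rfl e1, sum_comm]
    unfold GG
    rw [sum_mul]
    apply sum_congr rfl
    intro x hx
    rw [← mul_sum]
    congr 1
    -- shift
    have e3 : ∑ k ∈ K, ((h k : ℝ) : ℂ) * ZMod.stdAddChar (t * (k : ZMod M)) =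
        ∑ k ∈ K.image (fun n => n + c1 * (x : ℕ)),
          (((h (k - c1 * (x : ℕ)) : ℝ) : ℂ) * ZMod.stdAddChar (t * ((k - c1 * (x : ℕ) : ℤ) : ZMod M))) := by
      rw [sum_image (by
        intro u _ v _ huv
        exact add_right_cancel huv)]
      apply sum_congr rfl
      intro n _
      rw [add_sub_cancel_right]
    rw [e3]
    symm
    apply sum_subset
    · intro k hk
      rw [mem_image] at hk
      obtain ⟨n, hn, rfl⟩ := hk
      have e1 := abs_le.1 (hKR n hn)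
      have e2 := abs_le.1 (hxR x hx)
      rw [hI, mem_Icc]
      constructor <;> omega
    · intro k _ hk
      have e4 : k - c1 * (x : ℕ) ∉ K := by
        intro hmem
        exact hk (mem_image.2 ⟨_, hmem, by ring⟩)
      rw [hK _ e4]
      simp
  have h4 : ∑ t : ZMod M, ‖∑ k ∈ I, ((C k : ℝ) : ℂ) * ZMod.stdAddChar (t * (k : ZMod M))‖ ^ 2 ≤
      S ^ 2 * ∑ t : ZMod M, ‖∑ k ∈ K, ((h k : ℝ) : ℂ) * ZMod.stdAddChar (t * (k : ZMod M))‖ ^ 2 := by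
    rw [mul_sum]
    apply sum_le_sum
    intro t _
    rw [h3 t, norm_mul, mul_pow]
    apply mul_le_mul_of_nonneg_right _ (by positivity)
    apply pow_le_pow_left₀ (norm_nonneg _)
    rw [GG_norm]
    exact hS _
  rw [h1, h2] at h4
  have h5 : (M : ℝ) * ∑ d ∈ I, C d ^ 2 ≤ M * (S ^ 2 * ∑ n ∈ K, h n ^ 2) := by linarith
  have h6 := le_of_mul_le_mul_left h5 hM0
  refine le_trans ?_ h6
  have h7 : ∑ d ∈ D, C d ^ 2 ≤ ∑ d ∈ I, C d ^ 2 := by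
    apply sum_le_sum_of_subset_of_nonneg
    · intro d hd
      have e1 := abs_le.1 (hDR d hd)
      rw [hI, mem_Icc]
      constructor <;> omega
    · intro _ _ _
      positivity
  rw [hC] at h7
  rw [hC]
  exact h7

/-- the trivial bound of the mean square -/
lemma E2_triv {c1 c2 : ℤ} (hc1 : c1 ≠ 0) (hc2 : c2 ≠ 0) {P1 P2 : ℕ} {u v : ℕ → ℝ} {V : ℝ} (hV : 0 ≤ V)
    (hu : ∀ n ∈ Icc 1 P1, |u n| ≤ V) (hv : ∀ n ∈ Icc 1 P2, |v n| ≤ V) :
    E2 c1 c2 P1 P2 u v ≤ V ^ 4 * P1 * P2 * (2 * (P1 * (Nat.gcd c1.natAbs c2.natAbs : ℕ) / c2.natAbs) + 1) := by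
  classical
  have hg0 : 0 < Nat.gcd c1.natAbs c2.natAbs := Nat.gcd_pos_of_pos_left _ (Int.natAbs_pos.2 hc1)
  obtain ⟨g, hg⟩ : ∃ g, g = Nat.gcd c1.natAbs c2.natAbs := ⟨_, rfl⟩
  rw [← hg] at hg0 ⊢
  obtain ⟨q, hq⟩ : ∃ q, q = c2.natAbs / g := ⟨_, rfl⟩
  have hgd : g ∣ c2.natAbs := by rw [hg]; exact Nat.gcd_dvd_right _ _
  have hqg : q * g = c2.natAbs := by rw [hq]; exact Nat.div_mul_cancel hgd
  have hc2' : 0 < c2.natAbs := Int.natAbs_pos.2 hc2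
  have hq0 : 0 < q := Nat.pos_of_ne_zero (by rintro rfl; omega)
  refine (E2_le hc2 hV hv).trans ?_
  have hcor : ∀ k : ℤ, |cor u P1 k| ≤ V ^ 2 * P1 := by
    intro k
    unfold cor
    have h1 : ∀ x ∈ Icc 1 P1, |∑ x' ∈ Icc 1 P1, if (x : ℤ) - x' = k then u x * u x' else 0| ≤ V ^ 2 := by
      intro x hx
      rw [← sum_filter]
      refine (abs_sum_le_sum_abs _ _).trans ?_
      have h2 : ((Icc 1 P1).filter (fun x' : ℕ => (x : ℤ) - x' = k)).card ≤ 1 := by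
        rw [card_le_one]
        intro z hz z' hz'
        rw [mem_filter] at hz hz'
        have e1 := hz.2
        have e2 := hz'.2
        omega
      have h2r : (((Icc 1 P1).filter (fun x' : ℕ => (x : ℤ) - x' = k)).card : ℝ) ≤ 1 := by exact_mod_cast h2
      calc _ ≤ ∑ _x' ∈ (Icc 1 P1).filter (fun x' : ℕ => (x : ℤ) - x' = k), V ^ 2 := by
            apply sum_le_sum
            intro x' hx'
            rw [mem_filter] at hx'
            rw [abs_mul, sq]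
            exact mul_le_mul (hu x hx) (hu x' hx'.1) (abs_nonneg _) hV
        _ = (((Icc 1 P1).filter (fun x' : ℕ => (x : ℤ) - x' = k)).card : ℝ) * V ^ 2 := by
            rw [sum_const, nsmul_eq_mul]
        _ ≤ 1 * V ^ 2 := mul_le_mul_of_nonneg_right h2r (by positivity)
        _ = V ^ 2 := one_mul _
    refine (abs_sum_le_sum_abs _ _).trans ((sum_le_sum h1).trans ?_)
    rw [sum_const, Nat.card_Icc, nsmul_eq_mul, Nat.add_sub_cancel, mul_comm]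
  have hdvd : ∀ k : ℤ, c2 ∣ c1 * k → (q : ℤ) ∣ k := by
    intro k hk
    have h1 : c2.natAbs ∣ c1.natAbs * k.natAbs := by
      rw [← Int.natAbs_mul]
      exact Int.natAbs_dvd_natAbs.2 hk
    have h2 : q ∣ (c1.natAbs / g) * k.natAbs := by
      have e1 : c2.natAbs / g ∣ (c1.natAbs * k.natAbs) / g := Nat.div_dvd_div hgd h1
      have e2 : g ∣ c1.natAbs := by rw [hg]; exact Nat.gcd_dvd_left _ _
      rw [← hq, mul_comm, Nat.mul_div_assoc _ e2, mul_comm] at e1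
      exact e1
    have h3 : Nat.Coprime q (c1.natAbs / g) := by
      rw [hq, hg]
      exact (Nat.coprime_div_gcd_div_gcd (by rw [← hg]; exact hg0)).symm
    have h4 := h3.dvd_of_dvd_mul_left h2
    rw [← Int.natAbs_dvd_natAbs, Int.natAbs_natCast]
    exact h4
  have hcount : (((Icc (-(P1 : ℤ)) P1).filter (fun k => c2 ∣ c1 * k)).card : ℝ) ≤ 2 * ((P1 : ℝ) * g / c2.natAbs) + 1 := by
    have h1 : ((Icc (-(P1 : ℤ)) P1).filter (fun k => c2 ∣ c1 * k)).card ≤ (Icc (-((P1 / q : ℕ) : ℤ)) ((P1 / q : ℕ) : ℤ)).card := by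
      apply card_le_card_of_injOn (fun k : ℤ => k / (q : ℤ))
      · intro k hk
        rw [mem_coe, mem_filter, mem_Icc] at hk
        obtain ⟨⟨k1, k2⟩, k3⟩ := hk
        obtain ⟨j, hj⟩ := hdvd k k3
        have hq0' : (0 : ℤ) < q := by exact_mod_cast hq0
        have e1 : k / q = j := by rw [hj]; exact Int.mul_ediv_cancel_left _ hq0'.ne'
        rw [mem_coe, mem_Icc]
        simp only
        rw [e1]
        have e2 : ((P1 / q : ℕ) : ℤ) = (P1 : ℤ) / q := by push_cast; rfl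
        rw [e2]
        constructor
        · have : -j ≤ (P1 : ℤ) / q := by
            rw [Int.le_ediv_iff_mul_le hq0']
            nlinarith
          linarith
        · rw [Int.le_ediv_iff_mul_le hq0']
          nlinarith
      · intro k hk k' hk' hkk
        rw [mem_coe, mem_filter] at hk hk'
        obtain ⟨j, hj⟩ := hdvd k hk.2
        obtain ⟨j', hj'⟩ := hdvd k' hk'.2
        have hq0' : (0 : ℤ) < q := by exact_mod_cast hq0
        have e1 : k / q = j := by rw [hj]; exact Int.mul_ediv_cancel_left _ hq0'.ne'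
        have e2 : k' / q = j' := by rw [hj']; exact Int.mul_ediv_cancel_left _ hq0'.ne'
        simp only at hkk
        rw [e1, e2] at hkk
        rw [hj, hj', hkk]
    rw [Int.card_Icc] at h1
    have h2 : ((P1 / q : ℕ) : ℝ) ≤ (P1 : ℝ) * g / c2.natAbs := by
      have e1 : ((P1 / q : ℕ) : ℝ) ≤ (P1 : ℝ) / q := Nat.cast_div_le
      refine e1.trans (le_of_eq ?_)
      rw [← hqg]
      have : (0 : ℝ) < q := by exact_mod_cast hq0
      have : (0 : ℝ) < g := by exact_mod_cast hg0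
      push_cast
      field_simp
    have h3 : (((Icc (-(P1 : ℤ)) P1).filter (fun k => c2 ∣ c1 * k)).card : ℝ) ≤ 2 * ((P1 / q : ℕ) : ℝ) + 1 := by
      have e1 : ((((P1 / q : ℕ) : ℤ) + 1 - -((P1 / q : ℕ) : ℤ)).toNat : ℤ) = 2 * ((P1 / q : ℕ) : ℤ) + 1 := by
        have e0 : (0 : ℤ) ≤ ((P1 / q : ℕ) : ℤ) := Int.natCast_nonneg _
        rw [Int.toNat_of_nonneg (by linarith)]
        ring
      have e2 : (((Icc (-(P1 : ℤ)) P1).filter (fun k => c2 ∣ c1 * k)).card : ℤ) ≤ 2 * ((P1 / q : ℕ) : ℤ) + 1 := by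
        rw [← e1]
        exact_mod_cast h1
      exact_mod_cast e2
    linarith
  have hsum : ∑ k ∈ Icc (-(P1 : ℤ)) P1, (if c2 ∣ c1 * k then |cor u P1 k| else 0) ≤
      V ^ 2 * P1 * (2 * ((P1 : ℝ) * g / c2.natAbs) + 1) := by
    rw [← sum_filter]
    calc _ ≤ ∑ _k ∈ (Icc (-(P1 : ℤ)) P1).filter (fun k => c2 ∣ c1 * k), V ^ 2 * P1 := sum_le_sum fun k _ => hcor k
      _ = (((Icc (-(P1 : ℤ)) P1).filter (fun k => c2 ∣ c1 * k)).card : ℝ) * (V ^ 2 * P1) := by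
          rw [sum_const, nsmul_eq_mul]
      _ ≤ (2 * ((P1 : ℝ) * g / c2.natAbs) + 1) * (V ^ 2 * P1) := mul_le_mul_of_nonneg_right hcount (by positivity)
      _ = _ := by ring
  calc V ^ 2 * P2 * ∑ k ∈ Icc (-(P1 : ℤ)) P1, (if c2 ∣ c1 * k then |cor u P1 k| else 0) ≤
        V ^ 2 * P2 * (V ^ 2 * P1 * (2 * ((P1 : ℝ) * g / c2.natAbs) + 1)) :=
        mul_le_mul_of_nonneg_left hsum (by positivity)
    _ = _ := by ring

/-- few right-hand sides with a large error -/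
theorem few_d {N κ T A : ℕ} {L δ : ℝ} (hN : 1 ≤ N) (hL : 1 ≤ L) {a1 a2 a3 : ℕ} (ha1 : 1 ≤ a1) (ha2 : 1 ≤ a2)
    (ha3 : 1 ≤ a3) (h23 : a2 * a3 ≤ N) (hg : ((Nat.gcd a2 a3 : ℕ) : ℝ) ≤ L ^ T) {s1 s2 s3 : ℤ} (hs2 : s2.natAbs = 1)
    (hs3 : s3.natAbs = 1) {f g2 g3 : ℕ → ℝ} (hg2 : ∀ n ∈ Icc 1 N, |g2 n| ≤ L) (hg3 : ∀ n ∈ Icc 1 N, |g3 n| ≤ L)
    (hF : ∀ α, Fh f (N / a1) α ≤ (N : ℝ) / a1 * δ) (hδ : 3 * (L ^ (2 * κ + T + A + 4) * δ ^ 2) ≤ 1) (D : Finset ℤ)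
    (hD : ∀ d ∈ D, (N : ℝ) ^ 2 / (a1 * a2 * a3) / L ^ κ <
      |S3 (s1 * a1) (s2 * a2) (s3 * a3) d (N / a1) (N / a2) (N / a3) f g2 g3|) :
    (D.card : ℝ) ≤ N / L ^ A := by
  have hN0 : (0 : ℝ) < N := by exact_mod_cast hN
  have hL0 : 0 < L := by linarith
  have ha10 : (0 : ℝ) < a1 := by exact_mod_cast ha1
  have ha20 : (0 : ℝ) < a2 := by exact_mod_cast ha2
  have ha30 : (0 : ℝ) < a3 := by exact_mod_cast ha3
  have hs2' : s2 ≠ 0 := by rintro rfl; simp at hs2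
  have hs3' : s3 ≠ 0 := by rintro rfl; simp at hs3
  have hc2 : s2 * (a2 : ℤ) ≠ 0 := mul_ne_zero hs2' (by exact_mod_cast (by omega : a2 ≠ 0))
  have hc3 : s3 * (a3 : ℤ) ≠ 0 := mul_ne_zero hs3' (by exact_mod_cast (by omega : a3 ≠ 0))
  have n2 : (s2 * (a2 : ℤ)).natAbs = a2 := by rw [Int.natAbs_mul, hs2, one_mul, Int.natAbs_natCast]
  have n3 : (s3 * (a3 : ℤ)).natAbs = a3 := by rw [Int.natAbs_mul, hs3, one_mul, Int.natAbs_natCast]
  obtain ⟨K, hK⟩ : ∃ K : ℝ, K = (N : ℝ) ^ 2 / (a1 * a2 * a3) / L ^ κ := ⟨_, rfl⟩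
  have hK0 : 0 < K := by rw [hK]; positivity
  obtain ⟨P, hP⟩ : ∃ P : ℕ → ℕ, P = fun a => N / a := ⟨_, rfl⟩
  have hPle : ∀ a : ℕ, ((N / a : ℕ) : ℝ) ≤ N / a := fun a => Nat.cast_div_le
  obtain ⟨Kf, hKf⟩ : ∃ Kf : Finset ℤ, Kf = (Icc 1 (N / a2) ×ˢ Icc 1 (N / a3)).image
    (fun s : ℕ × ℕ => (s2 * a2) * (s.1 : ℕ) + (s3 * a3) * (s.2 : ℕ)) := ⟨_, rfl⟩
  have h1 := conv_l2 (s1 * a1) (N / a1) f hF Kf (gs (s2 * a2) (s3 * a3) (N / a2) (N / a3) g2 g3)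
    (fun n hn => gs_zero (by rwa [hKf] at hn)) D
  have h2 : ∑ n ∈ Kf, gs (s2 * a2) (s3 * a3) (N / a2) (N / a3) g2 g3 n ^ 2 =
      E2 (s2 * a2) (s3 * a3) (N / a2) (N / a3) g2 g3 := by
    apply gs_sq
    intro s hs
    rw [hKf]
    exact mem_image.2 ⟨s, hs, rfl⟩
  rw [h2] at h1
  have h3 := E2_triv hc2 hc3 hL0.le (fun n hn => hg2 n (Icc_div hn)) (fun n hn => hg3 n (Icc_div hn)) (P1 := N / a2)
    (P2 := N / a3) (u := g2) (v := g3)
  rw [n2, n3] at h3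
  have h4 : E2 (s2 * a2) (s3 * a3) (N / a2) (N / a3) g2 g3 ≤ 3 * (L ^ (T + 4) * ((N : ℝ) ^ 3 / ((a2 : ℝ) * a3) ^ 2)) := by
    refine h3.trans ?_
    have e1 : (1 : ℝ) ≤ N / (a2 * a3) := by
      rw [le_div_iff₀ (by positivity), one_mul]
      exact_mod_cast h23
    have e2 : ((N / a2 : ℕ) : ℝ) * (Nat.gcd a2 a3 : ℕ) / a3 ≤ L ^ T * (N / (a2 * a3)) := by
      calc ((N / a2 : ℕ) : ℝ) * (Nat.gcd a2 a3 : ℕ) / a3 ≤ ((N : ℝ) / a2) * L ^ T / a3 := by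
            have := hPle a2
            gcongr
        _ = _ := by field_simp
    have e3 : (1 : ℝ) ≤ L ^ T * (N / (a2 * a3)) := one_le_mul_of_one_le_of_one_le (one_le_pow₀ hL) e1
    calc L ^ 4 * ((N / a2 : ℕ) : ℝ) * ((N / a3 : ℕ) : ℝ) * (2 * (((N / a2 : ℕ) : ℝ) * (Nat.gcd a2 a3 : ℕ) / a3) + 1) ≤
          L ^ 4 * ((N : ℝ) / a2) * ((N : ℝ) / a3) * (2 * (L ^ T * (N / (a2 * a3))) + L ^ T * (N / (a2 * a3))) := by
          have := hPle a2
          have := hPle a3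
          gcongr
      _ = 3 * (L ^ (T + 4) * ((N : ℝ) ^ 3 / ((a2 : ℝ) * a3) ^ 2)) := by
          field_simp
          ring
  have h5 : (D.card : ℝ) * K ^ 2 ≤ ∑ d ∈ D, (∑ x ∈ Icc 1 (N / a1), f x * gs (s2 * a2) (s3 * a3) (N / a2) (N / a3) g2 g3
      (d - s1 * a1 * (x : ℕ))) ^ 2 := by
    rw [← nsmul_eq_mul]
    apply card_nsmul_le_sum
    intro d hd
    have e1 := hD d hd
    rw [← hK, S3_gs1] at e1
    rw [← sq_abs (∑ x ∈ Icc 1 (N / a1), _)]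
    exact pow_le_pow_left₀ hK0.le e1.le 2
  have h6 : (D.card : ℝ) * K ^ 2 ≤ (N / L ^ A) * K ^ 2 := by
    refine h5.trans (h1.trans ?_)
    have e0 : ((N : ℝ) / a1 * δ) ^ 2 * E2 (s2 * a2) (s3 * a3) (N / a2) (N / a3) g2 g3 ≤
        ((N : ℝ) / a1 * δ) ^ 2 * (3 * (L ^ (T + 4) * ((N : ℝ) ^ 3 / ((a2 : ℝ) * a3) ^ 2))) :=
      mul_le_mul_of_nonneg_left h4 (by positivity)
    refine e0.trans ?_
    have e1 : ((N : ℝ) / a1 * δ) ^ 2 * (3 * (L ^ (T + 4) * ((N : ℝ) ^ 3 / ((a2 : ℝ) * a3) ^ 2))) =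
        ((N / L ^ A) * K ^ 2) * (3 * (L ^ (2 * κ + T + A + 4) * δ ^ 2)) := by
      rw [hK]
      have : L ^ (2 * κ + T + A + 4) = L ^ A * (L ^ κ) ^ 2 * L ^ (T + 4) := by
        rw [← pow_mul, ← pow_add, ← pow_add]
        congr 1
        ring
      rw [this]
      field_simp
    rw [e1]
    exact mul_le_of_le_one_right (by positivity) hδ
  exact le_of_mul_le_mul_right h6 (by positivity)

end Pool.Agent.K7.H74.BK
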