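import Pool.Agent.K7.H74.BK.Solve

set_option autoImplicit false

/-! Linear equations in three primes with three large coefficients: the exceptional triples of one scale. -/

namespace Pool.Agent.K7.H74.BK

open Finset
open Pool.Agent.H373R2.T7
open Pool.Agent.Y883.T3
open Pool.Agent.Y883.T4
open Pool.Agent.Y883.T5
open Pool.Agent.Y883.T6
open Pool.Agent.Y883 (tendsto_pow_log)

/-- the parameter of the model at the scale `N` -/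
noncomputable def zN (B N : ℕ) : ℕ := ⌈Real.log N ^ B⌉₊

/-- a triple with a large error at the scale `N` -/
def Bad1 (T B N a b c : ℕ) : Prop :=
  BadT N T (6 * T + 10) 1 1 (-1) (fz (zN B N)) vm vm a b c ∨
  BadT N T (6 * T + 10) 1 1 (-1) (fz (zN B N)) (lamz (zN B N)) vm b a c ∨
  BadT N T (6 * T + 10) (-1) 1 1 (fz (zN B N)) (lamz (zN B N)) (lamz (zN B N)) c a b

/-- a triple with a large error at the scale `N`, in one of the orders -/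
def Bad3 (T B N a b c : ℕ) : Prop := Bad1 T B N a b c ∨ Bad1 T B N b c a ∨ Bad1 T B N c a b

open Classical in
lemma perm_cnt (X : ℕ) (P : ℕ × ℕ × ℕ → Prop) (f : ℕ × ℕ × ℕ → ℕ × ℕ × ℕ) (hf : Function.Injective f)
    (hm : ∀ t ∈ Icc 1 X ×ˢ Icc 1 X ×ˢ Icc 1 X, f t ∈ Icc 1 X ×ˢ Icc 1 X ×ˢ Icc 1 X) :
    ((Icc 1 X ×ˢ Icc 1 X ×ˢ Icc 1 X).filter (fun t => P (f t))).card ≤
      ((Icc 1 X ×ˢ Icc 1 X ×ˢ Icc 1 X).filter P).card := by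
  apply card_le_card_of_injOn f
  · intro t ht
    rw [mem_coe, mem_filter] at ht ⊢
    exact ⟨hm t ht.1, ht.2⟩
  · exact fun _ _ _ _ h => hf h

open Classical in
lemma or3_cnt {α : Type*} (S : Finset α) (W P Q R : α → Prop) (hW : ∀ t, W t → P t ∨ Q t ∨ R t) {M : ℝ}
    (h1 : ((S.filter P).card : ℝ) ≤ M) (h2 : ((S.filter Q).card : ℝ) ≤ M) (h3 : ((S.filter R).card : ℝ) ≤ M) :
    ((S.filter W).card : ℝ) ≤ 3 * M := by
  have hsub : S.filter W ⊆ S.filter P ∪ (S.filter Q ∪ S.filter R) := by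
    intro t ht
    rw [mem_filter] at ht
    rw [mem_union, mem_union, mem_filter, mem_filter, mem_filter]
    have := hW t ht.2
    tauto
  have hc : (S.filter W).card ≤ (S.filter P).card + ((S.filter Q).card + (S.filter R).card) :=
    (card_le_card hsub).trans ((card_union_le _ _).trans (Nat.add_le_add_left (card_union_le _ _) _))
  have hcr : ((S.filter W).card : ℝ) ≤
      (S.filter P).card + ((S.filter Q).card + (S.filter R).card) := by exact_mod_cast hc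
  linarith

open Classical in
theorem one_scale (T A : ℕ) (σ : ℝ) (hσ : 0 < σ) : ∃ B N₀ : ℕ, ∀ N : ℕ, N₀ ≤ N → ∀ X : ℕ, 1 ≤ X →
    (X : ℝ) ^ 2 ≤ (N : ℝ) ^ (1 - 2 * σ) →
    (((Icc 1 X ×ˢ Icc 1 X ×ˢ Icc 1 X).filter (fun t : ℕ × ℕ × ℕ => Bad3 T B N t.1 t.2.1 t.2.2)).card : ℝ) ≤
      9 * ((X : ℝ) ^ 3 / Real.log N ^ A) ∧
    ∀ a1 ∈ Icc 1 X, ∀ a2 ∈ Icc 1 X, ∀ a3 ∈ Icc 1 X, ((Nat.gcd a1 a2 : ℕ) : ℝ) ≤ Real.log N ^ T →
      ((Nat.gcd a2 a3 : ℕ) : ℝ) ≤ Real.log N ^ T → ((Nat.gcd a3 a1 : ℕ) : ℝ) ≤ Real.log N ^ T →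
      ¬ Bad1 T B N a1 a2 a3 → ∀ d : ℤ, 3 * |d| ≤ N → Adm a1 a2 a3 d →
      ∃ x y w : ℕ, x.Prime ∧ y.Prime ∧ w.Prime ∧ (a1 : ℤ) * x + a2 * y = d + a3 * w ∧
        x ≤ N / a1 ∧ y ≤ N / a2 ∧ w ≤ N / a3 := by
  obtain ⟨B₀, hB₀⟩ := scale_bad T A (6 * T + 10) σ hσ
  obtain ⟨B, hBd⟩ : ∃ B, B = B₀ + 5 := ⟨_, rfl⟩
  obtain ⟨N₁, h1⟩ := hB₀ B (by omega)
  obtain ⟨N₂, h2⟩ := solve_one T B σ hσ (by omega)
  obtain ⟨N₃, h3⟩ := Vz_inv_small (B + 1)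
  obtain ⟨N₄, h4⟩ := ev_L' 100
  obtain ⟨N₅, h5⟩ := tendsto_pow_log 4 (2 * σ) (by positivity)
  refine ⟨B, N₁ + N₂ + N₃ + N₄ + N₅ + 2, fun N hN X hX hXN => ?_⟩
  have hL := h4 N (by omega)
  have c5 := h5 N (by omega)
  have hN1 : 1 ≤ N := by omega
  have hN0 : (0 : ℝ) < N := by exact_mod_cast hN1
  obtain ⟨z, hz⟩ : ∃ z, z = zN B N := ⟨_, rfl⟩
  obtain ⟨L, hLd⟩ : ∃ L, L = Real.log (N : ℝ) := ⟨_, rfl⟩
  have hz1 : L ^ B ≤ (z : ℝ) := by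
    rw [hz, hLd]
    exact Nat.le_ceil _
  have hL' : 100 ≤ L := by rw [hLd]; exact hL
  have hL0 : 0 < L := by linarith
  have hz2 : (z : ℝ) ≤ L ^ (B + 1) := by
    have e1 : (z : ℝ) < L ^ B + 1 := by
      rw [hz, hLd]
      exact Nat.ceil_lt_add_one (by rw [← hLd]; positivity)
    have e2 : 1 ≤ L ^ B := one_le_pow₀ (by linarith)
    calc (z : ℝ) ≤ L ^ B + 1 := e1.le
      _ ≤ 2 * L ^ B := by linarith
      _ ≤ L * L ^ B := mul_le_mul_of_nonneg_right (by linarith) (by positivity)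
      _ = L ^ (B + 1) := by ring
  have hz1n : 1 ≤ z := by
    have : (1 : ℝ) ≤ z := le_trans (one_le_pow₀ (by linarith)) hz1
    exact_mod_cast this
  have hV : (Vz z)⁻¹ ≤ L := by
    rw [hLd]
    exact h3 N (by omega) z hz1n (by rw [← hLd]; exact hz2)
  have hvm : ∀ n ∈ Icc 1 N, |vm n| ≤ Real.log N := lam_bound le_rfl
  have hlz : ∀ n ∈ Icc 1 N, |lamz z n| ≤ Real.log N := fun n _ => by
    rw [← hLd]
    exact lamz_bound hV n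
  rw [hLd] at hz1 hz2
  have n1 : ((1 : ℤ)).natAbs = 1 := rfl
  have n2 : ((-1 : ℤ)).natAbs = 1 := rfl
  have k1 := h1 N (by omega) z hz1 hz2 X hX hXN 1 1 (-1) n1 n1 n2 vm vm hvm hvm
  have k2 := h1 N (by omega) z hz1 hz2 X hX hXN 1 1 (-1) n1 n1 n2 (lamz z) vm hlz hvm
  have k3 := h1 N (by omega) z hz1 hz2 X hX hXN (-1) 1 1 n2 n1 n1 (lamz z) (lamz z) hlz hlz
  obtain ⟨M, hM⟩ : ∃ M : ℝ, M = (X : ℝ) ^ 3 / Real.log N ^ A := ⟨_, rfl⟩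
  rw [← hM] at k1 k2 k3 ⊢
  have hmem : ∀ t : ℕ × ℕ × ℕ, t ∈ Icc 1 X ×ˢ Icc 1 X ×ˢ Icc 1 X → t.1 ∈ Icc 1 X ∧ t.2.1 ∈ Icc 1 X ∧ t.2.2 ∈ Icc 1 X := by
    intro t ht
    rw [mem_product, mem_product] at ht
    exact ht
  have hmk : ∀ a b c : ℕ, a ∈ Icc 1 X → b ∈ Icc 1 X → c ∈ Icc 1 X → ((a, b, c) : ℕ × ℕ × ℕ) ∈ Icc 1 X ×ˢ Icc 1 X ×ˢ Icc 1 X := by
    intro a b c ha hb hc
    rw [mem_product, mem_product]
    exact ⟨ha, hb, hc⟩
  have m1 : (((Icc 1 X ×ˢ Icc 1 X ×ˢ Icc 1 X).filter (fun t : ℕ × ℕ × ℕ => Bad1 T B N t.1 t.2.1 t.2.2)).card : ℝ) ≤ 3 * M := by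
    refine or3_cnt _ _ (fun t : ℕ × ℕ × ℕ => BadT N T (6 * T + 10) 1 1 (-1) (fz z) vm vm t.1 t.2.1 t.2.2)
      (fun t : ℕ × ℕ × ℕ => BadT N T (6 * T + 10) 1 1 (-1) (fz z) (lamz z) vm t.2.1 t.1 t.2.2)
      (fun t : ℕ × ℕ × ℕ => BadT N T (6 * T + 10) (-1) 1 1 (fz z) (lamz z) (lamz z) t.2.2 t.1 t.2.1) ?_ k1 ?_ ?_
    · intro t ht
      unfold Bad1 at ht
      rw [← hz] at ht
      exact ht
    · refine le_trans ?_ k2
      exact_mod_cast perm_cnt X (fun t => BadT N T (6 * T + 10) 1 1 (-1) (fz z) (lamz z) vm t.1 t.2.1 t.2.2)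
        (fun t => (t.2.1, t.1, t.2.2)) (by
          rintro ⟨a, b, c⟩ ⟨a', b', c'⟩ h
          simp only [Prod.mk.injEq] at h
          obtain ⟨h1, h2, h3⟩ := h
          rw [h1, h2, h3]) (fun t ht => hmk _ _ _ (hmem t ht).2.1 (hmem t ht).1 (hmem t ht).2.2)
    · refine le_trans ?_ k3
      exact_mod_cast perm_cnt X (fun t => BadT N T (6 * T + 10) (-1) 1 1 (fz z) (lamz z) (lamz z) t.1 t.2.1 t.2.2)
        (fun t => (t.2.2, t.1, t.2.1)) (by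
          rintro ⟨a, b, c⟩ ⟨a', b', c'⟩ h
          simp only [Prod.mk.injEq] at h
          obtain ⟨h1, h2, h3⟩ := h
          rw [h1, h2, h3]) (fun t ht => hmk _ _ _ (hmem t ht).2.2 (hmem t ht).1 (hmem t ht).2.1)
  have m2 : (((Icc 1 X ×ˢ Icc 1 X ×ˢ Icc 1 X).filter (fun t : ℕ × ℕ × ℕ => Bad1 T B N t.2.1 t.2.2 t.1)).card : ℝ) ≤ 3 * M := by
    refine le_trans ?_ m1
    exact_mod_cast perm_cnt X (fun t => Bad1 T B N t.1 t.2.1 t.2.2)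
      (fun t => (t.2.1, t.2.2, t.1)) (by
        rintro ⟨a, b, c⟩ ⟨a', b', c'⟩ h
        simp only [Prod.mk.injEq] at h
        obtain ⟨h1, h2, h3⟩ := h
        rw [h1, h2, h3]) (fun t ht => hmk _ _ _ (hmem t ht).2.1 (hmem t ht).2.2 (hmem t ht).1)
  have m3 : (((Icc 1 X ×ˢ Icc 1 X ×ˢ Icc 1 X).filter (fun t : ℕ × ℕ × ℕ => Bad1 T B N t.2.2 t.1 t.2.1)).card : ℝ) ≤ 3 * M := by
    refine le_trans ?_ m1
    exact_mod_cast perm_cnt X (fun t => Bad1 T B N t.1 t.2.1 t.2.2)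
      (fun t => (t.2.2, t.1, t.2.1)) (by
        rintro ⟨a, b, c⟩ ⟨a', b', c'⟩ h
        simp only [Prod.mk.injEq] at h
        obtain ⟨h1, h2, h3⟩ := h
        rw [h1, h2, h3]) (fun t ht => hmk _ _ _ (hmem t ht).2.2 (hmem t ht).1 (hmem t ht).2.1)
  refine ⟨?_, ?_⟩
  · have := or3_cnt (Icc 1 X ×ˢ Icc 1 X ×ˢ Icc 1 X) (fun t : ℕ × ℕ × ℕ => Bad3 T B N t.1 t.2.1 t.2.2) _ _ _
      (fun t ht => ht) m1 m2 m3
    linarith
  intro a1 ha1 a2 ha2 a3 ha3 g12 g23 g31 hbad d hd hadm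
  rw [mem_Icc] at ha1 ha2 ha3
  have hX0 : (0 : ℝ) < X := by exact_mod_cast hX
  have hX1 : (1 : ℝ) ≤ X := by exact_mod_cast hX
  have hpw : (N : ℝ) ^ (2 * σ) * (N : ℝ) ^ (1 - 2 * σ) = N := by
    rw [← Real.rpow_add hN0]
    have e : 2 * σ + (1 - 2 * σ) = 1 := by ring
    rw [e, Real.rpow_one]
  have hX4 : 4 * (X : ℝ) ^ 2 ≤ N := by
    calc 4 * (X : ℝ) ^ 2 ≤ (N : ℝ) ^ (2 * σ) * (N : ℝ) ^ (1 - 2 * σ) := mul_le_mul c5 hXN (by positivity) (by positivity)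
      _ = N := hpw
  have hX4n : 4 * X ≤ N := by
    have : (4 : ℝ) * X ≤ N := by nlinarith
    exact_mod_cast this
  have hv : ∀ a : ℕ, 1 ≤ a → a ≤ X → N < 2 * (a * (N / a)) := by
    intro a h1 h2
    have e1 := Nat.div_add_mod N a
    have e2 := Nat.mod_lt N (by omega : 0 < a)
    omega
  have hu : ∀ a : ℕ, a * (N / a) ≤ N := fun a => Nat.mul_div_le N a
  have hq : ∀ a b : ℕ, a ≤ X → b ≤ X → ((a * b : ℕ) : ℝ) ≤ (N : ℝ) ^ (1 - 2 * σ) := by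
    intro a b ha hb
    refine le_trans ?_ hXN
    rw [sq]
    exact_mod_cast Nat.mul_le_mul ha hb
  have n3 : (-(a3 : ℤ)).natAbs = a3 := by rw [Int.natAbs_neg, Int.natAbs_natCast]
  have hpar : Par6 σ N T (a1 : ℤ) (a2 : ℤ) (-(a3 : ℤ)) d (N / a1) (N / a2) (N / a3) := by
    refine ⟨by omega, by omega, by omega, ?_, ?_, ?_, ?_, ?_, ?_, hd, ?_, ?_, ?_, ?_, ?_, ?_⟩
    · rw [Int.natAbs_natCast]; exact hu a1
    · rw [Int.natAbs_natCast]; exact hu a2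
    · rw [n3]; exact hu a3
    · rw [Int.natAbs_natCast]; exact hv a1 ha1.1 ha1.2
    · rw [Int.natAbs_natCast]; exact hv a2 ha2.1 ha2.2
    · rw [n3]; exact hv a3 ha3.1 ha3.2
    · rw [Int.natAbs_natCast, Int.natAbs_natCast]; exact hq _ _ ha1.2 ha2.2
    · rw [Int.natAbs_natCast, n3]; exact hq _ _ ha1.2 ha3.2
    · rw [Int.natAbs_natCast, n3]; exact hq _ _ ha2.2 ha3.2
    · rw [Int.natAbs_natCast, Int.natAbs_natCast]; exact g12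
    · rw [Int.natAbs_natCast, n3, Nat.gcd_comm]; exact g31
    · rw [Int.natAbs_natCast, n3]; exact g23
  have herr : ErrS N T z a1 a2 a3 d := by
    unfold Bad1 BadT at hbad
    rw [← hz] at hbad
    push Not at hbad
    obtain ⟨w1, w2, w3⟩ := hbad
    have v1 := w1 g12 d
    have v2 := w2 (by rw [Nat.gcd_comm]; exact g12) d
    have v3 := w3 g31 d
    rw [one_mul, one_mul, neg_one_mul] at v1 v2
    rw [one_mul, one_mul, neg_one_mul] at v3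
    exact ⟨v1, v2, v3⟩
  exact h2 N (by omega) z hz1 hz2 hpar herr hadm

end Pool.Agent.K7.H74.BK
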