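import Pool.Agent.K7.H74.BK.EvD
import Pool.Agent.K7.H74.BK.Scl
import Pool.Agent.Y883.T6.Fin6

set_option autoImplicit false

/-! Linear equations in three primes with fixed coefficients: almost all right-hand sides. -/

namespace Pool.Agent.K7.H74.BK

open Finset
open Pool.Agent.H373R2.T7
open Pool.Agent.Y883.T3
open Pool.Agent.Y883.T4
open Pool.Agent.Y883.T5
open Pool.Agent.Y883.T6
open Pool.Agent.Y883 (tendsto_pow_log)

/-- the exponential sums of the difference -/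
theorem sup_one (U : ℕ) (σ : ℝ) (hσ : 0 < σ) : ∃ C₀ B₀ : ℕ, 0 < C₀ ∧ ∀ B : ℕ, B₀ ≤ B → ∃ N₀ : ℕ, ∀ N : ℕ, N₀ ≤ N →
    ∀ z : ℕ, Real.log N ^ B ≤ (z : ℝ) → (z : ℝ) ≤ Real.log N ^ (B + 1) →
    ∀ a : ℕ, 1 ≤ a → (a : ℝ) ≤ (N : ℝ) ^ (1 - 2 * σ) → ∀ α,
      Fh (fz z) (N / a) α ≤ (N : ℝ) / a * ((C₀ : ℝ) ^ U / Real.log N ^ U) := by
  obtain ⟨B₀, hB₀⟩ := sup_diff U
  obtain ⟨C₀, hC₀⟩ := exists_nat_ge (1 / σ)
  have hC0 : (0 : ℝ) < C₀ := lt_of_lt_of_le (by positivity) hC₀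
  have hCσ : 1 / (C₀ : ℝ) ≤ σ := by
    rw [div_le_iff₀ hC0]
    rw [div_le_iff₀ hσ] at hC₀
    linarith
  refine ⟨C₀, B₀, by exact_mod_cast hC0, fun B hB => ?_⟩
  obtain ⟨N₁, h1⟩ := hB₀ (2 * (B + 1))
  obtain ⟨N₃, h3⟩ := ev_L' (C₀ ^ 2 + 100)
  obtain ⟨N₅, h5⟩ := tendsto_pow_log (N₁ + 2 : ℝ) σ hσ
  refine ⟨N₃ + N₅ + 2, fun N hN z hz1 hz2 a ha haN α => ?_⟩
  have hL := h3 N (by omega)
  have c5 := h5 N (by omega)
  have hN1 : 1 ≤ N := by omega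
  have hN0 : (0 : ℝ) < N := by exact_mod_cast hN1
  have hN1r : (1 : ℝ) ≤ N := by exact_mod_cast hN1
  obtain ⟨L, hLd⟩ : ∃ L, L = Real.log (N : ℝ) := ⟨_, rfl⟩
  have hp2 : (0 : ℝ) < (C₀ : ℝ) ^ 2 := by positivity
  rw [← hLd] at hL hz1 hz2 ⊢
  have hL0 : 0 < L := by linarith
  have hL1 : 1 ≤ L := by linarith
  have hpw : (N : ℝ) ^ (2 * σ) * (N : ℝ) ^ (1 - 2 * σ) = N := by
    rw [← Real.rpow_add hN0]
    have e : 2 * σ + (1 - 2 * σ) = 1 := by ring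
    rw [e, Real.rpow_one]
  have ha0 : (0 : ℝ) < a := by exact_mod_cast ha
  have ha1 : (1 : ℝ) ≤ a := by exact_mod_cast ha
  obtain ⟨P, hP⟩ : ∃ P, P = N / a := ⟨_, rfl⟩
  have hNs0 : 0 < (N : ℝ) ^ σ := by positivity
  have e1 : (N : ℝ) ^ σ ≤ P := by
    have g1 := natdiv_ge N a ha
    rw [← hP] at g1
    have g2 : (N : ℝ) ^ (2 * σ) ≤ N / a := by
      rw [le_div_iff₀ ha0]
      calc (N : ℝ) ^ (2 * σ) * a ≤ (N : ℝ) ^ (2 * σ) * (N : ℝ) ^ (1 - 2 * σ) :=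
            mul_le_mul_of_nonneg_left haN (by positivity)
        _ = N := hpw
    have g3 : (N : ℝ) ^ (2 * σ) = (N : ℝ) ^ σ * (N : ℝ) ^ σ := by
      rw [← Real.rpow_add hN0]
      ring_nf
    have g4 : (0 : ℝ) ≤ N₁ := Nat.cast_nonneg _
    nlinarith
  have e2 : (1 : ℝ) ≤ (N : ℝ) ^ σ := Real.one_le_rpow hN1r hσ.le
  have hP0 : (0 : ℝ) < P := by linarith
  have hPN : P ≤ N := by rw [hP]; exact Nat.div_le_self _ _
  have e3 : Real.log P ≤ L := by rw [hLd]; exact Real.log_le_log hP0 (by exact_mod_cast hPN)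
  have e4 : L / C₀ ≤ Real.log P := by
    have g1 : Real.log ((N : ℝ) ^ σ) = σ * L := by rw [Real.log_rpow hN0, hLd]
    calc L / C₀ = (1 / C₀) * L := by ring
      _ ≤ σ * L := mul_le_mul_of_nonneg_right hCσ hL0.le
      _ = Real.log ((N : ℝ) ^ σ) := g1.symm
      _ ≤ Real.log P := Real.log_le_log hNs0 e1
  have e5 : 0 < L / C₀ := by positivity
  have e6 : 0 < Real.log P := by linarith
  have hN1P : N₁ ≤ P := by
    have : (N₁ : ℝ) ≤ P := by linarith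
    exact_mod_cast this
  have e7 := h1 P hN1P z (by
    refine le_trans ?_ hz1
    calc Real.log P ^ B₀ ≤ L ^ B₀ := pow_le_pow_left₀ e6.le e3 _
      _ ≤ L ^ B := pow_le_pow_right₀ hL1 hB) (by
    refine hz2.trans ?_
    rw [pow_mul]
    apply pow_le_pow_left₀ hL0.le
    calc L ≤ (L / C₀) ^ 2 := by
          rw [div_pow, le_div_iff₀ hp2, sq L]
          exact mul_le_mul_of_nonneg_left (by linarith) hL0.le
      _ ≤ Real.log P ^ 2 := pow_le_pow_left₀ e5.le e4 2) α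
  rw [← hP]
  unfold Fh fz
  refine e7.trans ?_
  rw [div_eq_mul_one_div]
  apply mul_le_mul _ _ (by positivity) (by positivity)
  · rw [hP]; exact Nat.cast_div_le
  · rw [div_le_div_iff₀ (by positivity) (by positivity), one_mul, ← mul_pow]
    apply pow_le_pow_left₀ hL0.le
    rw [div_le_iff₀ hC0] at e4
    linarith

open Classical in
/-- the right-hand sides without a solution -/
noncomputable def badD (N : ℕ) (u v w : ℕ) : Finset ℤ :=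
  (Icc (-(N : ℤ)) N).filter (fun d => 3 * |d| ≤ N ∧ Adm u v w d ∧
    ¬ ∃ x y z : ℕ, x.Prime ∧ y.Prime ∧ z.Prime ∧ (u : ℤ) * x + v * y = d + w * z ∧ x ≤ N / u ∧ y ≤ N / v ∧ z ≤ N / w)

theorem scale_all (T A : ℕ) (σ : ℝ) (hσ : 0 < σ) : ∃ N₀ : ℕ, ∀ N : ℕ, N₀ ≤ N → ∀ a1 a2 a3 : ℕ,
    1 ≤ a1 → 1 ≤ a2 → 1 ≤ a3 → ((a1 * a2 : ℕ) : ℝ) ≤ (N : ℝ) ^ (1 - 2 * σ) →
    ((a2 * a3 : ℕ) : ℝ) ≤ (N : ℝ) ^ (1 - 2 * σ) → ((a3 * a1 : ℕ) : ℝ) ≤ (N : ℝ) ^ (1 - 2 * σ) →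
    ((Nat.gcd a1 a2 : ℕ) : ℝ) ≤ Real.log N ^ T → ((Nat.gcd a2 a3 : ℕ) : ℝ) ≤ Real.log N ^ T →
    ((Nat.gcd a3 a1 : ℕ) : ℝ) ≤ Real.log N ^ T → ((badD N a1 a2 a3).card : ℝ) ≤ 3 * (N / Real.log N ^ A) := by
  classical
  obtain ⟨κ, hκ⟩ : ∃ κ, κ = 6 * T + 10 := ⟨_, rfl⟩
  obtain ⟨U, hU⟩ : ∃ U, U = 2 * κ + T + A + 5 := ⟨_, rfl⟩
  obtain ⟨C₀, B₀, hC₀, hB₀⟩ := sup_one U σ hσ
  obtain ⟨B, hBd⟩ : ∃ B, B = B₀ + 5 := ⟨_, rfl⟩
  obtain ⟨N₁, h1⟩ := hB₀ B (by omega)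
  obtain ⟨N₂, h2⟩ := solve_one T B σ hσ (by omega)
  obtain ⟨N₃, h3⟩ := Vz_inv_small (B + 1)
  obtain ⟨N₄, h4⟩ := ev_L' (3 * (C₀ ^ U) ^ 2 + 100)
  obtain ⟨N₅, h5⟩ := tendsto_pow_log 4 (2 * σ) (by positivity)
  refine ⟨N₁ + N₂ + N₃ + N₄ + N₅ + 2, fun N hN a1 a2 a3 p1 p2 p3 q12 q23 q31 g12 g23 g31 => ?_⟩
  have hL := h4 N (by omega)
  have c5 := h5 N (by omega)
  have hN1 : 1 ≤ N := by omega
  have hN0 : (0 : ℝ) < N := by exact_mod_cast hN1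
  have hN1r : (1 : ℝ) ≤ N := by exact_mod_cast hN1
  obtain ⟨z, hz⟩ : ∃ z, z = zN B N := ⟨_, rfl⟩
  obtain ⟨L, hLd⟩ : ∃ L, L = Real.log (N : ℝ) := ⟨_, rfl⟩
  have hC1 : (0 : ℝ) ≤ 3 * ((C₀ : ℝ) ^ U) ^ 2 := by positivity
  have hz1 : L ^ B ≤ (z : ℝ) := by
    rw [hz, hLd]
    exact Nat.le_ceil _
  rw [← hLd] at hL
  have hL' : 100 ≤ L := by linarith
  have hL0 : 0 < L := by linarith
  have hL1 : 1 ≤ L := by linarith
  have hz2 : (z : ℝ) ≤ L ^ (B + 1) := by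
    have e1 : (z : ℝ) < L ^ B + 1 := by
      rw [hz, hLd]
      exact Nat.ceil_lt_add_one (by rw [← hLd]; positivity)
    have e2 : 1 ≤ L ^ B := one_le_pow₀ (by linarith)
    calc (z : ℝ) ≤ L ^ B + 1 := e1.le
      _ ≤ 2 * L ^ B := by linarith
      _ ≤ L * L ^ B := mul_le_mul_of_nonneg_right (by linarith) (by positivity)
      _ = L ^ (B + 1) := by ring
  have hz1n : 1 ≤ z := by
    have : (1 : ℝ) ≤ z := le_trans (one_le_pow₀ (by linarith)) hz1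
    exact_mod_cast this
  have hV : (Vz z)⁻¹ ≤ L := by
    rw [hLd]
    exact h3 N (by omega) z hz1n (by rw [← hLd]; exact hz2)
  have hvm : ∀ n ∈ Icc 1 N, |vm n| ≤ L := lam_bound (by rw [hLd])
  have hlz : ∀ n ∈ Icc 1 N, |lamz z n| ≤ L := fun n _ => lamz_bound hV n
  rw [hLd] at hz1 hz2
  have hpw : (N : ℝ) ^ (2 * σ) * (N : ℝ) ^ (1 - 2 * σ) = N := by
    rw [← Real.rpow_add hN0]
    have e : 2 * σ + (1 - 2 * σ) = 1 := by ring
    rw [e, Real.rpow_one]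
  have hs1 : ∀ a b : ℕ, 1 ≤ b → ((a * b : ℕ) : ℝ) ≤ (N : ℝ) ^ (1 - 2 * σ) → (a : ℝ) ≤ (N : ℝ) ^ (1 - 2 * σ) := by
    intro a b hb h
    refine le_trans ?_ h
    exact_mod_cast Nat.le_mul_of_pos_right _ hb
  have b1 := hs1 a1 a2 p2 q12
  have b2 := hs1 a2 a3 p3 q23
  have b3 := hs1 a3 a1 p1 q31
  have hNN : ∀ a b : ℕ, ((a * b : ℕ) : ℝ) ≤ (N : ℝ) ^ (1 - 2 * σ) → a * b ≤ N := by
    intro a b h
    have : ((a * b : ℕ) : ℝ) ≤ N := by
      refine h.trans ?_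
      calc (N : ℝ) ^ (1 - 2 * σ) ≤ (N : ℝ) ^ (1 : ℝ) := Real.rpow_le_rpow_of_exponent_le hN1r (by linarith)
        _ = N := Real.rpow_one _
    exact_mod_cast this
  have hδ : 3 * (L ^ (2 * κ + T + A + 4) * ((C₀ : ℝ) ^ U / L ^ U) ^ 2) ≤ 1 := by
    have e1 : L ^ U * L ^ U = L ^ (2 * κ + T + A + 4) * (L ^ U * L) := by
      have : L ^ U = L ^ (2 * κ + T + A + 4) * L := by rw [hU, ← pow_succ]
      nth_rewrite 1 [this]
      ring
    have e2 : 1 ≤ L ^ U := one_le_pow₀ hL1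
    rw [div_pow, sq (L ^ U), e1, mul_div_assoc', mul_div_assoc', div_le_one (by positivity)]
    calc 3 * (L ^ (2 * κ + T + A + 4) * ((C₀ : ℝ) ^ U) ^ 2) = L ^ (2 * κ + T + A + 4) * (3 * ((C₀ : ℝ) ^ U) ^ 2) := by ring
      _ ≤ L ^ (2 * κ + T + A + 4) * (L ^ U * L) := by
          apply mul_le_mul_of_nonneg_left _ (by positivity)
          calc 3 * ((C₀ : ℝ) ^ U) ^ 2 ≤ 1 * L := by linarith
            _ ≤ L ^ U * L := mul_le_mul_of_nonneg_right e2 hL0.le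
  have s1 := h1 N (by omega) z hz1 hz2 a1 p1 b1
  have s2 := h1 N (by omega) z hz1 hz2 a2 p2 b2
  have s3 := h1 N (by omega) z hz1 hz2 a3 p3 b3
  rw [← hLd] at s1 s2 s3 g12 g23 g31
  have m1 : ((1 : ℤ)).natAbs = 1 := rfl
  have m2 : ((-1 : ℤ)).natAbs = 1 := rfl
  -- the exceptional right-hand sides
  obtain ⟨D, hD⟩ : ∃ D : Finset ℤ, D = Icc (-(N : ℤ)) N := ⟨_, rfl⟩
  obtain ⟨D1, hD1⟩ : ∃ D1 : Finset ℤ, D1 = D.filter (fun d => (N : ℝ) ^ 2 / (a1 * a2 * a3) / L ^ κ <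
      |S3 (1 * a1) (1 * a2) (-1 * a3) d (N / a1) (N / a2) (N / a3) (fz z) vm vm|) := ⟨_, rfl⟩
  obtain ⟨D2, hD2⟩ : ∃ D2 : Finset ℤ, D2 = D.filter (fun d => (N : ℝ) ^ 2 / (a2 * a1 * a3) / L ^ κ <
      |S3 (1 * a2) (1 * a1) (-1 * a3) d (N / a2) (N / a1) (N / a3) (fz z) (lamz z) vm|) := ⟨_, rfl⟩
  obtain ⟨D3, hD3⟩ : ∃ D3 : Finset ℤ, D3 = D.filter (fun d => (N : ℝ) ^ 2 / (a3 * a1 * a2) / L ^ κ <
      |S3 (-1 * a3) (1 * a1) (1 * a2) d (N / a3) (N / a1) (N / a2) (fz z) (lamz z) (lamz z)|) := ⟨_, rfl⟩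
  have k1 := few_d (κ := κ) (T := T) (A := A) hN1 hL1 p1 p2 p3 (hNN _ _ q23) g23 m1 m2 hvm hvm s1 hδ D1 (fun d hd => by
    rw [hD1, mem_filter] at hd
    exact hd.2)
  have k2 := few_d (κ := κ) (T := T) (A := A) hN1 hL1 p2 p1 p3 (by rw [mul_comm]; exact hNN _ _ q31)
    (by rw [Nat.gcd_comm]; exact g31) m1 m2 hlz hvm s2 hδ D2 (fun d hd => by
    rw [hD2, mem_filter] at hd
    exact hd.2)
  have k3 := few_d (κ := κ) (T := T) (A := A) hN1 hL1 p3 p1 p2 (hNN _ _ q12) g12 m1 m1 hlz hlz s3 hδ D3 (fun d hd => by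
    rw [hD3, mem_filter] at hd
    exact hd.2)
  have hsub : badD N a1 a2 a3 ⊆ D1 ∪ (D2 ∪ D3) := by
    intro d hd
    unfold badD at hd
    rw [mem_filter] at hd
    obtain ⟨hdD, hd3, hadm, hno⟩ := hd
    by_contra hcon
    rw [mem_union, mem_union, hD1, hD2, hD3, mem_filter, mem_filter, mem_filter] at hcon
    push Not at hcon
    rw [hD] at hcon
    obtain ⟨w1, w2, w3⟩ := hcon
    have v1 := w1 hdD
    have v2 := w2 hdD
    have v3 := w3 hdD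
    rw [one_mul, one_mul, neg_one_mul] at v1 v2
    rw [one_mul, one_mul, neg_one_mul] at v3
    have herr : ErrS N T z a1 a2 a3 d := by
      rw [hκ, hLd] at v1 v2 v3
      exact ⟨v1, v2, v3⟩
    apply hno
    have hv : ∀ a : ℕ, 1 ≤ a → 2 * a ≤ N → N < 2 * (a * (N / a)) := by
      intro a h1 h2
      have e1 := Nat.div_add_mod N a
      have e2 := Nat.mod_lt N (by omega : 0 < a)
      have e3 : 2 ≤ N / a := by rw [Nat.le_div_iff_mul_le (by omega)]; exact h2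
      nlinarith
    have h2a : ∀ a : ℕ, (a : ℝ) ≤ (N : ℝ) ^ (1 - 2 * σ) → 2 * a ≤ N := by
      intro a ha
      have : (2 : ℝ) * a ≤ N := by
        calc (2 : ℝ) * a ≤ (N : ℝ) ^ (2 * σ) * (N : ℝ) ^ (1 - 2 * σ) :=
              mul_le_mul (by linarith) ha (by positivity) (by positivity)
          _ = N := hpw
      exact_mod_cast this
    have hu : ∀ a : ℕ, a * (N / a) ≤ N := fun a => Nat.mul_div_le N a
    have n3 : (-(a3 : ℤ)).natAbs = a3 := by rw [Int.natAbs_neg, Int.natAbs_natCast]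
    rw [hLd] at g12 g23 g31
    have hpar : Par6 σ N T (a1 : ℤ) (a2 : ℤ) (-(a3 : ℤ)) d (N / a1) (N / a2) (N / a3) := by
      refine ⟨by omega, by omega, by omega, ?_, ?_, ?_, ?_, ?_, ?_, hd3, ?_, ?_, ?_, ?_, ?_, ?_⟩
      · rw [Int.natAbs_natCast]; exact hu a1
      · rw [Int.natAbs_natCast]; exact hu a2
      · rw [n3]; exact hu a3
      · rw [Int.natAbs_natCast]; exact hv a1 p1 (h2a _ b1)
      · rw [Int.natAbs_natCast]; exact hv a2 p2 (h2a _ b2)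
      · rw [n3]; exact hv a3 p3 (h2a _ b3)
      · rw [Int.natAbs_natCast, Int.natAbs_natCast]; exact q12
      · rw [Int.natAbs_natCast, n3, mul_comm]; exact q31
      · rw [Int.natAbs_natCast, n3]; exact q23
      · rw [Int.natAbs_natCast, Int.natAbs_natCast]; exact g12
      · rw [Int.natAbs_natCast, n3, Nat.gcd_comm]; exact g31
      · rw [Int.natAbs_natCast, n3]; exact g23
    exact h2 N (by omega) z hz1 hz2 hpar herr hadm
  have hc : (badD N a1 a2 a3).card ≤ D1.card + (D2.card + D3.card) :=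
    (card_le_card hsub).trans ((card_union_le _ _).trans (Nat.add_le_add_left (card_union_le _ _) _))
  have hcr : ((badD N a1 a2 a3).card : ℝ) ≤ D1.card + (D2.card + D3.card) := by exact_mod_cast hc
  rw [← hLd]
  linarith

/-- a solution in primes with terms up to `N` -/
def Rep (N : ℕ) (a b c d : ℤ) : Prop :=
  ∃ p q r : ℕ, p.Prime ∧ q.Prime ∧ r.Prime ∧ a * p + b * q + c * r = d ∧
    a.natAbs * p ≤ N ∧ b.natAbs * q ≤ N ∧ c.natAbs * r ≤ N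

lemma Rep.rot {N : ℕ} {a b c d : ℤ} (h : Rep N b c a d) : Rep N a b c d := by
  obtain ⟨p, q, r, h1, h2, h3, h4, h5, h6, h7⟩ := h
  exact ⟨r, p, q, h3, h1, h2, by linarith, h7, h5, h6⟩

open Classical in
/-- the admissible right-hand sides without a solution -/
noncomputable def badI (N : ℕ) (a b c : ℤ) : Finset ℤ :=
  (Icc (-(N : ℤ)) N).filter (fun d => 3 * |d| ≤ N ∧ Admissible a b c d ∧ ¬ Rep N a b c d)

lemma badI_rot (N : ℕ) (a b c : ℤ) : badI N a b c ⊆ badI N b c a := by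
  classical
  intro d hd
  unfold badI at hd ⊢
  rw [mem_filter] at hd ⊢
  exact ⟨hd.1, hd.2.1, adm_rot hd.2.2.1, fun h => hd.2.2.2 h.rot⟩

lemma le_div' {N a x : ℕ} (h : x ≤ N / a) : a * x ≤ N :=
  (Nat.mul_le_mul_left a h).trans (Nat.mul_div_le N a)

lemma bad_core {N : ℕ} {a b c : ℤ} (hs : (0 < a ∧ 0 < b ∧ c < 0) ∨ (a < 0 ∧ b < 0 ∧ 0 < c)) :
    (badI N a b c).card ≤ (badD N a.natAbs b.natAbs c.natAbs).card := by
  classical
  rcases hs with ⟨ha, hb, hc⟩ | ⟨ha, hb, hc⟩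
  · have ea : ((a.natAbs : ℕ) : ℤ) = a := Int.natAbs_of_nonneg ha.le
    have eb : ((b.natAbs : ℕ) : ℤ) = b := Int.natAbs_of_nonneg hb.le
    have ec : ((c.natAbs : ℕ) : ℤ) = -c := Int.ofNat_natAbs_of_nonpos hc.le
    apply card_le_card
    intro d hd
    unfold badI at hd
    unfold badD
    rw [mem_filter] at hd ⊢
    obtain ⟨h1, h2, h, h3⟩ := hd
    have heven : (2 : ℤ) ∣ a + b + c - d := h.even.two_dvd
    have hadm : Adm (a.natAbs : ℤ) (b.natAbs : ℤ) (c.natAbs : ℤ) d := by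
      rw [ea, eb, ec]
      refine ⟨fun p hp h1 => no_common h.gcd_abc p hp ⟨h1.1, h1.2.1, (dvd_neg).1 h1.2.2⟩,
        fun p hp h1 => no_common h.gcd_dab p hp h1,
        fun p hp h1 => no_common h.gcd_dac p hp ⟨h1.1, h1.2.1, (dvd_neg).1 h1.2.2⟩,
        fun p hp h1 => no_common h.gcd_dbc p hp ⟨h1.1, h1.2.1, (dvd_neg).1 h1.2.2⟩, ?_⟩
      rw [sub_neg_eq_add]
      exact heven
    refine ⟨h1, h2, hadm, ?_⟩
    rintro ⟨x, y, z, k1, k2, k3, k4, k5, k6, k7⟩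
    rw [ea, eb, ec] at k4
    exact h3 ⟨x, y, z, k1, k2, k3, by linarith, le_div' k5, le_div' k6, le_div' k7⟩
  · have ea : ((a.natAbs : ℕ) : ℤ) = -a := Int.ofNat_natAbs_of_nonpos ha.le
    have eb : ((b.natAbs : ℕ) : ℤ) = -b := Int.ofNat_natAbs_of_nonpos hb.le
    have ec : ((c.natAbs : ℕ) : ℤ) = c := Int.natAbs_of_nonneg hc.le
    apply card_le_card_of_injOn (fun d => -d)
    · intro d hd
      unfold badI at hd
      unfold badD
      rw [mem_coe, mem_filter] at hd ⊢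
      obtain ⟨h1, h2, h, h3⟩ := hd
      have heven : (2 : ℤ) ∣ a + b + c - d := h.even.two_dvd
      have hadm : Adm (a.natAbs : ℤ) (b.natAbs : ℤ) (c.natAbs : ℤ) (-d) := by
        rw [ea, eb, ec]
        refine ⟨fun p hp h1 => no_common h.gcd_abc p hp ⟨(dvd_neg).1 h1.1, (dvd_neg).1 h1.2.1, h1.2.2⟩,
          fun p hp h1 => no_common h.gcd_dab p hp ⟨(dvd_neg).1 h1.1, (dvd_neg).1 h1.2.1, (dvd_neg).1 h1.2.2⟩,
          fun p hp h1 => no_common h.gcd_dac p hp ⟨(dvd_neg).1 h1.1, (dvd_neg).1 h1.2.1, h1.2.2⟩,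
          fun p hp h1 => no_common h.gcd_dbc p hp ⟨(dvd_neg).1 h1.1, (dvd_neg).1 h1.2.1, h1.2.2⟩, ?_⟩
        have e : -a + -b - c - -d = -(a + b + c - d) := by ring
        rw [e]
        exact (dvd_neg).2 heven
      rw [mem_Icc] at h1 ⊢
      refine ⟨⟨by linarith, by linarith⟩, by rw [abs_neg]; exact h2, hadm, ?_⟩
      rintro ⟨x, y, z, k1, k2, k3, k4, k5, k6, k7⟩
      rw [ea, eb, ec] at k4
      exact h3 ⟨x, y, z, k1, k2, k3, by linarith, le_div' k5, le_div' k6, le_div' k7⟩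
    · intro d _ d' _ h
      exact neg_injective h

/-- all coefficients, almost all right-hand sides -/
theorem every_triple (T A : ℕ) (ε : ℝ) (hε : 0 < ε) : ∃ N₀ : ℕ, ∀ N : ℕ, N₀ ≤ N → ∀ a b c : ℤ,
    ((a * b).natAbs : ℝ) ≤ (N : ℝ) ^ (1 - ε) → ((b * c).natAbs : ℝ) ≤ (N : ℝ) ^ (1 - ε) →
    ((c * a).natAbs : ℝ) ≤ (N : ℝ) ^ (1 - ε) → (Int.gcd a b : ℝ) ≤ Real.log N ^ T →
    (Int.gcd b c : ℝ) ≤ Real.log N ^ T → (Int.gcd c a : ℝ) ≤ Real.log N ^ T →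
    ((badI N a b c).card : ℝ) ≤ N / Real.log N ^ A := by
  classical
  obtain ⟨N₁, h1⟩ := scale_all T (A + 1) (ε / 2) (by positivity)
  obtain ⟨N₂, h2⟩ := ev_L' 100
  refine ⟨N₁ + N₂ + 2, fun N hN a b c q12 q23 q31 g12 g23 g31 => ?_⟩
  have hL := h2 N (by omega)
  have hN0 : (0 : ℝ) < N := by exact_mod_cast (by omega : 0 < N)
  have hσ : 1 - 2 * (ε / 2) = 1 - ε := by ring
  have hfin : 3 * ((N : ℝ) / Real.log N ^ (A + 1)) ≤ N / Real.log N ^ A := by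
    have hL0 : 0 < Real.log (N : ℝ) := by linarith
    have e1 : (N : ℝ) / Real.log N ^ A = Real.log N * (N / Real.log N ^ (A + 1)) := by
      rw [pow_succ (Real.log (N : ℝ)) A]
      field_simp
    rw [e1]
    exact mul_le_mul_of_nonneg_right (by linarith) (by positivity)
  refine le_trans ?_ hfin
  by_cases hne : ∃ d, Admissible a b c d
  · obtain ⟨d, h⟩ := hne
    have ka := Int.natAbs_pos.2 h.a_ne
    have kb := Int.natAbs_pos.2 h.b_ne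
    have kc := Int.natAbs_pos.2 h.c_ne
    have r12 : ((a.natAbs * b.natAbs : ℕ) : ℝ) ≤ (N : ℝ) ^ (1 - 2 * (ε / 2)) := by
      rw [hσ, ← Int.natAbs_mul]; exact q12
    have r23 : ((b.natAbs * c.natAbs : ℕ) : ℝ) ≤ (N : ℝ) ^ (1 - 2 * (ε / 2)) := by
      rw [hσ, ← Int.natAbs_mul]; exact q23
    have r31 : ((c.natAbs * a.natAbs : ℕ) : ℝ) ≤ (N : ℝ) ^ (1 - 2 * (ε / 2)) := by
      rw [hσ, ← Int.natAbs_mul]; exact q31
    have h0 := h.not_pos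
    have h0' := h.not_neg
    have B1 := h1 N (by omega) a.natAbs b.natAbs c.natAbs ka kb kc r12 r23 r31 g12 g23 g31
    have B2 := h1 N (by omega) b.natAbs c.natAbs a.natAbs kb kc ka r23 r31 r12 g23 g31 g12
    have B3 := h1 N (by omega) c.natAbs a.natAbs b.natAbs kc ka kb r31 r12 r23 g31 g12 g23
    have R1 : (badI N a b c).card ≤ (badI N b c a).card := card_le_card (badI_rot N a b c)
    have R2 : (badI N b c a).card ≤ (badI N c a b).card := card_le_card (badI_rot N b c a)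
    have go : ∀ m n : ℕ, m ≤ n → (n : ℝ) ≤ 3 * ((N : ℝ) / Real.log N ^ (A + 1)) →
        (m : ℝ) ≤ 3 * ((N : ℝ) / Real.log N ^ (A + 1)) := fun m n h1 h2 => le_trans (by exact_mod_cast h1) h2
    rcases lt_or_gt_of_ne h.a_ne with ha | ha <;> rcases lt_or_gt_of_ne h.b_ne with hb | hb <;>
      rcases lt_or_gt_of_ne h.c_ne with hc | hc
    · exact absurd ⟨ha, hb, hc⟩ h0'
    · exact go _ _ (bad_core (Or.inr ⟨ha, hb, hc⟩)) B1
    · exact go _ _ ((R1.trans R2).trans (bad_core (Or.inr ⟨hc, ha, hb⟩))) B3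
    · exact go _ _ (R1.trans (bad_core (Or.inl ⟨hb, hc, ha⟩))) B2
    · exact go _ _ (R1.trans (bad_core (Or.inr ⟨hb, hc, ha⟩))) B2
    · exact go _ _ ((R1.trans R2).trans (bad_core (Or.inl ⟨hc, ha, hb⟩))) B3
    · exact go _ _ (bad_core (Or.inl ⟨ha, hb, hc⟩)) B1
    · exact absurd ⟨ha, hb, hc⟩ h0
  · have : badI N a b c = ∅ := by
      unfold badI
      rw [filter_eq_empty_iff]
      intro d _ hd
      exact hne ⟨d, hd.2.1⟩
    rw [this, card_empty, Nat.cast_zero]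
    have hL0 : 0 < Real.log (N : ℝ) := by linarith
    positivity

end Pool.Agent.K7.H74.BK
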