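import Pool.Agent.K7.H74.BK.EvP

set_option autoImplicit false

/-! Linear equations in three primes: balanced coefficients, and coefficients for which few right-hand sides
are represented. -/

namespace Pool.Agent.K7.H74.BK

open Finset
open Pool.Agent.Y883.T5
open Pool.Agent.Y883.T6
open Pool.Agent.H373R2.T7
open Pool.Agent.Y883.T3
open Pool.Agent.Y883.T4

open Classical in
/-- balanced coefficients -/
theorem balanced (ε : ℝ) (hε : 0 < ε) (T A : ℕ) : ∃ m₀ : ℕ, ∀ m : ℕ, m₀ ≤ m → ∀ a b c : ℤ,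
    (m : ℝ) ^ (1 - ε) ≤ |(a : ℝ)| → |(a : ℝ)| ≤ m → (m : ℝ) ^ (1 - ε) ≤ |(b : ℝ)| → |(b : ℝ)| ≤ m →
    (m : ℝ) ^ (1 - ε) ≤ |(c : ℝ)| → |(c : ℝ)| ≤ m → (Int.gcd a b : ℝ) ≤ Real.log m ^ T →
    (Int.gcd b c : ℝ) ≤ Real.log m ^ T → (Int.gcd c a : ℝ) ≤ Real.log m ^ T → ∀ D : Finset ℤ,
    (∀ d ∈ D, 3 * |(d : ℝ)| ≤ (m : ℝ) ^ (2 + ε) ∧ Admissible a b c d ∧ ¬ ∃ p q r : ℕ, p.Prime ∧ q.Prime ∧ r.Prime ∧
      a * p + b * q + c * r = d ∧ (p : ℝ) ≤ (m : ℝ) ^ (1 + 3 * ε) ∧ (q : ℝ) ≤ (m : ℝ) ^ (1 + 3 * ε) ∧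
      (r : ℝ) ≤ (m : ℝ) ^ (1 + 3 * ε)) →
    (D.card : ℝ) ≤ (m : ℝ) ^ (2 + ε) / Real.log m ^ A := by
  obtain ⟨N₁, h1⟩ := every_triple T (A + 1) (ε / (2 + ε)) (by positivity)
  obtain ⟨N₂, h2⟩ := ev_L' 100
  obtain ⟨N₃, h3⟩ := ev_log_rpow 0 2 ε hε
  refine ⟨N₁ + N₂ + N₃ + 2, fun m hm a b c la ua lb ub lc uc g12 g23 g31 D hD => ?_⟩
  have hL := h2 m (by omega)
  have c3 := h3 m (by omega)
  rw [pow_zero, mul_one] at c3
  have hm1 : 1 ≤ m := by omega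
  have hm0 : (0 : ℝ) < m := by exact_mod_cast hm1
  have hm1r : (1 : ℝ) ≤ m := by exact_mod_cast hm1
  obtain ⟨N, hN⟩ : ∃ N, N = ⌈(m : ℝ) ^ (2 + ε)⌉₊ := ⟨_, rfl⟩
  have hlo : (m : ℝ) ^ (2 + ε) ≤ N := by rw [hN]; exact Nat.le_ceil _
  have hmN0 : (m : ℝ) ≤ (m : ℝ) ^ (2 + ε) := by
    nth_rewrite 1 [← Real.rpow_one (m : ℝ)]
    exact Real.rpow_le_rpow_of_exponent_le hm1r (by linarith)
  have hhi : (N : ℝ) ≤ 2 * (m : ℝ) ^ (2 + ε) := by
    have e1 : (N : ℝ) < (m : ℝ) ^ (2 + ε) + 1 := by rw [hN]; exact Nat.ceil_lt_add_one (by positivity)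
    linarith
  have hmN : m ≤ N := by exact_mod_cast hmN0.trans hlo
  have hN0 : (0 : ℝ) < N := by linarith
  have hlog : Real.log m ≤ Real.log N := Real.log_le_log hm0 (by exact_mod_cast hmN)
  have hL0 : 0 < Real.log (m : ℝ) := by linarith
  have hlogT : Real.log m ^ T ≤ Real.log N ^ T := pow_le_pow_left₀ hL0.le hlog _
  have hsq : (m : ℝ) * m ≤ (N : ℝ) ^ (1 - ε / (2 + ε)) := by
    have e1 : ((m : ℝ) ^ (2 + ε)) ^ (1 - ε / (2 + ε)) = (m : ℝ) * m := by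
      rw [← Real.rpow_mul hm0.le]
      have : (2 + ε) * (1 - ε / (2 + ε)) = 2 := by field_simp; ring
      rw [this, Real.rpow_two, sq]
    rw [← e1]
    apply Real.rpow_le_rpow (by positivity) hlo
    have : ε / (2 + ε) ≤ 1 := by rw [div_le_one (by positivity)]; linarith
    linarith
  have habs : ∀ u v : ℤ, |(u : ℝ)| ≤ m → |(v : ℝ)| ≤ m → ((u * v).natAbs : ℝ) ≤ (N : ℝ) ^ (1 - ε / (2 + ε)) := by
    intro u v hu hv
    refine le_trans ?_ hsq
    rw [Nat.cast_natAbs, Int.cast_abs, Int.cast_mul, abs_mul]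
    exact mul_le_mul hu hv (abs_nonneg _) hm0.le
  have k := h1 N (by omega) a b c (habs a b ua ub) (habs b c ub uc) (habs c a uc ua) (g12.trans hlogT) (g23.trans hlogT)
    (g31.trans hlogT)
  have hpart : ∀ (u : ℤ) (p : ℕ), (m : ℝ) ^ (1 - ε) ≤ |(u : ℝ)| → u.natAbs * p ≤ N → (p : ℝ) ≤ (m : ℝ) ^ (1 + 3 * ε) := by
    intro u p hu hp
    have e1 : |(u : ℝ)| * p ≤ 2 * (m : ℝ) ^ (2 + ε) := by
      refine le_trans ?_ hhi
      rw [← Int.cast_abs, ← Nat.cast_natAbs]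
      exact_mod_cast hp
    have e2 : (m : ℝ) ^ (1 - ε) * p ≤ (m : ℝ) ^ ε * (m : ℝ) ^ (2 + ε) :=
      ((mul_le_mul_of_nonneg_right hu (Nat.cast_nonneg p)).trans e1).trans (mul_le_mul_of_nonneg_right c3 (by positivity))
    have e3 : (m : ℝ) ^ ε * (m : ℝ) ^ (2 + ε) = (m : ℝ) ^ (1 - ε) * (m : ℝ) ^ (1 + 3 * ε) := by
      rw [← Real.rpow_add hm0, ← Real.rpow_add hm0]
      congr 1
      ring
    rw [e3] at e2
    exact le_of_mul_le_mul_left e2 (by positivity)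
  have hsub : D ⊆ badI N a b c := by
    intro d hd
    obtain ⟨h3, hadm, hno⟩ := hD d hd
    unfold badI
    rw [mem_filter, mem_Icc]
    have e1 : 3 * |(d : ℝ)| ≤ N := h3.trans hlo
    have e2 : 3 * |d| ≤ (N : ℤ) := by
      have : ((3 * |d| : ℤ) : ℝ) ≤ ((N : ℤ) : ℝ) := by
        push_cast
        exact e1
      exact_mod_cast this
    refine ⟨⟨?_, ?_⟩, e2, hadm, ?_⟩
    · have := neg_abs_le d
      have := abs_nonneg d
      linarith
    · have := le_abs_self d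
      have := abs_nonneg d
      linarith
    · rintro ⟨p, q, r, k1, k2, k3, k4, k5, k6, k7⟩
      exact hno ⟨p, q, r, k1, k2, k3, k4, hpart a p la k5, hpart b q lb k6, hpart c r lc k7⟩
  have hc : (D.card : ℝ) ≤ (badI N a b c).card := by exact_mod_cast card_le_card hsub
  refine hc.trans (k.trans ?_)
  have hLN0 : 0 < Real.log (N : ℝ) := by linarith
  calc (N : ℝ) / Real.log N ^ (A + 1) ≤ (2 * (m : ℝ) ^ (2 + ε)) / Real.log m ^ (A + 1) := by
        apply div_le_div₀ (by positivity) hhi (by positivity)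
        exact pow_le_pow_left₀ hL0.le hlog _
    _ ≤ (Real.log m * (m : ℝ) ^ (2 + ε)) / Real.log m ^ (A + 1) := by
        apply div_le_div_of_nonneg_right _ (by positivity)
        apply mul_le_mul_of_nonneg_right (by linarith) (by positivity)
    _ = (m : ℝ) ^ (2 + ε) / Real.log m ^ A := by
        rw [pow_succ (Real.log (m : ℝ)) A]
        field_simp

/-- all even right-hand sides are admissible -/
theorem adm_consec {m : ℕ} (hm : Odd m) {d : ℤ} (hd : Even d) : Admissible (m : ℤ) (m + 1) (-(m + 2)) d := by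
  have hm0 : 0 < m := hm.pos
  have g1 : Int.gcd (m : ℤ) (m + 1) = 1 := by
    rw [← Int.isCoprime_iff_gcd_eq_one]
    exact ⟨-1, 1, by ring⟩
  have g2 : Int.gcd ((m : ℤ) + 1) (-(m + 2)) = 1 := by
    rw [← Int.isCoprime_iff_gcd_eq_one]
    exact ⟨-1, -1, by ring⟩
  have g3 : Int.gcd (m : ℤ) (-(m + 2)) = 1 := by
    rw [← Int.isCoprime_iff_gcd_eq_one]
    obtain ⟨k, hk⟩ := hm
    refine ⟨(k : ℤ) + 1, k, ?_⟩
    rw [hk]
    push_cast
    ring
  have hle : ∀ x y z : ℤ, Int.gcd y z = 1 → Int.gcd (Int.gcd x y) z = 1 := by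
    intro x y z h
    have e1 : Int.gcd (Int.gcd x y) z ∣ Int.gcd y z := by
      apply Int.dvd_gcd
      · exact (Int.gcd_dvd_left _ _).trans (Int.gcd_dvd_right _ _)
      · exact Int.gcd_dvd_right _ _
    rw [h] at e1
    exact Nat.dvd_one.1 e1
  refine ⟨by omega, by omega, by omega, by omega, by omega, ?_, hle _ _ _ g2, hle _ _ _ g1, hle _ _ _ g3, hle _ _ _ g2⟩
  obtain ⟨k, hk⟩ := hm
  obtain ⟨j, hj⟩ := hd
  refine ⟨(k : ℤ) - j, ?_⟩
  rw [hk, hj]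
  push_cast
  ring

/-- few right-hand sides are represented -/
theorem few_consec {m N : ℕ} (hm : 1 ≤ m) (hN : m ≤ N) (D : Finset ℤ) (hD : ∀ d ∈ D, Rep N m (m + 1) (-(m + 2)) d) :
    (D.card : ℝ) ≤ 16 * (N : ℝ) ^ 2 / (m : ℝ) ^ 2 := by
  classical
  obtain ⟨P, hP⟩ : ∃ P, P = N / m := ⟨_, rfl⟩
  have hP1 : 1 ≤ P := by
    rw [hP, Nat.le_div_iff_mul_le (by omega)]
    omega
  have hsub : D ⊆ (Icc (-(P : ℤ)) (2 * P) ×ˢ Icc (-(2 * P : ℤ)) P).image (fun s : ℤ × ℤ => (m : ℤ) * s.1 + s.2) := by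
    intro d hd
    obtain ⟨p, q, r, -, -, -, k4, k5, k6, k7⟩ := hD d hd
    rw [Int.natAbs_natCast] at k5
    have n2 : ((m : ℤ) + 1).natAbs = m + 1 := by
      have : ((m : ℤ) + 1) = ((m + 1 : ℕ) : ℤ) := by push_cast; ring
      rw [this, Int.natAbs_natCast]
    have n3 : (-((m : ℤ) + 2)).natAbs = m + 2 := by
      rw [Int.natAbs_neg]
      have : ((m : ℤ) + 2) = ((m + 2 : ℕ) : ℤ) := by push_cast; ring
      rw [this, Int.natAbs_natCast]
    rw [n2] at k6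
    rw [n3] at k7
    have hp : p ≤ P := by
      rw [hP, Nat.le_div_iff_mul_le (by omega), mul_comm]
      exact k5
    have hq : q ≤ P := by
      rw [hP, Nat.le_div_iff_mul_le (by omega), mul_comm]
      exact (Nat.mul_le_mul_right q (Nat.le_succ m)).trans k6
    have hr : r ≤ P := by
      rw [hP, Nat.le_div_iff_mul_le (by omega), mul_comm]
      exact (Nat.mul_le_mul_right r (by omega)).trans k7
    rw [mem_image]
    refine ⟨((p : ℤ) + q - r, (q : ℤ) - 2 * r), ?_, ?_⟩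
    · rw [mem_product, mem_Icc, mem_Icc]
      simp only
      omega
    · simp only
      rw [← k4]
      ring
  have h1 := (card_le_card hsub).trans card_image_le
  rw [card_product, Int.card_Icc, Int.card_Icc] at h1
  have e1 : ((2 * (P : ℤ) + 1 - -(P : ℤ)).toNat) = 3 * P + 1 := by omega
  have e2 : (((P : ℤ) + 1 - -(2 * (P : ℤ))).toNat) = 3 * P + 1 := by omega
  rw [e1, e2] at h1
  have h2 : (D.card : ℝ) ≤ (3 * P + 1) * (3 * P + 1) := by exact_mod_cast h1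
  have hPr : (P : ℝ) ≤ N / m := by rw [hP]; exact Nat.cast_div_le
  have hP1r : (1 : ℝ) ≤ P := by exact_mod_cast hP1
  have hm0 : (0 : ℝ) < m := by exact_mod_cast hm
  calc (D.card : ℝ) ≤ (3 * P + 1) * (3 * P + 1) := h2
    _ ≤ (4 * P) * (4 * P) := by nlinarith
    _ ≤ (4 * (N / m)) * (4 * (N / m)) := by gcongr
    _ = _ := by field_simp; ring

end Pool.Agent.K7.H74.BK
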