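import Pool.Agent.Y883.T6.Circ

set_option autoImplicit false

/-! The correlations of a function with small exponential sums are small in mean square. -/

namespace Pool.Agent.K7.H74.BK

open Finset
open Pool.Agent.Y883.T6

/-- the correlation of `u` on `[1, P]` with the shift `k` -/
noncomputable def cor (u : ℕ → ℝ) (P : ℕ) (k : ℤ) : ℝ :=
  ∑ x ∈ Icc 1 P, ∑ x' ∈ Icc 1 P, if (x : ℤ) - x' = k then u x * u x' else 0

lemma pars (M : ℕ) [NeZero M] (K : Finset ℤ) (hK : ∀ k ∈ K, ∀ k' ∈ K, |k - k'| < M) (c : ℤ → ℝ) :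
    ∑ t : ZMod M, ‖∑ k ∈ K, ((c k : ℝ) : ℂ) * ZMod.stdAddChar (t * (k : ZMod M))‖ ^ 2 = M * ∑ k ∈ K, c k ^ 2 := by
  have hid : ((∑ t : ZMod M, ‖∑ k ∈ K, ((c k : ℝ) : ℂ) * ZMod.stdAddChar (t * (k : ZMod M))‖ ^ 2 : ℝ) : ℂ) =
      ((M * ∑ k ∈ K, c k ^ 2 : ℝ) : ℂ) := by
    have e1 : ∀ t : ZMod M, ((‖∑ k ∈ K, ((c k : ℝ) : ℂ) * ZMod.stdAddChar (t * (k : ZMod M))‖ ^ 2 : ℝ) : ℂ) =
        ∑ k ∈ K, ∑ k' ∈ K, ((c k * c k' : ℝ) : ℂ) * ZMod.stdAddChar (t * ((k - k' : ℤ) : ZMod M)) := by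
      intro t
      have e2 : ((‖∑ k ∈ K, ((c k : ℝ) : ℂ) * ZMod.stdAddChar (t * (k : ZMod M))‖ ^ 2 : ℝ) : ℂ) =
          (∑ k ∈ K, ((c k : ℝ) : ℂ) * ZMod.stdAddChar (t * (k : ZMod M))) *
          (starRingEnd ℂ) (∑ k ∈ K, ((c k : ℝ) : ℂ) * ZMod.stdAddChar (t * (k : ZMod M))) := by
        rw [Complex.mul_conj']
        push_cast
        rfl
      rw [e2, map_sum, sum_mul_sum]
      apply sum_congr rfl
      intro n _
      apply sum_congr rfl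
      intro n' _
      rw [RingHom.map_mul (starRingEnd ℂ), Complex.conj_ofReal]
      have e3 : (starRingEnd ℂ) (ZMod.stdAddChar (t * (n' : ZMod M))) =
          ZMod.stdAddChar (-(t * (n' : ZMod M))) := by
        rw [AddChar.map_neg_eq_conj]
      rw [e3]
      have e4 : t * ((n - n' : ℤ) : ZMod M) = t * (n : ZMod M) + -(t * (n' : ZMod M)) := by
        push_cast
        ring
      rw [e4, AddChar.map_add_eq_mul]
      push_cast
      ring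
    rw [Complex.ofReal_sum, Fintype.sum_congr _ _ e1, sum_comm, Complex.ofReal_mul, Complex.ofReal_sum, mul_sum]
    apply sum_congr rfl
    intro n hn
    rw [sum_comm, sum_eq_single n]
    · rw [← mul_sum, orth_std M _ (by rw [sub_self, abs_zero]; exact_mod_cast Nat.pos_of_ne_zero (NeZero.ne M)),
        if_pos (sub_self _)]
      push_cast
      ring
    · intro n' hn' hne
      rw [← mul_sum, orth_std _ _ (hK n hn n' hn'), if_neg, mul_zero]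
      intro h0
      exact hne (sub_eq_zero.1 h0).symm
    · intro h'
      exact absurd hn h'
  exact_mod_cast hid

lemma GG_sq (M : ℕ) [NeZero M] (u : ℕ → ℝ) (P : ℕ) (t : ZMod M) :
    ((‖GG M u P 1 t‖ ^ 2 : ℝ) : ℂ) =
      ∑ k ∈ Icc (-(P : ℤ)) P, ((cor u P k : ℝ) : ℂ) * ZMod.stdAddChar (t * (k : ZMod M)) := by
  have e2 : ((‖GG M u P 1 t‖ ^ 2 : ℝ) : ℂ) = GG M u P 1 t * (starRingEnd ℂ) (GG M u P 1 t) := by
    rw [Complex.mul_conj']
    push_cast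
    rfl
  have e5 : ∀ k ∈ Icc (-(P : ℤ)) P, ((cor u P k : ℝ) : ℂ) * ZMod.stdAddChar (t * (k : ZMod M)) =
      ∑ x ∈ Icc 1 P, ∑ x' ∈ Icc 1 P, if (x : ℤ) - x' = k then
        ((u x * u x' : ℝ) : ℂ) * ZMod.stdAddChar (t * (k : ZMod M)) else 0 := by
    intro k _
    unfold cor
    rw [Complex.ofReal_sum, sum_mul]
    apply sum_congr rfl
    intro x _
    rw [Complex.ofReal_sum, sum_mul]
    apply sum_congr rfl
    intro x' _
    split_ifs
    · rfl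
    · simp
  rw [e2, sum_congr rfl e5, sum_comm]
  unfold GG
  rw [map_sum, sum_mul_sum]
  apply sum_congr rfl
  intro x hx
  rw [sum_comm]
  apply sum_congr rfl
  intro x' hx'
  rw [mem_Icc] at hx hx'
  rw [sum_ite_eq, if_pos (by rw [mem_Icc]; omega)]
  rw [RingHom.map_mul (starRingEnd ℂ), Complex.conj_ofReal]
  have e3 : (starRingEnd ℂ) (ZMod.stdAddChar (t * ((((x' : ℕ) : ℤ) * 1 : ℤ) : ZMod M))) =
      ZMod.stdAddChar (-(t * ((((x' : ℕ) : ℤ) * 1 : ℤ) : ZMod M))) := by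
    rw [AddChar.map_neg_eq_conj]
  rw [e3]
  have e4 : t * (((x : ℤ) - x' : ℤ) : ZMod M) = t * ((((x : ℕ) : ℤ) * 1 : ℤ) : ZMod M) +
      -(t * ((((x' : ℕ) : ℤ) * 1 : ℤ) : ZMod M)) := by
    push_cast
    ring
  rw [e4, AddChar.map_add_eq_mul]
  push_cast
  ring

/-- the mean square of the correlations -/
theorem fourth (u : ℕ → ℝ) (P : ℕ) (S : ℝ) (hS : ∀ α, Fh u P α ≤ S) :
    ∑ k ∈ Icc (-(P : ℤ)) P, cor u P k ^ 2 ≤ S ^ 2 * ∑ n ∈ Icc 1 P, u n ^ 2 := by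
  obtain ⟨M, hM⟩ : ∃ M : ℕ, M = 4 * P + 1 := ⟨_, rfl⟩
  have : NeZero M := ⟨by omega⟩
  have hM0 : (0 : ℝ) < M := by exact_mod_cast (by omega : 0 < M)
  have h1 := pars M (Icc (-(P : ℤ)) P) (by
    intro k hk k' hk'
    rw [mem_Icc] at hk hk'
    rw [abs_lt]
    omega) (cor u P)
  have h2 := parseval_GG M u P 1 one_ne_zero (by rw [Int.natAbs_one, one_mul]; omega)
  have h3 : ∑ t : ZMod M, ‖∑ k ∈ Icc (-(P : ℤ)) P, ((cor u P k : ℝ) : ℂ) * ZMod.stdAddChar (t * (k : ZMod M))‖ ^ 2 ≤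
      S ^ 2 * ∑ t : ZMod M, ‖GG M u P 1 t‖ ^ 2 := by
    rw [mul_sum]
    apply sum_le_sum
    intro t _
    rw [← GG_sq, Complex.norm_real, Real.norm_eq_abs, abs_of_nonneg (by positivity), sq (‖GG M u P 1 t‖ ^ 2)]
    apply mul_le_mul_of_nonneg_right _ (by positivity)
    apply pow_le_pow_left₀ (norm_nonneg _)
    rw [GG_norm]
    exact hS _
  rw [h1, h2] at h3
  have h4 : (M : ℝ) * ∑ k ∈ Icc (-(P : ℤ)) P, cor u P k ^ 2 ≤ M * (S ^ 2 * ∑ n ∈ Icc 1 P, u n ^ 2) := by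
    linarith
  exact le_of_mul_le_mul_left h4 hM0

end Pool.Agent.K7.H74.BK
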