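import Pool.Agent.K7.H74.BK.Ener
import Pool.Agent.Y883.T6.Triv

set_option autoImplicit false

/-! Progressions with different differences have few common members: a function with a small mean square
has large sums over progressions `d - c z` for few differences `c` only. -/

namespace Pool.Agent.K7.H74.BK

open Finset
open Pool.Agent.Y883.T6

lemma inv_mult (X g : ℕ) (hg : 1 ≤ g) :
    ∑ c ∈ (Icc 1 X).filter (fun c => g ∣ c), 1 / (c : ℝ) ≤ 1 / g * (1 + Real.log X) := by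
  have h1 : (Icc 1 X).filter (fun c => g ∣ c) ⊆ (Icc 1 (X / g)).image (fun m => g * m) := by
    intro c hc
    rw [mem_filter, mem_Icc] at hc
    obtain ⟨⟨h1, h2⟩, m, rfl⟩ := hc
    rw [mem_image]
    refine ⟨m, ?_, rfl⟩
    rw [mem_Icc, Nat.le_div_iff_mul_le (by omega), mul_comm m g]
    exact ⟨Nat.pos_of_ne_zero (by rintro rfl; simp at h1), h2⟩
  refine (sum_le_sum_of_subset_of_nonneg h1 (fun _ _ _ => by positivity)).trans ?_
  rw [sum_image (by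
    intro x _ y _ h
    exact Nat.eq_of_mul_eq_mul_left hg h)]
  have h2 : ∀ m ∈ Icc 1 (X / g), 1 / ((g * m : ℕ) : ℝ) = 1 / g * (1 / (m : ℝ)) := by
    intro m _
    push_cast
    rw [one_div_mul_one_div]
  rw [sum_congr rfl h2, ← mul_sum]
  apply mul_le_mul_of_nonneg_left _ (by positivity)
  exact Pool.Agent.W93.LV.harm_le _ _ (Nat.div_le_self _ _)

lemma gcd_sum (X : ℕ) :
    ∑ c ∈ Icc 1 X, ∑ c' ∈ Icc 1 X, ((Nat.gcd c c' : ℕ) : ℝ) / (c * c') ≤ (1 + Real.log X) ^ 3 := by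
  have h1 : ∀ c ∈ Icc 1 X, ∀ c' ∈ Icc 1 X, ((Nat.gcd c c' : ℕ) : ℝ) / (c * c') ≤
      ∑ g ∈ Icc 1 X, (g : ℝ) * ((if g ∣ c then 1 / (c : ℝ) else 0) * (if g ∣ c' then 1 / (c' : ℝ) else 0)) := by
    intro c hc c' hc'
    rw [mem_Icc] at hc hc'
    have hg : 1 ≤ Nat.gcd c c' := Nat.gcd_pos_of_pos_left _ (by omega)
    have hg2 : Nat.gcd c c' ≤ X := (Nat.gcd_le_left _ (by omega)).trans hc.2
    have h2 := single_le_sum (f := fun g : ℕ => (g : ℝ) * ((if g ∣ c then 1 / (c : ℝ) else 0) *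
      (if g ∣ c' then 1 / (c' : ℝ) else 0))) (s := Icc 1 X) (fun g _ => by
        apply mul_nonneg (Nat.cast_nonneg _)
        apply mul_nonneg <;> split_ifs <;> positivity) (mem_Icc.2 ⟨hg, hg2⟩)
    simp only [Nat.gcd_dvd_left, Nat.gcd_dvd_right, if_true] at h2
    refine le_trans (le_of_eq ?_) h2
    rw [one_div_mul_one_div, mul_one_div]
  have h2 : ∑ c ∈ Icc 1 X, ∑ c' ∈ Icc 1 X, ((Nat.gcd c c' : ℕ) : ℝ) / (c * c') ≤
      ∑ g ∈ Icc 1 X, (g : ℝ) * ((∑ c ∈ (Icc 1 X).filter (fun c => g ∣ c), 1 / (c : ℝ)) *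
        (∑ c ∈ (Icc 1 X).filter (fun c => g ∣ c), 1 / (c : ℝ))) := by
    refine (sum_le_sum fun c hc => sum_le_sum (h1 c hc)).trans (le_of_eq ?_)
    have e1 : ∀ c ∈ Icc 1 X, ∑ c' ∈ Icc 1 X, ∑ g ∈ Icc 1 X,
        (g : ℝ) * ((if g ∣ c then 1 / (c : ℝ) else 0) * (if g ∣ c' then 1 / (c' : ℝ) else 0)) =
        ∑ g ∈ Icc 1 X, ∑ c' ∈ Icc 1 X,
          (g : ℝ) * ((if g ∣ c then 1 / (c : ℝ) else 0) * (if g ∣ c' then 1 / (c' : ℝ) else 0)) :=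
      fun c _ => sum_comm
    rw [sum_congr rfl e1, sum_comm]
    apply sum_congr rfl
    intro g _
    rw [sum_filter, sum_mul_sum, mul_sum]
    apply sum_congr rfl
    intro c _
    rw [mul_sum]
  refine h2.trans ?_
  have h3 : ∀ g ∈ Icc 1 X, (g : ℝ) * ((∑ c ∈ (Icc 1 X).filter (fun c => g ∣ c), 1 / (c : ℝ)) *
        (∑ c ∈ (Icc 1 X).filter (fun c => g ∣ c), 1 / (c : ℝ))) ≤ 1 / g * (1 + Real.log X) ^ 2 := by
    intro g hg
    rw [mem_Icc] at hg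
    have hg0 : (0 : ℝ) < g := by exact_mod_cast hg.1
    have h4 := inv_mult X g hg.1
    have h5 : 0 ≤ ∑ c ∈ (Icc 1 X).filter (fun c => g ∣ c), 1 / (c : ℝ) := sum_nonneg fun _ _ => by positivity
    have h6 := Pool.Agent.W93.LV.log1_nonneg X
    calc _ ≤ (g : ℝ) * ((1 / g * (1 + Real.log X)) * (1 / g * (1 + Real.log X))) := by gcongr
      _ = _ := by field_simp
  refine (sum_le_sum h3).trans ?_
  rw [← sum_mul]
  have h6 := Pool.Agent.W93.LV.log1_nonneg X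
  calc _ ≤ (1 + Real.log X) * (1 + Real.log X) ^ 2 :=
        mul_le_mul_of_nonneg_right (Pool.Agent.W93.LV.harm X) (by positivity)
    _ = _ := by ring

/-- **Few differences.** -/
theorem incidence {X N : ℕ} (C : Finset ℕ) (hC : ∀ c ∈ C, 1 ≤ c ∧ c ≤ X) (c3 : ℕ → ℤ)
    (hc3 : ∀ c ∈ C, (c3 c).natAbs = c) (P3 : ℕ → ℕ) (hP3 : ∀ c ∈ C, c * P3 c ≤ N) (w : ℕ → ℝ) {V : ℝ} (hV : 0 ≤ V)
    (hw : ∀ c ∈ C, ∀ n ∈ Icc 1 (P3 c), |w n| ≤ V) (G : ℤ → ℝ) (I : Finset ℤ) (hG : ∀ n, n ∉ I → G n = 0)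
    (d : ℕ → ℤ) {K : ℝ} (hK : 0 ≤ K)
    (hbig : ∀ c ∈ C, K ≤ |∑ z ∈ Icc 1 (P3 c), w z * G (d c - c3 c * (z : ℕ))|) :
    ((C.card : ℝ) * K) ^ 2 ≤ (∑ n ∈ I, G n ^ 2) * (V ^ 2 * (N * (1 + Real.log X) ^ 3 + X ^ 2)) := by
  classical
  obtain ⟨T, hT⟩ : ∃ T : ℕ → ℝ, T = fun c => ∑ z ∈ Icc 1 (P3 c), w z * G (d c - c3 c * (z : ℕ)) := ⟨_, rfl⟩
  obtain ⟨σ, hσ⟩ : ∃ σ : ℕ → ℝ, σ = fun c => if 0 ≤ T c then 1 else -1 := ⟨_, rfl⟩
  have hσ1 : ∀ c, |σ c| = 1 := by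
    intro c
    rw [hσ]
    simp only
    split_ifs <;> simp
  have hσT : ∀ c, |T c| = σ c * T c := by
    intro c
    rw [hσ]
    simp only
    split_ifs with h
    · rw [abs_of_nonneg h, one_mul]
    · rw [abs_of_neg (not_le.1 h)]
      ring
  obtain ⟨S, hS⟩ : ∃ S : Finset (Σ _ : ℕ, ℕ), S = C.sigma (fun c => Icc 1 (P3 c)) := ⟨_, rfl⟩
  obtain ⟨φ, hφ⟩ : ∃ φ : (Σ _ : ℕ, ℕ) → ℤ, φ = fun s => d s.1 - c3 s.1 * (s.2 : ℕ) := ⟨_, rfl⟩
  obtain ⟨ω, hω⟩ : ∃ ω : (Σ _ : ℕ, ℕ) → ℝ, ω = fun s => σ s.1 * w s.2 := ⟨_, rfl⟩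
  have hωV : ∀ s ∈ S, |ω s| ≤ V := by
    intro s hs
    rw [hS, mem_sigma] at hs
    rw [hω]
    simp only
    rw [abs_mul, hσ1, one_mul]
    exact hw s.1 hs.1 s.2 hs.2
  obtain ⟨I', hI'⟩ : ∃ I' : Finset ℤ, I' = I ∪ S.image φ := ⟨_, rfl⟩
  obtain ⟨H, hH⟩ : ∃ H : ℤ → ℝ, H = fun n => ∑ s ∈ S, if φ s = n then ω s else 0 := ⟨_, rfl⟩
  -- the sum
  have h1 : (C.card : ℝ) * K ≤ ∑ n ∈ I', G n * H n := by
    have e1 : (C.card : ℝ) * K ≤ ∑ c ∈ C, |T c| := by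
      rw [← nsmul_eq_mul]
      apply card_nsmul_le_sum
      intro c hc
      rw [hT]
      exact hbig c hc
    refine e1.trans (le_of_eq ?_)
    have e2 : ∑ c ∈ C, |T c| = ∑ s ∈ S, ω s * G (φ s) := by
      rw [hS, sum_sigma]
      apply sum_congr rfl
      intro c _
      rw [hσT, hT, hω, hφ]
      simp only
      rw [mul_sum]
      apply sum_congr rfl
      intro z _
      ring
    rw [e2, hH]
    simp only [mul_sum]
    rw [sum_comm]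
    apply sum_congr rfl
    intro s hs
    have e3 : ∀ n ∈ I', (G n * if φ s = n then ω s else 0) = if φ s = n then ω s * G n else 0 := by
      intro n _
      split_ifs
      · ring
      · ring
    rw [sum_congr rfl e3, sum_ite_eq, if_pos]
    rw [hI', mem_union, mem_image]
    exact Or.inr ⟨s, hs, rfl⟩
  have h2 : (∑ n ∈ I', G n * H n) ^ 2 ≤ (∑ n ∈ I', G n ^ 2) * (∑ n ∈ I', H n ^ 2) := sum_mul_sq_le_sq_mul_sq _ _ _
  have h3 : ∑ n ∈ I', G n ^ 2 = ∑ n ∈ I, G n ^ 2 := by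
    symm
    apply sum_subset
    · rw [hI']; exact subset_union_left
    · intro n _ hn
      rw [hG n hn]
      norm_num
  have h4 : ∑ n ∈ I', H n ^ 2 = ∑ s ∈ S, ∑ s' ∈ S, if φ s = φ s' then ω s * ω s' else 0 := by
    rw [hH]
    apply sq_ident
    intro s hs
    rw [hI', mem_union, mem_image]
    exact Or.inr ⟨s, hs, rfl⟩
  have h5 : ∑ s ∈ S, ∑ s' ∈ S, (if φ s = φ s' then ω s * ω s' else 0) ≤
      V ^ 2 * ∑ c ∈ C, ∑ c' ∈ C, ((P3 c : ℝ) * (Nat.gcd c c' : ℕ) / c' + 1) := by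
    have e1 : ∀ s ∈ S, ∀ s' ∈ S, (if φ s = φ s' then ω s * ω s' else 0) ≤ V ^ 2 * (if φ s = φ s' then 1 else 0) := by
      intro s hs s' hs'
      split_ifs
      · rw [mul_one]
        refine (le_abs_self _).trans ?_
        rw [abs_mul, sq]
        exact mul_le_mul (hωV s hs) (hωV s' hs') (abs_nonneg _) hV
      · rw [mul_zero]
    refine (sum_le_sum fun s hs => sum_le_sum (e1 s hs)).trans ?_
    simp only [← mul_sum]
    apply mul_le_mul_of_nonneg_left _ (by positivity)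
    rw [hS, sum_sigma]
    apply sum_le_sum
    intro c hc
    have e2 : ∀ z ∈ Icc 1 (P3 c), ∑ s' ∈ C.sigma (fun c => Icc 1 (P3 c)), (if φ ⟨c, z⟩ = φ s' then (1 : ℝ) else 0) =
        ∑ c' ∈ C, ∑ z' ∈ Icc 1 (P3 c'), (if φ ⟨c, z⟩ = φ ⟨c', z'⟩ then (1 : ℝ) else 0) := by
      intro z _
      rw [sum_sigma]
    rw [sum_congr rfl e2, sum_comm]
    apply sum_le_sum
    intro c' hc'
    have hc'1 := (hC c' hc').1
    have e3 : c3 c' ≠ 0 := by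
      intro h
      have := hc3 c' hc'
      rw [h, Int.natAbs_zero] at this
      omega
    have e4 := two_count (c2 := -(c3 c)) (c3 := c3 c') (h := d c' - d c) (P2 := P3 c) (P3 := P3 c') e3
    rw [Int.natAbs_neg, hc3 c hc, hc3 c' hc'] at e4
    refine le_trans (le_of_eq ?_) e4
    apply sum_congr rfl
    intro z _
    apply sum_congr rfl
    intro z' _
    have e5 : (φ ⟨c, z⟩ = φ ⟨c', z'⟩) ↔ (-(c3 c) * (z : ℕ) + c3 c' * (z' : ℕ) = d c' - d c) := by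
      rw [hφ]
      simp only
      constructor <;> intro h <;> linarith
    simp only [e5]
  have hCsub : C ⊆ Icc 1 X := fun c hc => mem_Icc.2 (hC c hc)
  have h6 : ∑ c ∈ C, ∑ c' ∈ C, ((P3 c : ℝ) * (Nat.gcd c c' : ℕ) / c' + 1) ≤ N * (1 + Real.log X) ^ 3 + X ^ 2 := by
    have e1 : ∀ c ∈ C, ∀ c' ∈ C, ((P3 c : ℝ) * (Nat.gcd c c' : ℕ) / c' + 1) ≤
        N * (((Nat.gcd c c' : ℕ) : ℝ) / (c * c')) + 1 := by
      intro c hc c' hc'
      have g1 : (0 : ℝ) < c := by exact_mod_cast (hC c hc).1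
      have g2 : (0 : ℝ) < c' := by exact_mod_cast (hC c' hc').1
      have g3 : (P3 c : ℝ) ≤ N / c := by
        rw [le_div_iff₀ g1, mul_comm]
        exact_mod_cast hP3 c hc
      have g4 : (P3 c : ℝ) * (Nat.gcd c c' : ℕ) / c' ≤ (N / c) * (Nat.gcd c c' : ℕ) / c' := by gcongr
      have g5 : ((N : ℝ) / c) * (Nat.gcd c c' : ℕ) / c' = N * (((Nat.gcd c c' : ℕ) : ℝ) / (c * c')) := by field_simp
      linarith
    have e2 : ∑ c ∈ C, ∑ c' ∈ C, ((P3 c : ℝ) * (Nat.gcd c c' : ℕ) / c' + 1) ≤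
        ∑ c ∈ Icc 1 X, ∑ c' ∈ Icc 1 X, (N * (((Nat.gcd c c' : ℕ) : ℝ) / (c * c')) + 1) := by
      calc _ ≤ ∑ c ∈ C, ∑ c' ∈ C, (N * (((Nat.gcd c c' : ℕ) : ℝ) / (c * c')) + 1) :=
            sum_le_sum fun c hc => sum_le_sum (e1 c hc)
        _ ≤ ∑ c ∈ C, ∑ c' ∈ Icc 1 X, (N * (((Nat.gcd c c' : ℕ) : ℝ) / (c * c')) + 1) :=
            sum_le_sum fun c _ => sum_le_sum_of_subset_of_nonneg hCsub (fun _ _ _ => by positivity)
        _ ≤ _ := sum_le_sum_of_subset_of_nonneg hCsub (fun _ _ _ => sum_nonneg fun _ _ => by positivity)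
    refine e2.trans ?_
    simp only [sum_add_distrib, ← mul_sum, sum_const, Nat.card_Icc, Nat.add_sub_cancel, nsmul_eq_mul, mul_one]
    have e3 := mul_le_mul_of_nonneg_left (gcd_sum X) (Nat.cast_nonneg N : (0 : ℝ) ≤ N)
    have e4 : (X : ℝ) * X = X ^ 2 := by ring
    linarith
  have hG0 : 0 ≤ ∑ n ∈ I, G n ^ 2 := sum_nonneg fun _ _ => by positivity
  calc ((C.card : ℝ) * K) ^ 2 ≤ (∑ n ∈ I', G n * H n) ^ 2 := pow_le_pow_left₀ (by positivity) h1 2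
    _ ≤ (∑ n ∈ I', G n ^ 2) * (∑ n ∈ I', H n ^ 2) := h2
    _ = (∑ n ∈ I, G n ^ 2) * ∑ s ∈ S, ∑ s' ∈ S, (if φ s = φ s' then ω s * ω s' else 0) := by rw [h3, h4]
    _ ≤ (∑ n ∈ I, G n ^ 2) * (V ^ 2 * (N * (1 + Real.log X) ^ 3 + X ^ 2)) := by
        apply mul_le_mul_of_nonneg_left _ hG0
        exact h5.trans (mul_le_mul_of_nonneg_left h6 (by positivity))

end Pool.Agent.K7.H74.BK
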