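import Pool.Agent.K7.H74.BK.Scale
import Pool.Agent.Y883.T6.Solve6

set_option autoImplicit false

/-! The number of the triples of coefficients with a large error at one scale: the parameters. -/

namespace Pool.Agent.K7.H74.BK

open Finset
open Pool.Agent.H373R2.T7
open Pool.Agent.Y883.T3
open Pool.Agent.Y883.T4
open Pool.Agent.Y883.T5
open Pool.Agent.Y883.T6
open Pool.Agent.Y883 (tendsto_pow_log)

/-- the von Mangoldt function minus its model -/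
noncomputable def fz (z : ℕ) (n : ℕ) : ℝ := ArithmeticFunction.vonMangoldt n - lamz z n

open Classical in
theorem scale_bad (T A κ : ℕ) (σ : ℝ) (hσ : 0 < σ) : ∃ B₀ : ℕ, ∀ B : ℕ, B₀ ≤ B → ∃ N₀ : ℕ, ∀ N : ℕ, N₀ ≤ N →
    ∀ z : ℕ, Real.log N ^ B ≤ (z : ℝ) → (z : ℝ) ≤ Real.log N ^ (B + 1) →
    ∀ X : ℕ, 1 ≤ X → (X : ℝ) ^ 2 ≤ (N : ℝ) ^ (1 - 2 * σ) →
    ∀ s1 s2 s3 : ℤ, s1.natAbs = 1 → s2.natAbs = 1 → s3.natAbs = 1 →
    ∀ g2 g3 : ℕ → ℝ, (∀ n ∈ Icc 1 N, |g2 n| ≤ Real.log N) → (∀ n ∈ Icc 1 N, |g3 n| ≤ Real.log N) →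
    (((Icc 1 X ×ˢ Icc 1 X ×ˢ Icc 1 X).filter (fun t : ℕ × ℕ × ℕ =>
      BadT N T κ s1 s2 s3 (fz z) g2 g3 t.1 t.2.1 t.2.2)).card : ℝ) ≤ (X : ℝ) ^ 3 / Real.log N ^ A := by
  obtain ⟨U, hU⟩ : ∃ U, U = T + 5 + (2 * κ + 2 * A + 8) + A + 2 := ⟨_, rfl⟩
  obtain ⟨B₀, hB₀⟩ := sup_diff U
  refine ⟨B₀, fun B hB => ?_⟩
  obtain ⟨N₁, h1⟩ := hB₀ (2 * (B + 1))
  obtain ⟨N₂, h2⟩ := Vz_inv_small (B + 1)
  obtain ⟨C₀, hC₀⟩ := exists_nat_ge (1 / σ)
  have hC0 : (0 : ℝ) < C₀ := lt_of_lt_of_le (by positivity) hC₀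
  have hCσ : 1 / (C₀ : ℝ) ≤ σ := by
    rw [div_le_iff₀ hC0]
    rw [div_le_iff₀ hσ] at hC₀
    linarith
  obtain ⟨N₃, h3⟩ := ev_L' (8 * C₀ ^ U + C₀ ^ 2 + 100)
  obtain ⟨N₄, h4⟩ := ev_log_rpow ((2 * κ + 2 * A + 8) + A + 5) 2 (2 * σ) (by positivity)
  obtain ⟨N₅, h5⟩ := tendsto_pow_log (N₁ + 2 : ℝ) σ hσ
  refine ⟨N₂ + N₃ + N₄ + N₅ + 2, fun N hN z hz1 hz2 X hX hXN s1 s2 s3 hs1 hs2 hs3 g2 g3 hg2 hg3 => ?_⟩
  have hL := h3 N (by omega)
  have c4 := h4 N (by omega)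
  have c5 := h5 N (by omega)
  have hN1 : 1 ≤ N := by omega
  have hN0 : (0 : ℝ) < N := by exact_mod_cast hN1
  have hN1r : (1 : ℝ) ≤ N := by exact_mod_cast hN1
  have hX0 : (0 : ℝ) < X := by exact_mod_cast hX
  have hX1 : (1 : ℝ) ≤ X := by exact_mod_cast hX
  obtain ⟨L, hLd⟩ : ∃ L, L = Real.log (N : ℝ) := ⟨_, rfl⟩
  have hp1 : (0 : ℝ) < 8 * C₀ ^ U := by positivity
  have hp2 : (0 : ℝ) < (C₀ : ℝ) ^ 2 := by positivity
  have c2 := h2 N (by omega) z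
  rw [← hLd] at hL c4 hz1 hz2 hg2 hg3 c2
  have hL0 : 0 < L := by linarith
  have hL1 : 1 ≤ L := by linarith
  have hz1' : (1 : ℝ) ≤ z := (one_le_pow₀ hL1).trans hz1
  have hz1n : 1 ≤ z := by exact_mod_cast hz1'
  have hV := c2 hz1n hz2
  have hf : ∀ n ∈ Icc 1 N, |fz z n| ≤ L := by
    intro n hn
    have e1 := lam_bound (P := N) (L := L) (by rw [hLd]) n hn
    have e2 := lamz_bound (z := z) (L := L) hV n
    have e3 := lamz_nonneg' z n
    have e4 : (0 : ℝ) ≤ ArithmeticFunction.vonMangoldt n := ArithmeticFunction.vonMangoldt_nonneg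
    unfold fz
    rw [abs_le] at e1 e2 ⊢
    constructor <;> linarith [e1.1, e1.2, e2.1, e2.2]
  have hpw : (N : ℝ) ^ (2 * σ) * (N : ℝ) ^ (1 - 2 * σ) = N := by
    rw [← Real.rpow_add hN0]
    have e : 2 * σ + (1 - 2 * σ) = 1 := by ring
    rw [e, Real.rpow_one]
  have hXN' : 2 * L ^ ((2 * κ + 2 * A + 8) + A + 5) * (X : ℝ) ^ 2 ≤ N := by
    calc 2 * L ^ ((2 * κ + 2 * A + 8) + A + 5) * (X : ℝ) ^ 2 ≤ (N : ℝ) ^ (2 * σ) * (N : ℝ) ^ (1 - 2 * σ) :=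
          mul_le_mul c4 hXN (by positivity) (by positivity)
      _ = N := hpw
  -- the exponential sums
  obtain ⟨δ, hδ⟩ : ∃ δ : ℝ, δ = (C₀ : ℝ) ^ U / L ^ U := ⟨_, rfl⟩
  have hδ0 : 0 ≤ δ := by rw [hδ]; positivity
  have hδ2 : 8 * L ^ (T + 5 + (2 * κ + 2 * A + 8) + A + 1) * δ ≤ 1 := by
    rw [hδ]
    have e1 : L ^ U = L ^ (T + 5 + (2 * κ + 2 * A + 8) + A + 1) * L := by
      rw [hU, ← pow_succ]
    rw [e1, mul_div_assoc', div_le_one (by positivity)]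
    calc 8 * L ^ (T + 5 + (2 * κ + 2 * A + 8) + A + 1) * (C₀ : ℝ) ^ U =
          L ^ (T + 5 + (2 * κ + 2 * A + 8) + A + 1) * (8 * (C₀ : ℝ) ^ U) := by ring
      _ ≤ _ := mul_le_mul_of_nonneg_left (by linarith) (by positivity)
  have hF : ∀ a ∈ Icc 1 X, ∀ α, Fh (fz z) (N / a) α ≤ (N : ℝ) / a * δ := by
    intro a ha α
    rw [mem_Icc] at ha
    have ha0 : (0 : ℝ) < a := by exact_mod_cast ha.1
    have ha1 : (1 : ℝ) ≤ a := by exact_mod_cast ha.1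
    have haX : (a : ℝ) ≤ X := by exact_mod_cast ha.2
    obtain ⟨P, hP⟩ : ∃ P, P = N / a := ⟨_, rfl⟩
    have hNs0 : 0 < (N : ℝ) ^ σ := by positivity
    have e1 : (N : ℝ) ^ σ ≤ P := by
      have g1 := natdiv_ge N a ha.1
      rw [← hP] at g1
      have g2 : (N : ℝ) ^ (2 * σ) ≤ N / a := by
        rw [le_div_iff₀ ha0]
        calc (N : ℝ) ^ (2 * σ) * a ≤ (N : ℝ) ^ (2 * σ) * (N : ℝ) ^ (1 - 2 * σ) := by
              apply mul_le_mul_of_nonneg_left _ (by positivity)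
              refine le_trans ?_ hXN
              nlinarith
          _ = N := hpw
      have g3 : (N : ℝ) ^ (2 * σ) = (N : ℝ) ^ σ * (N : ℝ) ^ σ := by
        rw [← Real.rpow_add hN0]
        ring_nf
      have g4 : (0 : ℝ) ≤ N₁ := Nat.cast_nonneg _
      nlinarith
    have e2 : (1 : ℝ) ≤ (N : ℝ) ^ σ := Real.one_le_rpow hN1r hσ.le
    have hP0 : (0 : ℝ) < P := by linarith
    have hPN : P ≤ N := by rw [hP]; exact Nat.div_le_self _ _
    have e3 : Real.log P ≤ L := by rw [hLd]; exact Real.log_le_log hP0 (by exact_mod_cast hPN)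
    have e4 : L / C₀ ≤ Real.log P := by
      have g1 : Real.log ((N : ℝ) ^ σ) = σ * L := by rw [Real.log_rpow hN0, hLd]
      calc L / C₀ = (1 / C₀) * L := by ring
        _ ≤ σ * L := mul_le_mul_of_nonneg_right hCσ hL0.le
        _ = Real.log ((N : ℝ) ^ σ) := g1.symm
        _ ≤ Real.log P := Real.log_le_log hNs0 e1
    have e5 : 0 < L / C₀ := by positivity
    have e6 : 0 < Real.log P := by linarith
    have hN1P : N₁ ≤ P := by
      have : (N₁ : ℝ) ≤ P := by linarith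
      exact_mod_cast this
    have e7 := h1 P hN1P z (by
      refine le_trans ?_ hz1
      calc Real.log P ^ B₀ ≤ L ^ B₀ := pow_le_pow_left₀ e6.le e3 _
        _ ≤ L ^ B := pow_le_pow_right₀ hL1 hB) (by
      refine hz2.trans ?_
      rw [pow_mul]
      apply pow_le_pow_left₀ hL0.le
      calc L ≤ (L / C₀) ^ 2 := by
            rw [div_pow, le_div_iff₀ hp2, sq L]
            exact mul_le_mul_of_nonneg_left (by linarith) hL0.le
        _ ≤ Real.log P ^ 2 := pow_le_pow_left₀ e5.le e4 2) α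
    rw [← hP]
    unfold Fh fz
    refine e7.trans ?_
    rw [div_eq_mul_one_div]
    apply mul_le_mul _ _ (by positivity) (by positivity)
    · rw [hP]; exact Nat.cast_div_le
    · rw [hδ, div_le_div_iff₀ (by positivity) (by positivity), one_mul, ← mul_pow]
      apply pow_le_pow_left₀ hL0.le
      rw [div_le_iff₀ hC0] at e4
      linarith
  have h6 := scale_count (T := T) (κ := κ) (A := A) hN1 hX hLd.symm (by linarith) hXN' hδ0 hδ2 hs1 hs2 hs3 hf hg2 hg3 hF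
  rw [← hLd]
  refine h6.trans ?_
  have e1 : (X : ℝ) ^ 3 / L ^ A = L * ((X : ℝ) ^ 3 / L ^ (A + 1)) := by
    rw [pow_succ L A]
    field_simp
  rw [e1]
  exact mul_le_mul_of_nonneg_right (by linarith) (by positivity)

end Pool.Agent.K7.H74.BK
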