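import Pool.Agent.K7.H74.BK.Inc

set_option autoImplicit false

/-! The number of the triples of coefficients with a large error at one scale. -/

namespace Pool.Agent.K7.H74.BK

open Finset
open Pool.Agent.Y883.T6

lemma S3_gs (c1 c2 c3 d : ℤ) (P1 P2 P3 : ℕ) (g1 g2 g3 : ℕ → ℝ) :
    S3 c1 c2 c3 d P1 P2 P3 g1 g2 g3 = ∑ z ∈ Icc 1 P3, g3 z * gs c1 c2 P1 P2 g1 g2 (d - c3 * (z : ℕ)) := by
  have e : ∀ z ∈ Icc 1 P3, g3 z * gs c1 c2 P1 P2 g1 g2 (d - c3 * (z : ℕ)) =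
      ∑ x ∈ Icc 1 P1, ∑ y ∈ Icc 1 P2,
        if c1 * (x : ℕ) + c2 * (y : ℕ) + c3 * (z : ℕ) = d then g1 x * g2 y * g3 z else 0 := by
    intro z _
    unfold gs
    rw [sum_product, mul_sum]
    apply sum_congr rfl
    intro x _
    rw [mul_sum]
    apply sum_congr rfl
    intro y _
    have e1 : (c1 * (x : ℕ) + c2 * (y : ℕ) = d - c3 * (z : ℕ)) ↔ (c1 * (x : ℕ) + c2 * (y : ℕ) + c3 * (z : ℕ) = d) := by
      constructor <;> intro h <;> linarith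
    simp only [e1]
    split_ifs <;> ring
  rw [sum_congr rfl e]
  unfold S3
  symm
  rw [sum_comm]
  apply sum_congr rfl
  intro x _
  rw [sum_comm]

lemma gs_zero {c1 c2 : ℤ} {P1 P2 : ℕ} {u v : ℕ → ℝ} {n : ℤ}
    (h : n ∉ (Icc 1 P1 ×ˢ Icc 1 P2).image (fun s : ℕ × ℕ => c1 * (s.1 : ℕ) + c2 * (s.2 : ℕ))) :
    gs c1 c2 P1 P2 u v n = 0 := by
  unfold gs
  apply sum_eq_zero
  intro s hs
  rw [if_neg]
  intro h'
  exact h (mem_image.2 ⟨s, hs, h'⟩)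

lemma Icc_div {N a n : ℕ} (h : n ∈ Icc 1 (N / a)) : n ∈ Icc 1 N := by
  rw [mem_Icc] at h ⊢
  exact ⟨h.1, h.2.trans (Nat.div_le_self _ _)⟩

/-- few second coefficients with a large mean square -/
lemma few_b {N X T A h : ℕ} {L δ : ℝ} (hN : 1 ≤ N) (hX : 1 ≤ X) (hLN : Real.log N = L) (hL : 9 ≤ L)
    (hXN : 2 * L ^ (h + A + 5) * (X : ℝ) ^ 2 ≤ N) (hδ : 0 ≤ δ) (hδ2 : 8 * L ^ (T + 5 + h + A + 1) * δ ≤ 1)
    {a : ℕ} (ha : 1 ≤ a) (haX : a ≤ X) {s1 s2 : ℤ} (hs1 : s1.natAbs = 1) (hs2 : s2.natAbs = 1)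
    {f g2 : ℕ → ℝ} (hf : ∀ n ∈ Icc 1 N, |f n| ≤ L) (hg2 : ∀ n ∈ Icc 1 N, |g2 n| ≤ L)
    (hF : ∀ α, Fh f (N / a) α ≤ (N : ℝ) / a * δ) (B : Finset ℕ)
    (hB : ∀ b ∈ B, 1 ≤ b ∧ b ≤ X ∧ ((Nat.gcd a b : ℕ) : ℝ) ≤ L ^ T ∧
      (N : ℝ) ^ 3 / ((a : ℝ) ^ 2 * (b : ℝ) ^ 2) / L ^ h < E2 (s1 * a) (s2 * b) (N / a) (N / b) f g2) :
    (B.card : ℝ) ≤ X / L ^ (A + 1) := by
  have hN0 : (0 : ℝ) < N := by exact_mod_cast hN
  have hX0 : (0 : ℝ) < X := by exact_mod_cast hX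
  have ha0 : (0 : ℝ) < a := by exact_mod_cast ha
  have haX' : (a : ℝ) ≤ X := by exact_mod_cast haX
  have hL0 : 0 < L := by linarith
  obtain ⟨Q, hQ⟩ : ∃ Q : ℝ, Q = (N : ℝ) / a := ⟨_, rfl⟩
  have hQ0 : 0 < Q := by rw [hQ]; positivity
  have hPQ : ((N / a : ℕ) : ℝ) ≤ Q := by rw [hQ]; exact Nat.cast_div_le
  have hBX : B.card ≤ X := by
    have : B ⊆ Icc 1 X := fun b hb => mem_Icc.2 ⟨(hB b hb).1, (hB b hb).2.1⟩
    have h1 := card_le_card this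
    rwa [Nat.card_Icc, Nat.add_sub_cancel] at h1
  have hLT : (0 : ℝ) ≤ L ^ T := by positivity
  have hu : ∑ n ∈ Icc 1 (N / a), f n ^ 2 ≤ L ^ 2 * ((N / a : ℕ) : ℝ) := by
    calc ∑ n ∈ Icc 1 (N / a), f n ^ 2 ≤ ∑ _n ∈ Icc 1 (N / a), L ^ 2 := by
          apply sum_le_sum
          intro n hn
          rw [← sq_abs]
          exact pow_le_pow_left₀ (abs_nonneg _) (hf n (Icc_div hn)) 2
      _ = _ := by rw [sum_const, Nat.card_Icc, nsmul_eq_mul, Nat.add_sub_cancel, mul_comm]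
  have h1 := sum_E2 (a := a) (G := ⌊L ^ T⌋₊) (X := X) (N := N) ha B
    (fun b hb => ⟨(hB b hb).1, Nat.le_floor (hB b hb).2.2.1⟩) hBX (s1 * a)
    (by rw [Int.natAbs_mul, hs1, one_mul, Int.natAbs_natCast]) (fun b => s2 * b)
    (fun b _ => by rw [Int.natAbs_mul, hs2, one_mul, Int.natAbs_natCast]) (N / a) (fun b => N / b)
    (fun b _ => Nat.mul_div_le N b) f g2 hL0.le (fun b _ n hn => hg2 n (Icc_div hn)) hF hu
  rw [← hQ] at h1
  have hlog : Real.log ((N / a : ℕ) : ℝ) ≤ L := by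
    rcases Nat.eq_zero_or_pos (N / a) with h0 | h0
    · rw [h0, Nat.cast_zero, Real.log_zero]
      exact hL0.le
    · rw [← hLN]
      exact Real.log_le_log (by exact_mod_cast h0) (by exact_mod_cast Nat.div_le_self _ _)
  have hlog0 : 0 ≤ Real.log ((N / a : ℕ) : ℝ) := Real.log_natCast_nonneg _
  have hsq : √(2 * (((N / a : ℕ) : ℝ) * (1 + Real.log ((N / a : ℕ) : ℝ)) ^ 3)) *
      √((Q * δ) ^ 2 * (L ^ 2 * ((N / a : ℕ) : ℝ))) ≤ 4 * Q ^ 2 * L ^ 3 * δ := by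
    rw [← Real.sqrt_mul (by positivity)]
    apply Real.sqrt_le_iff.2 ⟨by positivity, ?_⟩
    calc 2 * (((N / a : ℕ) : ℝ) * (1 + Real.log ((N / a : ℕ) : ℝ)) ^ 3) * ((Q * δ) ^ 2 * (L ^ 2 * ((N / a : ℕ) : ℝ)))
        ≤ 2 * (Q * (2 * L) ^ 3) * ((Q * δ) ^ 2 * (L ^ 2 * Q)) := by
          gcongr
          linarith
      _ = (16 * Q ^ 4 * L ^ 5 * δ ^ 2) * 1 := by ring
      _ ≤ (16 * Q ^ 4 * L ^ 5 * δ ^ 2) * L := mul_le_mul_of_nonneg_left (by linarith) (by positivity)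
      _ = (4 * Q ^ 2 * L ^ 3 * δ) ^ 2 := by ring
  have hup : ∑ b ∈ B, (b : ℝ) * E2 (s1 * a) (s2 * b) (N / a) (N / b) f g2 ≤
      L ^ 2 * N * (X * (L ^ 2 * Q) + L ^ T * (4 * Q ^ 2 * L ^ 3 * δ)) := by
    refine h1.trans ?_
    apply mul_le_mul_of_nonneg_left _ (by positivity)
    apply add_le_add
    · gcongr
    · exact mul_le_mul (Nat.floor_le hLT) hsq (by positivity) hLT
  have hlow : (B.card : ℝ) * ((N : ℝ) ^ 3 / ((a : ℝ) ^ 2 * X) / L ^ h) ≤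
      ∑ b ∈ B, (b : ℝ) * E2 (s1 * a) (s2 * b) (N / a) (N / b) f g2 := by
    rw [← nsmul_eq_mul]
    apply card_nsmul_le_sum
    intro b hb
    obtain ⟨g1, g2', _, g4⟩ := hB b hb
    have hb0 : (0 : ℝ) < b := by exact_mod_cast g1
    have hbX : (b : ℝ) ≤ X := by exact_mod_cast g2'
    calc (N : ℝ) ^ 3 / ((a : ℝ) ^ 2 * X) / L ^ h ≤ (N : ℝ) ^ 3 / ((a : ℝ) ^ 2 * b) / L ^ h := by gcongr
      _ = b * ((N : ℝ) ^ 3 / ((a : ℝ) ^ 2 * (b : ℝ) ^ 2) / L ^ h) := by field_simp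
      _ ≤ _ := mul_le_mul_of_nonneg_left g4.le hb0.le
  -- comparison
  have hkey : L ^ 2 * N * (X * (L ^ 2 * Q) + L ^ T * (4 * Q ^ 2 * L ^ 3 * δ)) ≤
      (X / L ^ (A + 1)) * ((N : ℝ) ^ 3 / ((a : ℝ) ^ 2 * X) / L ^ h) := by
    have e0 : (X / L ^ (A + 1)) * ((N : ℝ) ^ 3 / ((a : ℝ) ^ 2 * X) / L ^ h) =
        (N : ℝ) ^ 3 / (2 * (a : ℝ) ^ 2 * L ^ (h + A + 1)) + (N : ℝ) ^ 3 / (2 * (a : ℝ) ^ 2 * L ^ (h + A + 1)) := by
      rw [show h + A + 1 = (A + 1) + h by ring, pow_add L (A + 1) h]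
      field_simp
      norm_num
    have e1 : L ^ 2 * N * (X * (L ^ 2 * Q)) ≤ (N : ℝ) ^ 3 / (2 * (a : ℝ) ^ 2 * L ^ (h + A + 1)) := by
      rw [le_div_iff₀ (by positivity), hQ]
      calc L ^ 2 * N * (X * (L ^ 2 * ((N : ℝ) / a))) * (2 * (a : ℝ) ^ 2 * L ^ (h + A + 1)) =
            (2 * L ^ (h + A + 5) * (X * a)) * (N : ℝ) ^ 2 := by
              rw [show h + A + 5 = (h + A + 1) + 4 by ring, pow_add L (h + A + 1) 4]
              field_simp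
        _ ≤ (2 * L ^ (h + A + 5) * (X * X)) * (N : ℝ) ^ 2 := by gcongr
        _ = (2 * L ^ (h + A + 5) * (X : ℝ) ^ 2) * (N : ℝ) ^ 2 := by ring
        _ ≤ N * (N : ℝ) ^ 2 := mul_le_mul_of_nonneg_right hXN (by positivity)
        _ = (N : ℝ) ^ 3 := by ring
    have e2 : L ^ 2 * N * (L ^ T * (4 * Q ^ 2 * L ^ 3 * δ)) ≤ (N : ℝ) ^ 3 / (2 * (a : ℝ) ^ 2 * L ^ (h + A + 1)) := by
      rw [le_div_iff₀ (by positivity), hQ]
      calc L ^ 2 * N * (L ^ T * (4 * ((N : ℝ) / a) ^ 2 * L ^ 3 * δ)) * (2 * (a : ℝ) ^ 2 * L ^ (h + A + 1)) =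
            (8 * L ^ (T + 5 + h + A + 1) * δ) * (N : ℝ) ^ 3 := by
              rw [show T + 5 + h + A + 1 = T + 5 + (h + A + 1) by ring, pow_add L (T + 5), pow_add L T 5]
              field_simp
              ring
        _ ≤ 1 * (N : ℝ) ^ 3 := mul_le_mul_of_nonneg_right hδ2 (by positivity)
        _ = (N : ℝ) ^ 3 := one_mul _
    rw [e0, mul_add]
    linarith
  exact le_of_mul_le_mul_right (hlow.trans (hup.trans hkey)) (by positivity)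

/-- few third coefficients with a large error -/
lemma few_c {N X A κ : ℕ} {L : ℝ} (hN : 1 ≤ N) (hX : 1 ≤ X) (hXN : (X : ℝ) ^ 2 ≤ N) (hLN : Real.log N = L) (hL : 9 ≤ L)
    {a b : ℕ} (ha : 1 ≤ a) (hb : 1 ≤ b) {s1 s2 s3 : ℤ} (hs3 : s3.natAbs = 1)
    {f g2 g3 : ℕ → ℝ} (hg3 : ∀ n ∈ Icc 1 N, |g3 n| ≤ L)
    (hE : E2 (s1 * a) (s2 * b) (N / a) (N / b) f g2 ≤
      (N : ℝ) ^ 3 / ((a : ℝ) ^ 2 * (b : ℝ) ^ 2) / L ^ (2 * κ + 2 * A + 8)) (C : Finset ℕ)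
    (hC : ∀ c ∈ C, 1 ≤ c ∧ c ≤ X ∧ ∃ d : ℤ, (N : ℝ) ^ 2 / (a * b * c) / L ^ κ <
      |S3 (s1 * a) (s2 * b) (s3 * c) d (N / a) (N / b) (N / c) f g2 g3|) :
    (C.card : ℝ) ≤ X / L ^ (A + 1) := by
  classical
  have hN0 : (0 : ℝ) < N := by exact_mod_cast hN
  have hX0 : (0 : ℝ) < X := by exact_mod_cast hX
  have ha0 : (0 : ℝ) < a := by exact_mod_cast ha
  have hb0 : (0 : ℝ) < b := by exact_mod_cast hb
  have hL0 : 0 < L := by linarith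
  obtain ⟨K, hK⟩ : ∃ K : ℝ, K = (N : ℝ) ^ 2 / (a * b * X) / L ^ κ := ⟨_, rfl⟩
  have hK0 : 0 < K := by rw [hK]; positivity
  have hd : ∀ c : ℕ, ∃ d : ℤ, c ∈ C → (N : ℝ) ^ 2 / (a * b * c) / L ^ κ <
      |S3 (s1 * a) (s2 * b) (s3 * c) d (N / a) (N / b) (N / c) f g2 g3| := by
    intro c
    by_cases h : c ∈ C
    · obtain ⟨_, _, d, hd⟩ := hC c h
      exact ⟨d, fun _ => hd⟩
    · exact ⟨0, fun h' => absurd h' h⟩
  choose d hd using hd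
  obtain ⟨I, hI⟩ : ∃ I, I = (Icc 1 (N / a) ×ˢ Icc 1 (N / b)).image
    (fun s : ℕ × ℕ => (s1 * a) * (s.1 : ℕ) + (s2 * b) * (s.2 : ℕ)) := ⟨_, rfl⟩
  have h1 := incidence (X := X) (N := N) C (fun c hc => ⟨(hC c hc).1, (hC c hc).2.1⟩) (fun c => s3 * c)
    (fun c _ => by rw [Int.natAbs_mul, hs3, one_mul, Int.natAbs_natCast]) (fun c => N / c)
    (fun c _ => Nat.mul_div_le N c) g3 hL0.le (fun c _ n hn => hg3 n (Icc_div hn))
    (fun n => gs (s1 * a) (s2 * b) (N / a) (N / b) f g2 n) I (fun n hn => gs_zero (by rw [← hI]; exact hn))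
    d hK0.le (by
      intro c hc
      have e1 := hd c hc
      rw [S3_gs] at e1
      refine le_trans ?_ e1.le
      have hc0 : (0 : ℝ) < c := by exact_mod_cast (hC c hc).1
      have hcX : (c : ℝ) ≤ X := by exact_mod_cast (hC c hc).2.1
      rw [hK]
      gcongr)
  rw [gs_sq (s1 * a) (s2 * b) (N / a) (N / b) f g2 I (by
    intro s hs
    rw [hI]
    exact mem_image_of_mem _ hs)] at h1
  have hXN' : (X : ℝ) ≤ N := by
    have h2 : (1 : ℝ) ≤ X := by exact_mod_cast hX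
    nlinarith
  have hlogX : Real.log X ≤ L := by rw [← hLN]; exact Real.log_le_log hX0 hXN'
  have hlogX0 : 0 ≤ Real.log (X : ℝ) := Real.log_natCast_nonneg _
  have hbr : (N : ℝ) * (1 + Real.log X) ^ 3 + (X : ℝ) ^ 2 ≤ N * L ^ 4 := by
    have e1 : (1 + Real.log (X : ℝ)) ^ 3 ≤ (2 * L) ^ 3 := pow_le_pow_left₀ (by linarith) (by linarith) 3
    have e2 : (2 * L) ^ 3 + 1 ≤ L ^ 4 := by
      have e3 : (1 : ℝ) ≤ L ^ 3 := one_le_pow₀ (by linarith)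
      have e4 : 9 * L ^ 3 ≤ L * L ^ 3 := mul_le_mul_of_nonneg_right hL (by positivity)
      calc (2 * L) ^ 3 + 1 ≤ 9 * L ^ 3 := by
            have : (2 * L) ^ 3 = 8 * L ^ 3 := by ring
            rw [this]
            linarith
        _ ≤ L * L ^ 3 := e4
        _ = L ^ 4 := by ring
    calc (N : ℝ) * (1 + Real.log X) ^ 3 + (X : ℝ) ^ 2 ≤ N * (2 * L) ^ 3 + N := by gcongr
      _ = N * ((2 * L) ^ 3 + 1) := by ring
      _ ≤ N * L ^ 4 := mul_le_mul_of_nonneg_left e2 hN0.le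
  have h2 : ((C.card : ℝ) * K) ^ 2 ≤ (X / L ^ (A + 1) * K) ^ 2 := by
    refine h1.trans ?_
    have e1 : (X / L ^ (A + 1) * K) ^ 2 =
        (N : ℝ) ^ 3 / ((a : ℝ) ^ 2 * (b : ℝ) ^ 2) / L ^ (2 * κ + 2 * A + 8) * (L ^ 2 * (N * L ^ 4)) := by
      rw [hK, show 2 * κ + 2 * A + 8 = 2 * κ + 2 * (A + 1) + 6 by ring, pow_add L (2 * κ + 2 * (A + 1)) 6,
        pow_add L (2 * κ) (2 * (A + 1)), pow_mul' L 2 κ, pow_mul' L 2 (A + 1)]
      field_simp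
    rw [e1]
    apply mul_le_mul hE _ (by positivity) (by positivity)
    exact mul_le_mul_of_nonneg_left hbr (by positivity)
  have h3 : (C.card : ℝ) * K ≤ X / L ^ (A + 1) * K := by
    have h4 := abs_le_of_sq_le_sq h2 (by positivity)
    exact (le_abs_self _).trans (by simpa [abs_le] using h4)
  exact le_of_mul_le_mul_right h3 hK0

/-- a triple with a large error -/
def BadT (N T κ : ℕ) (s1 s2 s3 : ℤ) (f g2 g3 : ℕ → ℝ) (a b c : ℕ) : Prop :=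
  ((Nat.gcd a b : ℕ) : ℝ) ≤ Real.log N ^ T ∧
    ∃ d : ℤ, (N : ℝ) ^ 2 / (a * b * c) / Real.log N ^ κ <
      |S3 (s1 * a) (s2 * b) (s3 * c) d (N / a) (N / b) (N / c) f g2 g3|

open Classical in
/-- the number of the triples with a large error -/
theorem scale_count {N X T A κ : ℕ} {L δ : ℝ} (hN : 1 ≤ N) (hX : 1 ≤ X) (hLN : Real.log N = L) (hL : 9 ≤ L)
    (hXN : 2 * L ^ ((2 * κ + 2 * A + 8) + A + 5) * (X : ℝ) ^ 2 ≤ N) (hδ : 0 ≤ δ)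
    (hδ2 : 8 * L ^ (T + 5 + (2 * κ + 2 * A + 8) + A + 1) * δ ≤ 1)
    {s1 s2 s3 : ℤ} (hs1 : s1.natAbs = 1) (hs2 : s2.natAbs = 1) (hs3 : s3.natAbs = 1)
    {f g2 g3 : ℕ → ℝ} (hf : ∀ n ∈ Icc 1 N, |f n| ≤ L) (hg2 : ∀ n ∈ Icc 1 N, |g2 n| ≤ L)
    (hg3 : ∀ n ∈ Icc 1 N, |g3 n| ≤ L) (hF : ∀ a ∈ Icc 1 X, ∀ α, Fh f (N / a) α ≤ (N : ℝ) / a * δ) :
    (((Icc 1 X ×ˢ Icc 1 X ×ˢ Icc 1 X).filter (fun t : ℕ × ℕ × ℕ =>
      BadT N T κ s1 s2 s3 f g2 g3 t.1 t.2.1 t.2.2)).card : ℝ) ≤ 2 * ((X : ℝ) ^ 3 / L ^ (A + 1)) := by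
  have hL0 : 0 < L := by linarith
  have hN0 : (0 : ℝ) < N := by exact_mod_cast hN
  have hX0 : (0 : ℝ) < X := by exact_mod_cast hX
  have hXN2 : (X : ℝ) ^ 2 ≤ N := by
    have h1 : 1 ≤ L ^ ((2 * κ + 2 * A + 8) + A + 5) := one_le_pow₀ (by linarith)
    have h2 : (X : ℝ) ^ 2 ≤ (2 * L ^ ((2 * κ + 2 * A + 8) + A + 5)) * (X : ℝ) ^ 2 :=
      le_mul_of_one_le_left (by positivity) (by linarith)
    linarith
  obtain ⟨Pr, hPr⟩ : ∃ Pr : ℕ → ℕ → ℕ → Prop, Pr = BadT N T κ s1 s2 s3 f g2 g3 := ⟨_, rfl⟩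
  rw [← hPr]
  have e0 : (((Icc 1 X ×ˢ Icc 1 X ×ˢ Icc 1 X).filter (fun t : ℕ × ℕ × ℕ => Pr t.1 t.2.1 t.2.2)).card : ℝ) =
      ∑ a ∈ Icc 1 X, ∑ b ∈ Icc 1 X, (((Icc 1 X).filter (fun c => Pr a b c)).card : ℝ) := by
    rw [card_filter, sum_product]
    push_cast
    apply sum_congr rfl
    intro a _
    rw [sum_product]
    apply sum_congr rfl
    intro b _
    rw [card_filter]
    push_cast
    rfl
  rw [e0]
  have h1 : ∀ a ∈ Icc 1 X, ∑ b ∈ Icc 1 X, (((Icc 1 X).filter (fun c => Pr a b c)).card : ℝ) ≤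
      2 * ((X : ℝ) ^ 2 / L ^ (A + 1)) := by
    intro a ha
    rw [mem_Icc] at ha
    obtain ⟨B, hB⟩ : ∃ B, B = (Icc 1 X).filter (fun b => ((Nat.gcd a b : ℕ) : ℝ) ≤ L ^ T ∧
      (N : ℝ) ^ 3 / ((a : ℝ) ^ 2 * (b : ℝ) ^ 2) / L ^ (2 * κ + 2 * A + 8) <
        E2 (s1 * a) (s2 * b) (N / a) (N / b) f g2) := ⟨_, rfl⟩
    have hBc := few_b (T := T) hN hX hLN hL hXN hδ hδ2 ha.1 ha.2 hs1 hs2 hf hg2 (hF a (mem_Icc.2 ha)) B (by
      intro b hb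
      rw [hB, mem_filter, mem_Icc] at hb
      exact ⟨hb.1.1, hb.1.2, hb.2.1, hb.2.2⟩)
    have h2 : ∀ b ∈ Icc 1 X, (((Icc 1 X).filter (fun c => Pr a b c)).card : ℝ) ≤
        (if b ∈ B then (X : ℝ) else 0) + X / L ^ (A + 1) := by
      intro b hb
      have hp : (0 : ℝ) ≤ X / L ^ (A + 1) := by positivity
      by_cases hbB : b ∈ B
      · rw [if_pos hbB]
        have e1 : ((Icc 1 X).filter (fun c => Pr a b c)).card ≤ X := by
          refine (card_filter_le _ _).trans ?_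
          rw [Nat.card_Icc, Nat.add_sub_cancel]
        have e2 : (((Icc 1 X).filter (fun c => Pr a b c)).card : ℝ) ≤ X := by exact_mod_cast e1
        linarith
      · rw [if_neg hbB, zero_add]
        by_cases hg : ((Nat.gcd a b : ℕ) : ℝ) ≤ L ^ T
        · have hE : E2 (s1 * a) (s2 * b) (N / a) (N / b) f g2 ≤
              (N : ℝ) ^ 3 / ((a : ℝ) ^ 2 * (b : ℝ) ^ 2) / L ^ (2 * κ + 2 * A + 8) := by
            by_contra hcon
            apply hbB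
            rw [hB, mem_filter]
            exact ⟨hb, hg, not_le.1 hcon⟩
          rw [mem_Icc] at hb
          exact few_c hN hX hXN2 hLN hL ha.1 hb.1 hs3 hg3 hE _ (by
            intro c hc
            rw [mem_filter, mem_Icc, hPr] at hc
            unfold BadT at hc
            rw [hLN] at hc
            exact ⟨hc.1.1, hc.1.2, hc.2.2⟩)
        · have : (Icc 1 X).filter (fun c => Pr a b c) = ∅ := by
            rw [filter_eq_empty_iff]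
            intro c _ hc
            rw [hPr] at hc
            unfold BadT at hc
            rw [hLN] at hc
            exact hg hc.1
          rw [this, card_empty, Nat.cast_zero]
          exact hp
    refine (sum_le_sum h2).trans ?_
    rw [sum_add_distrib, sum_const, Nat.card_Icc, Nat.add_sub_cancel, nsmul_eq_mul]
    have h3 : ∑ b ∈ Icc 1 X, (if b ∈ B then (X : ℝ) else 0) = B.card * X := by
      rw [← sum_filter, sum_const, nsmul_eq_mul]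
      congr 3
      ext b
      rw [mem_filter]
      constructor
      · exact fun h => h.2
      · intro h
        refine ⟨?_, h⟩
        rw [hB, mem_filter] at h
        exact h.1
    rw [h3]
    calc (B.card : ℝ) * X + X * (X / L ^ (A + 1)) ≤ (X / L ^ (A + 1)) * X + X * (X / L ^ (A + 1)) := by gcongr
      _ = 2 * ((X : ℝ) ^ 2 / L ^ (A + 1)) := by ring
  refine (sum_le_sum h1).trans ?_
  rw [sum_const, Nat.card_Icc, Nat.add_sub_cancel, nsmul_eq_mul]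
  apply le_of_eq
  ring

end Pool.Agent.K7.H74.BK
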