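import Pool.Agent.K7.H74.BK.Param

set_option autoImplicit false

/-! Linear equations in three primes with three large coefficients: one scale. -/

namespace Pool.Agent.K7.H74.BK

open Finset
open Pool.Agent.H373R2.T7
open Pool.Agent.Y883.T3
open Pool.Agent.Y883.T4
open Pool.Agent.Y883.T5
open Pool.Agent.Y883.T6

/-- the von Mangoldt function -/
noncomputable def vm (n : ℕ) : ℝ := ArithmeticFunction.vonMangoldt n

/-- the errors at one scale -/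
structure ErrS (N T z : ℕ) (a1 a2 a3 : ℕ) (d : ℤ) : Prop where
  e1 : |S3 a1 a2 (-(a3 : ℤ)) d (N / a1) (N / a2) (N / a3) (fz z) vm vm| ≤
    (N : ℝ) ^ 2 / (a1 * a2 * a3) / Real.log N ^ (6 * T + 10)
  e2 : |S3 a2 a1 (-(a3 : ℤ)) d (N / a2) (N / a1) (N / a3) (fz z) (lamz z) vm| ≤
    (N : ℝ) ^ 2 / (a2 * a1 * a3) / Real.log N ^ (6 * T + 10)
  e3 : |S3 (-(a3 : ℤ)) a1 a2 d (N / a3) (N / a1) (N / a2) (fz z) (lamz z) (lamz z)| ≤
    (N : ℝ) ^ 2 / (a3 * a1 * a2) / Real.log N ^ (6 * T + 10)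

theorem solve_one (T B : ℕ) (σ : ℝ) (hσ : 0 < σ) (hB : 5 ≤ B) :
    ∃ N₀ : ℕ, ∀ N : ℕ, N₀ ≤ N → ∀ z : ℕ, Real.log N ^ B ≤ (z : ℝ) → (z : ℝ) ≤ Real.log N ^ (B + 1) →
    ∀ {a1 a2 a3 : ℕ} {d : ℤ}, Par6 σ N T a1 a2 (-(a3 : ℤ)) d (N / a1) (N / a2) (N / a3) →
    ErrS N T z a1 a2 a3 d → Adm a1 a2 a3 d →
    ∃ x y w : ℕ, x.Prime ∧ y.Prime ∧ w.Prime ∧ (a1 : ℤ) * x + a2 * y = d + a3 * w ∧
      x ≤ N / a1 ∧ y ≤ N / a2 ∧ w ≤ N / a3 := by
  classical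
  obtain ⟨N₁, h1⟩ := scale_size σ hσ
  obtain ⟨N₃, h3⟩ := err_prime T σ hσ
  obtain ⟨N₄, h4⟩ := low T (B + 1) σ hσ
  obtain ⟨N₅, h5⟩ := Vz_inv_small (B + 1)
  obtain ⟨N₆, h6⟩ := ev_L' 100
  refine ⟨N₁ + N₃ + N₄ + N₅ + N₆ + 2, fun N hN z hz1 hz2 a1 a2 a3 d hp he hadm => ?_⟩
  obtain ⟨P1, hP1⟩ : ∃ P1, P1 = N / a1 := ⟨_, rfl⟩
  obtain ⟨P2, hP2⟩ : ∃ P2, P2 = N / a2 := ⟨_, rfl⟩
  obtain ⟨P3, hP3⟩ : ∃ P3, P3 = N / a3 := ⟨_, rfl⟩
  obtain ⟨he1, he2, he3⟩ := he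
  rw [← hP1, ← hP2, ← hP3] at hp he1 he2 he3 ⊢
  obtain ⟨b11, b12, b13, b14, b15⟩ := h1 N (by omega) hp
  obtain ⟨b21, b22, b23, b24, b25⟩ := h1 N (by omega) hp.swap
  obtain ⟨b31, b32, b33, b34, b35⟩ := h1 N (by omega) hp.rot.rot
  have hL := h6 N (by omega)
  have hN1 : 1 ≤ N := by omega
  have hN0 : (0 : ℝ) < N := by exact_mod_cast hN1
  obtain ⟨L, hLd⟩ : ∃ L, L = Real.log (N : ℝ) := ⟨_, rfl⟩
  have hV' := h5 N (by omega) z
  rw [← hLd] at hL b14 b15 b24 b25 b34 b35 hz1 hz2 hV'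
  have hL100 : 100 ≤ L := by linarith
  have hL0 : 0 < L := by linarith
  have hL1 : 1 ≤ L := by linarith
  have hz1' : (1 : ℝ) ≤ z := (one_le_pow₀ hL1).trans hz1
  have hz1n : 1 ≤ z := by exact_mod_cast hz1'
  have hV := hV' hz1n hz2
  have hzlo : L ^ 5 ≤ (z : ℝ) := (pow_le_pow_right₀ hL1 hB).trans hz1
  -- the coefficients
  have ha11 : 1 ≤ a1 := by
    have := Int.natAbs_pos.2 hp.n1
    rwa [Int.natAbs_natCast] at this
  have ha21 : 1 ≤ a2 := by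
    have := Int.natAbs_pos.2 hp.n2
    rwa [Int.natAbs_natCast] at this
  have ha31 : 1 ≤ a3 := by
    have := Int.natAbs_pos.2 hp.n3
    rwa [Int.natAbs_neg, Int.natAbs_natCast] at this
  obtain ⟨μ, hμ⟩ : ∃ μ : ℝ, μ = (N : ℝ) ^ 2 / (a1 * a2 * a3) := ⟨_, rfl⟩
  have ha10 : (0 : ℝ) < a1 := by exact_mod_cast ha11
  have ha20 : (0 : ℝ) < a2 := by exact_mod_cast ha21
  have ha30 : (0 : ℝ) < a3 := by exact_mod_cast ha31
  have hμ0 : 0 < μ := by rw [hμ]; positivity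
  obtain ⟨ε, hε⟩ : ∃ ε : ℝ, ε = μ / L ^ (6 * T + 10) := ⟨_, rfl⟩
  have hε0 : 0 < ε := by rw [hε]; positivity
  have hε1 : (N : ℝ) ^ 2 / (a1 * a2 * a3) / Real.log N ^ (6 * T + 10) = ε := by
    rw [hε, hμ, ← hLd]
  have hε2 : (N : ℝ) ^ 2 / (a2 * a1 * a3) / Real.log N ^ (6 * T + 10) = ε := by
    rw [← hε1, mul_comm (a2 : ℝ)]
  have hε3 : (N : ℝ) ^ 2 / (a3 * a1 * a2) / Real.log N ^ (6 * T + 10) = ε := by
    rw [← hε1]
    congr 2
    ring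
  rw [hε1] at he1
  rw [hε2] at he2
  rw [hε3] at he3
  -- the functions
  have f1 := lam_bound b15
  have f2 := lam_bound b25
  have f3 := lam_bound b35
  have k1 := lamQ_bound b15 hL0.le
  have k2 := lamQ_bound b25 hL0.le
  rw [hLd] at f1 f2 f3 k1 k2
  have n1 : ((a1 : ℤ)).natAbs = a1 := Int.natAbs_natCast _
  have n2 : ((a2 : ℤ)).natAbs = a2 := Int.natAbs_natCast _
  have n3 : (-(a3 : ℤ)).natAbs = a3 := by rw [Int.natAbs_neg, Int.natAbs_natCast]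
  have q1 := h3 N (by omega) hp f2 f3
  have q2 := h3 N (by omega) hp.swap k1 f3
  have q3 := h3 N (by omega) hp.rot.rot k1 k2
  rw [n1, n2, n3] at q1
  rw [n1, n2, n3] at q2
  rw [n1, n2, n3] at q3
  rw [hε1] at q1
  rw [hε2] at q2
  rw [hε3] at q3
  have r1 := rep3 (c1 := (a1 : ℤ)) (c2 := (a2 : ℤ)) (c3 := -(a3 : ℤ)) (d := d) (P1 := P1) (P2 := P2) (P3 := P3)
    vm vm vm (lamz z) (lamz z) (lamz z) (ε := ε) he1 he2 he3
  have r2 := rep3 (c1 := (a1 : ℤ)) (c2 := (a2 : ℤ)) (c3 := -(a3 : ℤ)) (d := d) (P1 := P1) (P2 := P2) (P3 := P3)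
    vm vm vm (fun n => lamQ n) (fun n => lamQ n) (fun n => lamQ n) (ε := ε) q1 q2 q3
  have hq12 := hp.q12
  have hq13 := hp.q13
  have hg12 := hp.g12
  have hv1 := hp.v1
  have hv2 := hp.v2
  have hv3 := hp.v3
  rw [n1, n2] at hq12 hg12
  rw [n1, n3] at hq13
  rw [n1] at hv1
  rw [n2] at hv2
  rw [n3] at hv3
  have hlow := h4 N (by omega) z (by rw [← hLd]; exact hzlo) (by rw [← hLd]; exact hz2) a1 a2 a3 ha11 ha21 ha31
    hq12 (by
      refine le_trans ?_ hq13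
      exact_mod_cast Nat.le_mul_of_pos_left _ ha11) hg12 d hp.hd hadm P1 P2 P3 hv1 hv2 hv3
    (lamz z) (lamz z) (lamz z)
    (fun n => lamz_nonneg' _ n) (fun n => lamz_nonneg' _ n) (fun n => lamz_nonneg' _ n)
    (fun n h => lamz_rough le_rfl h) (fun n h => lamz_rough le_rfl h) (fun n h => lamz_rough le_rfl h)
  rw [← hLd] at hlow
  have hlow2 : (N : ℝ) ^ 2 / (a1 * a2 * a3 * L ^ (6 * T + 9)) = L * ε := by
    rw [hε, hμ, show 6 * T + 10 = (6 * T + 9) + 1 by ring, pow_succ L (6 * T + 9)]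
    field_simp
  rw [hlow2] at hlow
  have hpos : 0 < S3 a1 a2 (-(a3 : ℤ)) d P1 P2 P3 (fun n => lamQ n) (fun n => lamQ n) (fun n => lamQ n) := by
    have e1 := (abs_le.1 r1).1
    have e2 := (abs_le.1 r2).2
    have e3 : 100 * ε ≤ L * ε := mul_le_mul_of_nonneg_right hL100 hε0.le
    linarith
  by_contra hcon
  push Not at hcon
  have hzero : S3 a1 a2 (-(a3 : ℤ)) d P1 P2 P3 (fun n => lamQ n) (fun n => lamQ n) (fun n => lamQ n) = 0 := by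
    unfold S3
    apply sum_eq_zero
    intro x hx
    apply sum_eq_zero
    intro y hy
    apply sum_eq_zero
    intro w hw
    rw [mem_Icc] at hx hy hw
    split_ifs with heq
    · by_cases px : x.Prime
      · by_cases py : y.Prime
        · by_cases pw : w.Prime
          · exact absurd hw.2 (not_le.2 (hcon x y w px py pw (by linarith) hx.2 hy.2))
          · change lamQ x * lamQ y * lamQ w = 0
            rw [lamQ_zero pw, mul_zero]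
        · change lamQ x * lamQ y * lamQ w = 0
          rw [lamQ_zero py, mul_zero, zero_mul]
      · change lamQ x * lamQ y * lamQ w = 0
        rw [lamQ_zero px, zero_mul, zero_mul]
    · rfl
  rw [hzero] at hpos
  exact lt_irrefl _ hpos

end Pool.Agent.K7.H74.BK
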